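import Pool.Agent.Lib.MP_973905_nt.K1R.Stmts

/-! Module (23R): the final lower bound, `k → 1+`. -/

namespace Pool.Agent.Lib.MP_973905_nt
namespace K1R

open MeasureTheory ProbabilityTheory Complex Filter Topology K1

/-- (23R) the final lower bound -/
theorem stFinalR (h22 : StLowerR) (hC : StCKR) : StFinalR := by
  intro ε hε
  set e : ℝ := min ε 1 / 4 with he
  have hm : 0 < min ε 1 := lt_min hε one_pos
  have he0 : 0 < e := by rw [he]; positivity
  have he1 : e ≤ 1 / 4 := by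
    have : min ε 1 ≤ 1 := min_le_right _ _
    rw [he]; linarith
  have he2 : 4 * e ≤ ε := by
    have : min ε 1 ≤ ε := min_le_left _ _
    rw [he]; linarith
  obtain ⟨k₂, hk₂0, hk₂1, T₄, hT₄, hLo⟩ := h22 e he0
  have hcK : ∀ᶠ k in 𝓝[>] (1 : ℝ), |cK k - 1| < e := by
    have h1 : Tendsto cK (𝓝[>] 1) (𝓝 1) := hC
    have := h1.eventually (Metric.ball_mem_nhds (1 : ℝ) he0)
    filter_upwards [this] with k hk
    rwa [Real.dist_eq] at hk
  obtain ⟨k₃, hk₃, h3⟩ := mem_nhdsGT_iff_exists_Ioo_subset.mp hcK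
  rw [Set.mem_Ioi] at hk₃
  refine ⟨min k₂ ((k₃ + 1) / 2), lt_min hk₂0 (by linarith), T₄, hT₄, fun T hT k hk hk1 => ?_⟩
  have hka : k ≤ k₂ := hk1.trans (min_le_left _ _)
  have hkb : k ≤ (k₃ + 1) / 2 := hk1.trans (min_le_right _ _)
  have hT3 : 3 ≤ T := hT₄.trans hT
  have hL0 : 0 < Real.log T := Real.log_pos (by linarith)
  set Λ : ℝ := (Real.log T) ^ (k ^ 2) with hΛ
  have hΛ0 : 0 < Λ := Real.rpow_pos_of_pos hL0 _
  have hlo := hLo T hT k hk hka
  set X : ℝ := T⁻¹ * ∫ t in (0 : ℝ)..T, ‖riemannZeta (1 / 2 + t * I)‖ ^ (2 * k) with hX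
  have hck : |cK k - 1| < e := by
    rcases eq_or_lt_of_le hk with h | h
    · rw [← h, cK_one, sub_self, abs_zero]; exact he0
    · exact h3 ⟨h, by linarith⟩
  have h6 := abs_lt.mp hck
  have hc0 : 0 < cK k := by linarith
  have hcΛ : 0 < cK k * Λ := mul_pos hc0 hΛ0
  have key : 1 - 4 * e ≤ X / (cK k * Λ) := by
    rw [le_div_iff₀ hcΛ]
    have : (1 - 4 * e) * cK k ≤ 1 - e := by nlinarith
    calc (1 - 4 * e) * (cK k * Λ) = ((1 - 4 * e) * cK k) * Λ := by ring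
      _ ≤ (1 - e) * Λ := mul_le_mul_of_nonneg_right this hΛ0.le
      _ ≤ X := hlo
  linarith

end K1R
end Pool.Agent.Lib.MP_973905_nt
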