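import Pool.Agent.Lib.MP_973905_nt.K1.Stmts

/-! Statements (as propositions) of the modules for the joint limit `T → ∞`, `k → 1+`
(lower bound). The numbers are those of the corresponding modules of `K1/Stmts.lean`. -/

namespace Pool.Agent.Lib.MP_973905_nt
namespace K1R

open MeasureTheory ProbabilityTheory Complex Filter Topology K1

/-- (10R) local factor, negative `u` -/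
def StLFR : Prop := ∃ C : ℝ, 0 < C ∧ ∀ (u x : ℝ) (x₁ x₂ : ℂ), -(1 / 10) ≤ u → u ≤ 0 → 0 ≤ x →
    x ≤ 3 / 4 → ‖x₁‖ ≤ 3 / 4 → ‖x₂‖ ≤ 3 / 4 → ‖x₁‖ ≤ 2 * x → ‖x₂‖ ≤ 2 * x →
    ‖(1 - x₁ * x₂) * LF u x x₁ x₂ - ((1 + (u ^ 2 - 2 * u) * x ^ 2 : ℝ) : ℂ)‖ ≤
      C * |u| * x * (‖x₁ - x‖ + ‖x₂ - x‖ + x ^ 3)

/-- (11R) one block with shifts -/
def StBlockShiftR : Prop := ∃ C₁ : ℝ, 0 < C₁ ∧ ∀ (A l : ℕ) (S : Finset ℕ) (k : ℝ) (a₁ a₂ : ℂ), 1 ≤ A →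
    (∀ p ∈ S, p.Prime) → 1 ≤ k → k ≤ 11 / 10 →
    (∀ p ∈ S, ‖a₁‖ * Real.log p ≤ 1 / 20 ∧ ‖a₂‖ * Real.log p ≤ 1 / 20) →
    (‖a₁‖ + ‖a₂‖) * ∑ p ∈ S, Real.log p / p ≤ 1 →
    16 * Real.exp (C₁ * ∑ p ∈ S, 1 / (p : ℝ)) ≤ Real.exp (l / 2) →
    ‖ES S (fun f => ZZ S (tw (1 / 2 + a₁) f) *
        (starRingEnd ℂ) (ZZ S (tw (1 / 2 + (starRingEnd ℂ) a₂) f)) *
        (Ntr l (k - 1) (Pj A S (tw (1 / 2) f)) *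
          (starRingEnd ℂ) (Ntr l (k - 1) (Pj A S (tw (1 / 2) f))))) - LP (1 - k) a₁ a₂ S‖ ≤
      C₁ * (Real.exp (3 * rho A S) - 1 + Real.exp (-(l / 2))) * ‖LP (1 - k) a₁ a₂ S‖

/-- (12R) the arithmetic factor of our polynomials -/
def StRAR : Prop := ∀ η : ℝ, 0 < η → ∃ M₀ : ℕ, ∀ M : ℕ, M₀ ≤ M → ∃ k₁ : ℝ, 1 < k₁ ∧ k₁ ≤ 11 / 10 ∧
    ∃ T₀ : ℝ, 3 ≤ T₀ ∧ ∀ T, T₀ ≤ T → ∀ k : ℝ, 1 ≤ k → k ≤ k₁ → ∀ a₁ a₂ : ℂ,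
    ‖a₁‖ ≤ Real.exp (M / 2) / Real.log T → ‖a₂‖ ≤ Real.exp (M / 2) / Real.log T →
    ‖RA T M (NN T M (k - 1)) a₁ a₂ - (((Real.log T) ^ (k ^ 2 - 1) : ℝ) : ℂ)‖ ≤
      η * (Real.log T) ^ (k ^ 2 - 1)

/-- (14R) crude bound on the critical line -/
def StCrudeR : Prop := ∃ C κ : ℝ, 0 < C ∧ 0 < κ ∧ ∃ M₀ : ℕ, ∀ M : ℕ, M₀ ≤ M → ∃ T₀ : ℝ, 3 ≤ T₀ ∧
    ∀ T, T₀ ≤ T → ∀ τ : ℝ, |τ| ≤ 2 * T → ∀ k : ℝ, 1 ≤ k → k ≤ 11 / 10 → ∀ g h : Finset ℕ,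
    g ∪ h = Finset.range (JJ T + 1) →
    EG T τ (fun t => ‖riemannZeta (1 / 2 + t * I)‖ ^ 2 *
      ‖AA T M (JJ T) (k - 1) g h (fs (1 / 2 + t * I))‖ ^ 2) ≤
      Real.exp (C * M) * (Real.log T) ^ (k ^ 2) * ∏ j ∈ h, ss M (JJ T) j + T ^ (-κ)

/-- (15R) sharp twisted second moment -/
def StSecondR : Prop := ∀ η : ℝ, 0 < η → ∃ M₀ : ℕ, ∀ M : ℕ, M₀ ≤ M → ∃ k₁ : ℝ, 1 < k₁ ∧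
    k₁ ≤ 11 / 10 ∧ ∃ T₀ : ℝ, 3 ≤ T₀ ∧ ∀ T, T₀ ≤ T → ∀ k : ℝ, 1 ≤ k → k ≤ k₁ → ∀ τ : ℝ,
    T / Real.log T ≤ |τ| → |τ| ≤ 3 / 2 * T →
    |EG T τ (fun t => ‖riemannZeta (1 / 2 + t * I)‖ ^ 2 * ‖NN T M (k - 1) (fs (1 / 2 + t * I))‖ ^ 2) -
      (Real.log T) ^ (k ^ 2)| ≤ η * (Real.log T) ^ (k ^ 2)

/-- (P) the random second moment of `N(k-1) N(1)` -/
def StProdRM : Prop := ∃ M₀ : ℕ, ∀ M : ℕ, M₀ ≤ M → ∃ C T₀ : ℝ, 0 < C ∧ 3 ≤ T₀ ∧ ∀ T, T₀ ≤ T →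
    ∀ k : ℝ, 1 ≤ k → k ≤ 11 / 10 →
    ER (SB T M (JJ T)) (fun f => ‖NN T M (k - 1) (tw (1 / 2) f)‖ ^ 2 *
      ‖NN T M 1 (tw (1 / 2) f)‖ ^ 2) ≤ C * (Real.log T) ^ (k ^ 2)

/-- (P) the mean square of `N(k-1) N(1)` on `[0, T]` -/
def StProdR : Prop := ∃ M₀ : ℕ, ∀ M : ℕ, M₀ ≤ M → ∃ C T₀ : ℝ, 0 < C ∧ 3 ≤ T₀ ∧ ∀ T, T₀ ≤ T →
    ∀ k : ℝ, 1 ≤ k → k ≤ 11 / 10 →
    T⁻¹ * ∫ t in (0 : ℝ)..T, ‖NN T M (k - 1) (fs (1 / 2 + t * I))‖ ^ 2 *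
      ‖NN T M 1 (fs (1 / 2 + t * I))‖ ^ 2 ≤ C * (Real.log T) ^ (k ^ 2)

/-- (22R) lower bound on `[0, T]` -/
def StLowerR : Prop := ∀ ε : ℝ, 0 < ε → ∃ k₁ : ℝ, 1 < k₁ ∧ k₁ ≤ 11 / 10 ∧ ∃ T₀ : ℝ, 3 ≤ T₀ ∧
    ∀ T, T₀ ≤ T → ∀ k : ℝ, 1 ≤ k → k ≤ k₁ →
    (1 - ε) * (Real.log T) ^ (k ^ 2) ≤
      T⁻¹ * ∫ t in (0 : ℝ)..T, ‖riemannZeta (1 / 2 + t * I)‖ ^ (2 * k)

/-- (CK) the Keating-Snaith constant tends to one -/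
def StCKR : Prop := Tendsto cK (𝓝[>] 1) (𝓝 1)

/-- (23R) the final lower bound -/
def StFinalR : Prop := ∀ ε : ℝ, 0 < ε → ∃ k₁ : ℝ, 1 < k₁ ∧ ∃ T₀ : ℝ, 3 ≤ T₀ ∧
    ∀ T, T₀ ≤ T → ∀ k : ℝ, 1 ≤ k → k ≤ k₁ →
    1 - ε ≤ (T⁻¹ * ∫ t in (0 : ℝ)..T, ‖riemannZeta (1 / 2 + t * I)‖ ^ (2 * k)) /
      (cK k * (Real.log T) ^ (k ^ 2))

end K1R
end Pool.Agent.Lib.MP_973905_nt
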