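import Pool.Agent.Lib.MP_973905_nt.K1.FinalK1
import Pool.Agent.Lib.MP_973905_nt.K1R.Stmts

/-! Module (CK): the limit of the Keating-Snaith constant `c_k` as `k → 1+`. -/

namespace Pool.Agent.Lib.MP_973905_nt
namespace K1R.CKR

open MeasureTheory ProbabilityTheory Complex Filter Topology
open Pool.Agent.Lib.MP_973905_nt.CK Pool.Agent.Lib.MP_973905_nt.K1.FinalK1

/-- `k - 1 → 0` within `Ioi 0` when `k → 1` within `Ioi 1`. -/
lemma tendsto_sub_one : Tendsto (fun k : ℝ => k - 1) (𝓝[>] 1) (𝓝[>] 0) := by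
  rw [tendsto_nhdsWithin_iff]
  constructor
  · have : Tendsto (fun k : ℝ => k - 1) (𝓝 1) (𝓝 (1 - 1)) := by
      exact (continuous_id.sub continuous_const).tendsto 1
    rw [sub_self] at this
    exact this.mono_left nhdsWithin_le_nhds
  · filter_upwards [self_mem_nhdsWithin] with k hk
    simpa using hk

lemma barnes_one : Tendsto (fun k : ℝ => barnesG (k + 1)) (𝓝[>] 1) (𝓝 1) := by
  have h1 := (barnesG_tendsto 1).comp tendsto_sub_one
  have h2 : Tendsto (fun k : ℝ => Real.Gamma k) (𝓝[>] 1) (𝓝 1) := by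
    have h : ContinuousAt Real.Gamma 1 := contGamma one_pos
    have h' := h.tendsto
    rw [Real.Gamma_one] at h'
    exact h'.mono_left nhdsWithin_le_nhds
  have h3 := h2.mul h1
  rw [one_mul] at h3
  refine h3.congr' ?_
  filter_upwards [self_mem_nhdsWithin] with k hk
  have hk' : (0 : ℝ) < k := lt_trans one_pos hk
  simp only [Function.comp]
  rw [barnesG_add_one hk']
  congr 2
  ring

lemma barnes_two : Tendsto (fun k : ℝ => barnesG (2 * k + 1)) (𝓝[>] 1) (𝓝 1) := by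
  have h1 := (barnesG_tendsto 2).comp tendsto_sub_one
  have h2 : Tendsto (fun k : ℝ => Real.Gamma (2 * k)) (𝓝[>] 1) (𝓝 1) := by
    have h : ContinuousAt Real.Gamma 2 := contGamma two_pos
    have h' := h.tendsto
    rw [Real.Gamma_two] at h'
    refine h'.comp ?_
    have : Tendsto (fun k : ℝ => 2 * k) (𝓝 1) (𝓝 (2 * 1)) :=
      (continuous_const.mul continuous_id).tendsto 1
    rw [mul_one] at this
    exact this.mono_left nhdsWithin_le_nhds
  have h2' : Tendsto (fun k : ℝ => Real.Gamma (2 * k - 1)) (𝓝[>] 1) (𝓝 1) := by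
    have h : ContinuousAt Real.Gamma 1 := contGamma one_pos
    have h' := h.tendsto
    rw [Real.Gamma_one] at h'
    refine h'.comp ?_
    have : Tendsto (fun k : ℝ => 2 * k - 1) (𝓝 1) (𝓝 (2 * 1 - 1)) :=
      ((continuous_const.mul continuous_id).sub continuous_const).tendsto 1
    have e : (2 * 1 - 1 : ℝ) = 1 := by norm_num
    rw [e] at this
    exact this.mono_left nhdsWithin_le_nhds
  have h3 := (h2.mul h2').mul h1
  rw [one_mul, one_mul] at h3
  refine h3.congr' ?_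
  filter_upwards [self_mem_nhdsWithin] with k hk
  have hk' : (1 : ℝ) < k := hk
  simp only [Function.comp]
  have e1 : 2 * k = (2 * k - 1) + 1 := by ring
  rw [barnesG_add_one (show 0 < 2 * k by linarith)]
  conv_rhs => rw [e1, barnesG_add_one (show 0 < 2 * k - 1 by linarith)]
  rw [mul_assoc]
  congr 3
  ring

lemma bc_tendsto (m : ℕ) : Tendsto (fun k : ℝ => bc k m) (𝓝[>] 1) (𝓝 1) := by
  have h1 : ContinuousAt (fun k : ℝ => bc k m) 1 := by
    unfold bc
    have ha : ContinuousAt (fun k : ℝ => Real.Gamma (k + m)) 1 := by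
      have : ContinuousAt Real.Gamma (1 + m) :=
        contGamma (by positivity)
      exact ContinuousAt.comp (f := fun k : ℝ => k + m) this (by fun_prop)
    have hb : ContinuousAt Real.Gamma 1 :=
      contGamma one_pos
    refine ha.div (hb.mul continuousAt_const) ?_
    rw [Real.Gamma_one, one_mul]
    exact_mod_cast m.factorial_ne_zero
  have h2 := h1.tendsto
  rw [bc_one] at h2
  exact h2.mono_left nhdsWithin_le_nhds

lemma ev_pos : ∀ᶠ k : ℝ in 𝓝[>] 1, 1 < k ∧ k ≤ 2 := by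
  have hpos : ∀ᶠ k : ℝ in 𝓝[>] 1, k < 2 :=
    nhdsWithin_le_nhds (gt_mem_nhds one_lt_two)
  filter_upwards [hpos, self_mem_nhdsWithin] with k h1 h2
  exact ⟨h2, h1.le⟩

/-- `Γ(k+m)/(Γ(k) m!) ≤ m+1` for `k ≤ 2` -/
lemma bc_le2 {k : ℝ} (hk : 0 < k) (hk1 : k ≤ 2) (m : ℕ) : bc k m ≤ m + 1 := by
  induction m with
  | zero => rw [bc_zero hk]; simp
  | succ m ih =>
    rw [bc_succ hk]
    have hm : (0 : ℝ) < m + 1 := by positivity
    have h1 : (k + m) / ((m : ℝ) + 1) ≤ (m + 2) / (m + 1) := by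
      apply div_le_div_of_nonneg_right _ hm.le
      linarith
    have h0 : 0 ≤ (k + m) / ((m : ℝ) + 1) := by positivity
    calc bc k m * ((k + m) / ((m : ℝ) + 1)) ≤ (m + 1) * ((m + 2) / (m + 1)) :=
          mul_le_mul ih h1 h0 hm.le
      _ = m + 2 := by field_simp
      _ = ((m + 1 : ℕ) : ℝ) + 1 := by push_cast; ring

lemma summable_sq_geom {x : ℝ} (hx0 : 0 ≤ x) (hx : x < 1) (a : ℝ) :
    Summable fun m : ℕ => ((m : ℝ) + a) ^ 2 * x ^ m := by
  have hn : ‖x‖ < 1 := by rwa [Real.norm_eq_abs, abs_of_nonneg hx0]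
  have h2 := summable_pow_mul_geometric_of_norm_lt_one 2 hn
  have h1 := summable_pow_mul_geometric_of_norm_lt_one 1 hn
  have h0 := summable_geometric_of_lt_one hx0 hx
  refine ((h2.add (h1.mul_left (2 * a))).add (h0.mul_left (a ^ 2))).congr fun m => ?_
  ring

lemma summable_Fk2 {k x : ℝ} (hk : 0 < k) (hk1 : k ≤ 2) (hx0 : 0 ≤ x) (hx : x < 1) :
    Summable fun m : ℕ => bc k m ^ 2 * x ^ m := by
  refine Summable.of_nonneg_of_le (fun m => by positivity) (fun m => ?_)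
    (summable_sq_geom hx0 hx 1)
  have h1 : bc k m ^ 2 ≤ ((m : ℝ) + 1) ^ 2 := pow_le_pow_left₀ (bc_pos hk m).le (bc_le2 hk hk1 m) 2
  exact mul_le_mul_of_nonneg_right h1 (by positivity)

/-- The constant of the quadratic remainder. -/
noncomputable def C0 : ℝ := ∑' m : ℕ, ((m : ℝ) + 3) ^ 2 * (1 / 2) ^ m

lemma C0_nonneg : 0 ≤ C0 := tsum_nonneg fun m => by positivity

lemma Fk_bounds2 {k x : ℝ} (hk : 0 < k) (hk1 : k ≤ 2) (hx0 : 0 ≤ x) (hx : x ≤ 1 / 2) :
    1 + k ^ 2 * x ≤ Fk k x ∧ Fk k x ≤ 1 + k ^ 2 * x + C0 * x ^ 2 := by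
  have hs := summable_Fk2 hk hk1 hx0 (by linarith : x < 1)
  constructor
  · have h := hs.sum_le_tsum (Finset.range 2) (fun m _ => by positivity)
    simp only [Finset.sum_range_succ, Finset.sum_range_zero] at h
    rw [show (1 : ℕ) = 0 + 1 by rfl, bc_succ hk, bc_zero hk] at h
    simpa [Fk] using h
  · have e := hs.sum_add_tsum_nat_add 2
    simp only [Finset.sum_range_succ, Finset.sum_range_zero] at e
    rw [show (1 : ℕ) = 0 + 1 by rfl, bc_succ hk, bc_zero hk] at e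
    have hs' : Summable fun m : ℕ => bc k (m + 2) ^ 2 * x ^ (m + 2) :=
      (summable_nat_add_iff 2).mpr hs
    have h2 : ∑' m : ℕ, bc k (m + 2) ^ 2 * x ^ (m + 2) ≤
        ∑' m : ℕ, x ^ 2 * (((m : ℝ) + 3) ^ 2 * (1 / 2) ^ m) := by
      refine hs'.tsum_le_tsum (fun m => ?_)
        ((summable_sq_geom (by norm_num) (by norm_num) 3).mul_left _)
      have h3 : bc k (m + 2) ^ 2 ≤ ((m : ℝ) + 3) ^ 2 := by
        refine pow_le_pow_left₀ (bc_pos hk _).le ((bc_le2 hk hk1 (m + 2)).trans ?_) 2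
        push_cast
        linarith
      have h4 : x ^ m ≤ (1 / 2) ^ m := pow_le_pow_left₀ hx0 hx m
      calc bc k (m + 2) ^ 2 * x ^ (m + 2) = bc k (m + 2) ^ 2 * (x ^ 2 * x ^ m) := by ring
        _ ≤ ((m : ℝ) + 3) ^ 2 * (x ^ 2 * (1 / 2) ^ m) := by gcongr
        _ = _ := by ring
    rw [tsum_mul_left] at h2
    have h5 : Fk k x = ∑' m : ℕ, bc k m ^ 2 * x ^ m := rfl
    rw [h5, ← e, C0]
    have h6 : (0 : ℝ) + 1 ^ 2 * x ^ 0 + (1 * ((k + ((0 : ℕ) : ℝ)) / (((0 : ℕ) : ℝ) + 1))) ^ 2 *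
        x ^ (0 + 1) = 1 + k ^ 2 * x := by
      simp
    rw [h6]
    linarith

lemma lf_pos2 {k x : ℝ} (hk : 0 < k) (hk1 : k ≤ 2) (hx0 : 0 ≤ x) (hx : x ≤ 1 / 2) : 0 < lf k x := by
  have h1 := (Fk_bounds2 hk hk1 hx0 hx).1
  have h2 : 0 < Fk k x := by
    have : 0 ≤ k ^ 2 * x := by positivity
    linarith
  have h3 : 0 < 1 - x := by linarith
  unfold lf
  positivity

lemma abs_log_lf2 {k x : ℝ} (hk : 0 < k) (hk1 : k ≤ 2) (hx0 : 0 ≤ x) (hx : x ≤ 1 / 2) :
    |Real.log (lf k x)| ≤ (C0 + 24) * x ^ 2 := by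
  obtain ⟨h1, h2⟩ := Fk_bounds2 hk hk1 hx0 hx
  have hk2 : k ^ 2 ≤ 4 := by nlinarith
  have hkx : 0 ≤ k ^ 2 * x := by positivity
  have hF : 0 < Fk k x := by linarith
  have h3 : 0 < 1 - x := by linarith
  have hx2 : 0 ≤ x ^ 2 := by positivity
  have hk20 : 0 ≤ k ^ 2 := by positivity
  have hC : 0 ≤ C0 * x ^ 2 := mul_nonneg C0_nonneg hx2
  have e : Real.log (lf k x) = k ^ 2 * Real.log (1 - x) + Real.log (Fk k x) := by
    rw [lf, Real.log_mul (by positivity) hF.ne', Real.log_rpow h3]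
  -- bounds for `log (1 - x)`
  have h4 : Real.log (1 - x) ≤ -x := by
    have := Real.log_le_sub_one_of_pos h3; linarith
  have h7 : x / (1 - x) ≤ x + 2 * x ^ 2 := by
    rw [div_le_iff₀ h3]
    nlinarith [mul_nonneg hx2 (by linarith : (0 : ℝ) ≤ 1 - 2 * x)]
  have h5 : -x - 2 * x ^ 2 ≤ Real.log (1 - x) := by
    have h8 := Real.one_sub_inv_le_log_of_pos h3
    have h9 : 1 - (1 - x)⁻¹ = -(x / (1 - x)) := by field_simp; ring
    rw [h9] at h8
    linarith
  -- bounds for `log F`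
  have h10 : Real.log (Fk k x) ≤ k ^ 2 * x + C0 * x ^ 2 := by
    have h11 := Real.log_le_sub_one_of_pos hF
    linarith
  have h13 : k ^ 2 * x - 16 * x ^ 2 ≤ Real.log (Fk k x) := by
    have h14 : Real.log (1 + k ^ 2 * x) ≤ Real.log (Fk k x) := Real.log_le_log (by linarith) h1
    have h15 := Real.one_sub_inv_le_log_of_pos (show 0 < 1 + k ^ 2 * x by linarith)
    have h16 : k ^ 2 * x - (k ^ 2 * x) ^ 2 ≤ 1 - (1 + k ^ 2 * x)⁻¹ := by
      have h17 : 1 - (1 + k ^ 2 * x)⁻¹ = (k ^ 2 * x) / (1 + k ^ 2 * x) := by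
        have : (1 + k ^ 2 * x) ≠ 0 := by linarith
        field_simp; ring
      rw [h17, le_div_iff₀ (by linarith)]
      have : 0 ≤ (k ^ 2 * x) ^ 3 := by positivity
      nlinarith
    have h18 : (k ^ 2 * x) ^ 2 ≤ 16 * x ^ 2 := by
      have : (k ^ 2) ^ 2 ≤ 16 := by nlinarith
      calc (k ^ 2 * x) ^ 2 = (k ^ 2) ^ 2 * x ^ 2 := by ring
        _ ≤ 16 * x ^ 2 := mul_le_mul_of_nonneg_right this hx2
    linarith
  rw [e, abs_le]
  have h19 := mul_le_mul_of_nonneg_left h4 hk20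
  have h20 := mul_le_mul_of_nonneg_left h5 hk20
  have h21 : k ^ 2 * (2 * x ^ 2) ≤ 4 * (2 * x ^ 2) := mul_le_mul_of_nonneg_right hk2 (by positivity)
  constructor
  · nlinarith
  · nlinarith

lemma summable_log_lf2 {k : ℝ} (hk : 0 < k) (hk1 : k ≤ 2) :
    Summable fun p : Nat.Primes => Real.log (lf k (((p : ℕ) : ℝ)⁻¹)) := by
  refine Summable.of_norm_bounded (g := fun p : Nat.Primes => (C0 + 24) * (((p : ℕ) : ℝ)⁻¹) ^ 2)
    (summable_prime_sq.mul_left _) fun p => ?_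
  rw [Real.norm_eq_abs]
  exact abs_log_lf2 hk hk1 (prime_inv p).1 (prime_inv p).2

lemma aK_exp2 {k : ℝ} (hk : 0 < k) (hk1 : k ≤ 2) :
    aK k = Real.exp (∑' p : Nat.Primes, Real.log (lf k (((p : ℕ) : ℝ)⁻¹))) := by
  rw [aK_eq]
  refine (Real.rexp_tsum_eq_tprod (fun p => ?_) (summable_log_lf2 hk hk1)).symm
  exact lf_pos2 hk hk1 (prime_inv p).1 (prime_inv p).2

lemma Fk_tendsto {x : ℝ} (hx0 : 0 ≤ x) (hx : x < 1) :
    Tendsto (fun k : ℝ => Fk k x) (𝓝[>] 1) (𝓝 (1 - x)⁻¹) := by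
  have h := tendsto_tsum_of_dominated_convergence (𝓕 := 𝓝[>] (1 : ℝ))
    (f := fun (k : ℝ) (m : ℕ) => bc k m ^ 2 * x ^ m) (g := fun m : ℕ => x ^ m)
    (bound := fun m : ℕ => ((m : ℝ) + 1) ^ 2 * x ^ m) (summable_sq_geom hx0 hx 1) (fun m => ?_) ?_
  · rw [tsum_geometric_of_lt_one hx0 hx] at h
    exact h
  · have := ((bc_tendsto m).pow 2).mul_const (x ^ m)
    simpa using this
  · filter_upwards [ev_pos] with k hk m
    have hk0 : 0 < k := by linarith [hk.1]
    have h1 : bc k m ^ 2 ≤ ((m : ℝ) + 1) ^ 2 :=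
      pow_le_pow_left₀ (bc_pos hk0 m).le (bc_le2 hk0 hk.2 m) 2
    have h2 : 0 ≤ x ^ m := by positivity
    have h3 : 0 ≤ bc k m ^ 2 * x ^ m := by positivity
    rw [Real.norm_eq_abs, abs_of_nonneg h3]
    exact mul_le_mul_of_nonneg_right h1 h2

lemma lf_tendsto {x : ℝ} (hx0 : 0 ≤ x) (hx : x < 1) :
    Tendsto (fun k : ℝ => lf k x) (𝓝[>] 1) (𝓝 1) := by
  have h1 : Tendsto (fun k : ℝ => (1 - x) ^ (k ^ 2)) (𝓝[>] 1) (𝓝 (1 - x)) := by
    have hc : Continuous (fun k : ℝ => (1 - x) ^ (k ^ 2)) :=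
      continuous_const.rpow (continuous_id.pow 2) fun z => Or.inl (by
        have : 0 < 1 - x := by linarith
        exact this.ne')
    have := hc.tendsto 1
    simp only [one_pow, Real.rpow_one] at this
    exact this.mono_left nhdsWithin_le_nhds
  have h2 := h1.mul (Fk_tendsto hx0 hx)
  rw [mul_inv_cancel₀ (by linarith)] at h2
  exact h2

lemma aK_tendsto_one : Tendsto aK (𝓝[>] 1) (𝓝 1) := by
  have hlog : Tendsto (fun k : ℝ => ∑' p : Nat.Primes, Real.log (lf k (((p : ℕ) : ℝ)⁻¹)))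
      (𝓝[>] 1) (𝓝 (∑' _ : Nat.Primes, (0 : ℝ))) := by
    refine tendsto_tsum_of_dominated_convergence (bound := fun p : Nat.Primes =>
      (C0 + 24) * (((p : ℕ) : ℝ)⁻¹) ^ 2) (summable_prime_sq.mul_left _) (fun p => ?_) ?_
    · have h1 := lf_tendsto (prime_inv p).1 (lt_of_le_of_lt (prime_inv p).2 (by norm_num))
      have h2 := h1.log one_ne_zero
      rwa [Real.log_one] at h2
    · filter_upwards [ev_pos] with k hk p
      rw [Real.norm_eq_abs]
      exact abs_log_lf2 (by linarith [hk.1]) hk.2 (prime_inv p).1 (prime_inv p).2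
  rw [tsum_zero] at hlog
  have h3 := (Real.continuous_exp.tendsto 0).comp hlog
  rw [Real.exp_zero] at h3
  refine h3.congr' ?_
  filter_upwards [ev_pos] with k hk
  rw [aK_exp2 (by linarith [hk.1]) hk.2]
  rfl

lemma aK_pos2 {k : ℝ} (hk : 0 < k) (hk1 : k ≤ 2) : 0 < aK k := by
  rw [aK_exp2 hk hk1]; exact Real.exp_pos _

/-- `c_k > 0` for `0 < k ≤ 2` -/
lemma cK_pos2 {k : ℝ} (hk : 0 < k) (hk1 : k ≤ 2) : 0 < cK k := by
  have h1 := aK_pos2 hk hk1
  have h2 := barnesG_pos (show 0 < k + 1 by linarith)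
  have h3 := barnesG_pos (show 0 < 2 * k + 1 by linarith)
  unfold cK
  positivity

end K1R.CKR

namespace K1R

open CKR Filter Topology

/-- (CK) the Keating-Snaith constant tends to one -/
theorem stCKR : StCKR := by
  have h3 := (aK_tendsto_one.mul (barnes_one.pow 2)).div barnes_two one_ne_zero
  simp only [one_mul, one_pow, div_one] at h3
  exact h3

end K1R
end Pool.Agent.Lib.MP_973905_nt
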