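import Pool.Agent.Lib.MP_973905_nt.K1R.Stmts
import Pool.Agent.Lib.MP_973905_nt.K1.Crude
import Pool.Agent.Lib.MP_973905_nt.Fourth2

/-! Module (14R): crude bound on the critical line, `1 ≤ k ≤ 2`. -/

namespace Pool.Agent.Lib.MP_973905_nt
namespace K1R

open MeasureTheory ProbabilityTheory Complex Filter Topology K1

namespace CrudeR

open XB

/-- The exponent at a prime. -/
lemma expoR_le {k c c₁ a₂ θ : ℝ} {z : ℂ} (hk0 : 0 ≤ k) (hk1 : k ≤ 2) (hθ : 0 ≤ θ)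
    (hz : 0 ≤ z.re) (h1 : -c₁ ≤ a₂) (h2 : a₂ ≤ c) (hc1 : 0 ≤ c₁) (hc : 0 ≤ c)
    (hs : c₁ * θ ≤ 1 / 2) :
    ‖cexp (-(z * θ)) + ((k - 1 : ℝ) : ℂ) * (Real.exp (-(a₂ * θ)) : ℝ)‖ ^ 2 ≤
      k ^ 2 + 18 * min 1 (‖z‖ * θ) + 18 * min 1 (c * θ) + 18 * (c₁ * θ) := by
  set m1 := min 1 (‖z‖ * θ) with hm1
  set m2 := min 1 (c * θ) with hm2
  have m10 : 0 ≤ m1 := le_min zero_le_one (by positivity)
  have m20 : 0 ≤ m2 := le_min zero_le_one (by positivity)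
  have m11 : m1 ≤ 1 := min_le_left _ _
  have m21 : m2 ≤ 1 := min_le_left _ _
  have hU : ‖cexp (-(z * θ)) - 1‖ ≤ 2 * m1 := by
    have hn : ‖-(z * (θ : ℂ))‖ = ‖z‖ * θ := by
      rw [norm_neg, norm_mul, norm_real, Real.norm_eq_abs, abs_of_nonneg hθ]
    rcases le_total (‖z‖ * θ) 1 with h | h
    · rw [hm1, min_eq_right h, ← hn]
      exact norm_exp_sub_one_le (by rw [hn]; exact h)
    · rw [hm1, min_eq_left h]
      refine (norm_sub_le _ _).trans ?_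
      rw [norm_one, norm_exp]
      have : Real.exp (-(z * (θ : ℂ))).re ≤ 1 := by
        rw [Real.exp_le_one_iff]
        simp only [neg_re, mul_re, ofReal_re, ofReal_im, mul_zero, sub_zero]
        have := mul_nonneg hz hθ
        linarith
      linarith
  have hV : |Real.exp (-(a₂ * θ)) - 1| ≤ 2 * m2 + 2 * (c₁ * θ) := by
    have hc1θ : 0 ≤ c₁ * θ := mul_nonneg hc1 hθ
    rcases le_total 0 a₂ with h | h
    · have h0 : 0 ≤ a₂ * θ := mul_nonneg h hθ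
      have h3 : Real.exp (-(a₂ * θ)) ≤ 1 := by rw [Real.exp_le_one_iff]; linarith
      rw [abs_of_nonpos (by linarith)]
      have h4 := Real.add_one_le_exp (-(a₂ * θ))
      have h5 : a₂ * θ ≤ c * θ := mul_le_mul_of_nonneg_right h2 hθ
      have h6 : 0 < Real.exp (-(a₂ * θ)) := Real.exp_pos _
      have h7 : -(Real.exp (-(a₂ * θ)) - 1) ≤ m2 := by
        rw [hm2]
        apply le_min <;> linarith
      linarith
    · have h0 : |-(a₂ * θ)| ≤ c₁ * θ := by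
        rw [abs_of_nonneg (by nlinarith)]
        nlinarith
      have := Real.abs_exp_sub_one_le (x := -(a₂ * θ)) (by linarith)
      linarith
  set E := 2 * m1 + (2 * m2 + 2 * (c₁ * θ)) with hE
  have hE0 : 0 ≤ E := by
    have hc1θ : 0 ≤ c₁ * θ := mul_nonneg hc1 hθ
    positivity
  have hE5 : E ≤ 5 := by linarith
  have hnorm : ‖cexp (-(z * θ)) + ((k - 1 : ℝ) : ℂ) * (Real.exp (-(a₂ * θ)) : ℝ)‖ ≤ k + E := by
    have e : cexp (-(z * θ)) + ((k - 1 : ℝ) : ℂ) * (Real.exp (-(a₂ * θ)) : ℝ) =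
        (k : ℂ) + ((cexp (-(z * θ)) - 1) + ((k - 1 : ℝ) : ℂ) *
          ((Real.exp (-(a₂ * θ)) - 1 : ℝ) : ℂ)) := by
      push_cast; ring
    rw [e]
    refine (norm_add_le _ _).trans ?_
    rw [norm_real, Real.norm_eq_abs, abs_of_nonneg hk0]
    gcongr
    refine (norm_add_le _ _).trans ?_
    rw [norm_mul, norm_real, norm_real, Real.norm_eq_abs, Real.norm_eq_abs]
    have h3 : |k - 1| ≤ 1 := by rw [abs_le]; constructor <;> linarith
    have h4 : |k - 1| * |Real.exp (-(a₂ * θ)) - 1| ≤ 1 * (2 * m2 + 2 * (c₁ * θ)) :=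
      mul_le_mul h3 hV (abs_nonneg _) zero_le_one
    linarith
  calc ‖cexp (-(z * θ)) + ((k - 1 : ℝ) : ℂ) * (Real.exp (-(a₂ * θ)) : ℝ)‖ ^ 2
      ≤ (k + E) ^ 2 := pow_le_pow_left₀ (norm_nonneg _) hnorm 2
    _ ≤ k ^ 2 + 9 * E := by nlinarith [mul_nonneg hk0 hE0]
    _ = _ := by rw [hE]; ring

/-- Good blocks. -/
lemma good_blockR : ∃ C : ℝ, 0 ≤ C ∧ ∀ (A l : ℕ) (S : Finset ℕ) (w₁ : ℂ) (w₂ k : ℝ), 1 ≤ A →
    0 < w₁.re → 0 ≤ k → k ≤ 2 → (∀ p ∈ S, p.Prime) → (∀ p ∈ S, yp w₁.re w₂ p ≤ 3 / 4) →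
    ES S (fun f => ‖ZZ S (tw w₁ f)‖ ^ 2 * ‖Ntr l (k - 1) (Pj A S (tw w₂ f))‖ ^ 2) ≤
      Real.exp (∑ p ∈ S, (‖(p : ℂ) ^ (-w₁) + ((k - 1 : ℝ) : ℂ) * ((p : ℝ) ^ (-w₂) : ℝ)‖ ^ 2 +
        C * (yp w₁.re w₂ p) ^ 4)) *
      Real.exp (33 * Real.exp (-l + C * ∑ p ∈ S, (yp w₁.re w₂ p) ^ 2)) := by
  obtain ⟨C1, hC1, h1⟩ := ES_exp 1
  obtain ⟨C2, hC2, h2⟩ := ES_exp_norm (q := 3) (by norm_num)
  refine ⟨C1 + C2, by positivity, fun A l S w₁ w₂ k hA hw hk0 hk1 hS hy => ?_⟩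
  have hα : |k - 1| ≤ 1 := by rw [abs_le]; constructor <;> linarith
  set η := Real.exp (-(l : ℝ)) with hη
  have hη0 : 0 < η := Real.exp_pos _
  have hη1 : η ≤ 1 := by rw [hη, Real.exp_le_one_iff]; linarith [Nat.cast_nonneg (α := ℝ) l]
  set Z : (ℕ → ℂ) → ℂ := fun f => ZZ S (tw w₁ f) with hZ
  set P : (ℕ → ℂ) → ℂ := fun f => Pj A S (tw w₂ f) with hP
  have bZ : BS S Z := bs_ZZ hS hw
  have bP : BS S P := bs_Pj A S S w₂
  set F1 : (ℕ → ℂ) → ℝ := fun f => ‖(ZZ S (tw w₁ f)) ^ 1 * cexp (((k - 1 : ℝ) : ℂ) * P f)‖ ^ 2 with hF1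
  set F2 : (ℕ → ℂ) → ℝ := fun f => ‖(ZZ S (tw w₁ f)) ^ 1‖ ^ 2 * Real.exp (3 * ‖P f‖) ^ 2 with hF2
  have b1 : BS S F1 := ((bZ.pow 1).mul ((bs_const S _).mul bP).cexp).norm_sq
  have b2 : BS S F2 := BS.mulR (bZ.pow 1).norm_sq (BS.expnorm bP (by norm_num))
  have b1' : BS S (fun f => (1 + η) * F1 f) := BS.mulR (bs_const S _) b1
  have b2' : BS S (fun f => (2 * η) * F2 f) := BS.mulR (bs_const S _) b2
  have g1 := h1 A 1 S w₁ ((k - 1 : ℝ) : ℂ) w₂ hA (by norm_num)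
    (by rw [norm_real, Real.norm_eq_abs]; exact hα) hS hy
  have g2 := h2 A 1 S w₁ w₂ hA (by norm_num) hw hS hy
  have step : ES S (fun f => ‖Z f‖ ^ 2 * ‖Ntr l (k - 1) (P f)‖ ^ 2) ≤
      ES S (fun f => (1 + η) * F1 f + (2 * η) * F2 f) := by
    apply ES_mono
    · intro ω; positivity
    · exact (BS.add b1' b2').integrable
    · intro ω
      set f := ext S ω
      have ht := Ntr_tail l hα (P f)
      have hn : ‖Ntr l (k - 1) (P f)‖ ≤ ‖cexp (((k - 1 : ℝ) : ℂ) * P f)‖ +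
          η * Real.exp (3 * ‖P f‖) := by
        have := norm_sub_norm_le (Ntr l (k - 1) (P f)) (cexp (((k - 1 : ℝ) : ℂ) * P f))
        rw [norm_sub_rev] at this
        linarith
      set a := ‖cexp (((k - 1 : ℝ) : ℂ) * P f)‖ with ha
      set s := Real.exp (3 * ‖P f‖) with hs
      have hs0 : 0 < s := Real.exp_pos _
      have ha0 : 0 ≤ a := norm_nonneg _
      have h3 : ‖Ntr l (k - 1) (P f)‖ ^ 2 ≤ (1 + η) * a ^ 2 + 2 * η * s ^ 2 := by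
        calc ‖Ntr l (k - 1) (P f)‖ ^ 2 ≤ (a + η * s) ^ 2 :=
              pow_le_pow_left₀ (norm_nonneg _) hn 2
          _ ≤ _ := sq_split hη0.le hη1
      have e1 : F1 f = ‖Z f‖ ^ 2 * a ^ 2 := by
        simp only [hF1, pow_one, norm_mul, mul_pow, hZ, ha]
      have e2 : F2 f = ‖Z f‖ ^ 2 * s ^ 2 := by
        simp only [hF2, pow_one, hZ, hs]
      rw [e1, e2]
      calc ‖Z f‖ ^ 2 * ‖Ntr l (k - 1) (P f)‖ ^ 2 ≤ ‖Z f‖ ^ 2 * ((1 + η) * a ^ 2 + 2 * η * s ^ 2) := by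
            gcongr
        _ = _ := by ring
  have e3 : ES S (fun f => (1 + η) * F1 f + (2 * η) * F2 f) =
      (1 + η) * ES S F1 + (2 * η) * ES S F2 := by
    rw [ES_add b1' b2', ES_const_mul, ES_const_mul]
  rw [e3] at step
  refine step.trans ?_
  set Y := ∑ p ∈ S, yp w₁.re w₂ p ^ 2 with hY
  have hY0 : 0 ≤ Y := Finset.sum_nonneg fun p _ => by positivity
  set E := ∑ p ∈ S, (‖(p : ℂ) ^ (-w₁) + ((k - 1 : ℝ) : ℂ) * ((p : ℝ) ^ (-w₂) : ℝ)‖ ^ 2 +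
        (C1 + C2) * (yp w₁.re w₂ p) ^ 4) with hE
  have hE0 : 0 ≤ E := Finset.sum_nonneg fun p _ => by positivity
  have g1' : ES S F1 ≤ Real.exp E := by
    refine g1.trans (Real.exp_le_exp.2 ?_)
    rw [hE]
    refine Finset.sum_le_sum fun p _ => ?_
    push_cast
    rw [one_mul]
    gcongr
    linarith
  have g2' : ES S F2 ≤ 16 * Real.exp ((C1 + C2) * Y) := by
    refine g2.trans ?_
    gcongr
    linarith
  have hexpE : 1 ≤ Real.exp E := Real.one_le_exp hE0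
  have hexpY : 1 ≤ Real.exp ((C1 + C2) * Y) := Real.one_le_exp (by positivity)
  rw [Real.exp_add, ← hη]
  calc (1 + η) * ES S F1 + 2 * η * ES S F2
      ≤ (1 + η) * Real.exp E + 2 * η * (16 * Real.exp ((C1 + C2) * Y)) := by gcongr
    _ ≤ Real.exp E * (33 * (η * Real.exp ((C1 + C2) * Y)) + 1) := fin_good hη0.le hexpE hexpY
    _ ≤ _ := by
        gcongr
        exact Real.add_one_le_exp _

lemma coreR : ∃ C : ℝ, 0 < C ∧ ∀ c₁ : ℝ, 0 < c₁ → ∃ M₀ : ℕ, 1 ≤ M₀ ∧ ∀ M : ℕ, M₀ ≤ M →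
    ∃ T₀ : ℝ, 3 ≤ T₀ ∧ ∀ T, T₀ ≤ T → ∀ k : ℝ, 0 ≤ k → k ≤ 2 →
    ∀ g h : Finset ℕ, g ∪ h = Finset.range (JJ T + 1) → ∀ (z : ℂ) (a₂ c : ℝ), 0 ≤ c → 0 ≤ z.re →
    -c₁ ≤ a₂ → a₂ ≤ c →
    ER (SB T M (JJ T)) (fun f =>
        ‖ZZ (UU (SB T M (JJ T))) (tw ((1 / 2 : ℂ) + z / Real.log T) f)‖ ^ 2 *
        ‖AA T M (JJ T) (k - 1) g h (tw ((1 / 2 + a₂ / Real.log T : ℝ) : ℂ) f)‖ ^ 2) ≤
      Real.exp (C * M) * (1 + ‖z‖) ^ 18 * (1 + c) ^ 18 * (Real.log T) ^ (k ^ 2) *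
        ∏ j ∈ h, ss M (JJ T) j := by
  obtain ⟨Cg, hCg, good⟩ := good_blockR
  obtain ⟨Cb, hCb, bad⟩ := bad_block
  obtain ⟨Ct, hCt, top⟩ := top_block
  obtain ⟨Cm, hCm, hmin⟩ := sum_min
  obtain ⟨Cs, hCs, hS0⟩ := sum_inv_S0
  obtain ⟨Cr, hCr, hrange⟩ := sum_inv_block
  obtain ⟨C1, hC1, hlogdiv⟩ := sum_log_div_le
  obtain ⟨C3, hC3, hinv⟩ := sum_inv
  set C := 4 * C3 + 36 * Cm + 20 + 8 * Cg + 165 * Real.exp (4 * Cg) + 2 * Ct with hC
  refine ⟨C, by positivity, fun c₁ hc₁ => ?_⟩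
  refine ⟨⌈40 * c₁ + 100 + 80 * Cb⌉₊ + 1, by omega, fun M hM => ?_⟩
  have hMr : 40 * c₁ + 100 + 80 * Cb ≤ M := by
    have h1 := Nat.le_ceil (40 * c₁ + 100 + 80 * Cb)
    have h2 : (⌈40 * c₁ + 100 + 80 * Cb⌉₊ : ℝ) ≤ M := by exact_mod_cast (by omega :
      ⌈40 * c₁ + 100 + 80 * Cb⌉₊ ≤ M)
    linarith
  have hM1 : 1 ≤ M := by omega
  have hM1' : (1 : ℝ) ≤ M := by exact_mod_cast hM1
  set D := Cr + 10 * (6 + 2 * (Cb + Cg) * (1 + Cs)) with hD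
  obtain ⟨T₀, hT₀, hev⟩ := eventually_T M (c₁ * 20) D (c₁ * C1)
  refine ⟨T₀, hT₀, fun T hT k hk0 hk1 g h hgh z a₂ c hc hz ha2 ha2c => ?_⟩
  obtain ⟨hb1, hLc, hbet, hK0, hLc₁⟩ := hev T hT
  have hT3 : 3 ≤ T := hT₀.trans hT
  have hT1 : 1 < T := by linarith
  have hT0 : 0 < T := by linarith
  have hL : 0 < Real.log T := Real.log_pos hT1
  set J := JJ T with hJ
  set L := Real.log T with hLdef
  set b := Real.log L with hb
  have hα : |k - 1| ≤ 1 := by rw [abs_le]; constructor <;> linarith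
  have hDC : Cr ≤ D := by
    have : 0 ≤ 10 * (6 + 2 * (Cb + Cg) * (1 + Cs)) := by positivity
    linarith
  obtain ⟨hj, htop⟩ := hrange T hT3 M J (hDC.trans hbet)
  have hcM : c₁ * Real.exp (-(M : ℝ)) ≤ 1 / 40 := by
    rw [Real.exp_neg, ← div_eq_mul_inv, div_le_iff₀ (Real.exp_pos _)]
    have := Real.add_one_le_exp (M : ℝ)
    linarith
  have hbJ : bet M J J = Real.exp (-(M : ℝ)) := by
    rw [bet]; congr 1; ring
  -- the primes of the lower blocks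
  have hθ : ∀ j, j ≤ J → ∀ p ∈ Sj T M J j, c₁ * (Real.log p / L) ≤ 1 / 40 := by
    intro j hj p hp
    have hp' := (mem_Sj hT1).1 hp
    have hp1 : (0 : ℝ) < p := by exact_mod_cast hp'.1.pos
    have h1 : Real.log p ≤ bet M J J * L := by
      rw [← log_yy (le_refl J)]
      exact Real.log_le_log hp1 (hp'.2.2.trans (yy_mono hT1 M J (by omega)))
    have h2 : Real.log p / L ≤ bet M J J := by
      rw [div_le_iff₀ hL]; exact h1
    rw [hbJ] at h2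
    calc c₁ * (Real.log p / L) ≤ c₁ * Real.exp (-(M : ℝ)) := by gcongr
      _ ≤ _ := hcM
  have hre : ((1 / 2 : ℂ) + z / (L : ℂ)).re = 1 / 2 + z.re / L := by
    rw [add_re, div_ofReal_re]; norm_num
  have hyp : ∀ j, j ≤ J → ∀ p ∈ Sj T M J j,
      yp ((1 / 2 : ℂ) + z / (L : ℂ)).re (1 / 2 + a₂ / L) p ≤ 3 / 4 ∧
      yp ((1 / 2 : ℂ) + z / (L : ℂ)).re (1 / 2 + a₂ / L) p ^ 2 ≤ 2 * (1 / p) ∧
      yp ((1 / 2 : ℂ) + z / (L : ℂ)).re (1 / 2 + a₂ / L) p ^ 4 ≤ 4 * ((p : ℝ) ^ 2)⁻¹ := by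
    intro j hj p hp
    rw [hre]
    exact yp_le (prime_Sj hT1 hp) hL hz ha2 hc₁.le (by have := hθ j hj p hp; linarith)
  set w₁ : ℂ := (1 / 2 : ℂ) + z / (L : ℂ) with hw₁
  set w₂ : ℝ := 1 / 2 + a₂ / L with hw₂
  have hw₁re : 1 / 2 ≤ w₁.re := by
    rw [hre]
    have : 0 ≤ z.re / L := by positivity
    linarith
  set Y : ℕ → ℝ := fun j => ∑ p ∈ Sj T M J j, yp w₁.re w₂ p ^ 2 with hY
  have hY0 : Y 0 ≤ 2 * (b + Cs) := by
    calc Y 0 ≤ ∑ p ∈ Sj T M J 0, 2 * (1 / (p : ℝ)) :=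
          Finset.sum_le_sum fun p hp => (hyp 0 (Nat.zero_le _) p hp).2.1
      _ = 2 * ∑ p ∈ Sj T M J 0, 1 / (p : ℝ) := by rw [Finset.mul_sum]
      _ ≤ _ := by
          have := hS0 T hT3 M J
          gcongr
  have hYj : ∀ j, 1 ≤ j → j ≤ J → Y j ≤ 4 := by
    intro j h1 h2
    calc Y j ≤ ∑ p ∈ Sj T M J j, 2 * (1 / (p : ℝ)) :=
          Finset.sum_le_sum fun p hp => (hyp j h2 p hp).2.1
      _ = 2 * ∑ p ∈ Sj T M J j, 1 / (p : ℝ) := by rw [Finset.mul_sum]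
      _ ≤ 2 * 2 := by
          have := hj j h1 h2
          gcongr
      _ = 4 := by norm_num
  have hKge : ∀ j, j ≤ J → 10 * (6 + Cb * 4) ≤ KK M J j := by
    intro j hjJ
    have h1 := Real.add_one_le_exp (3 / 4 * ((M : ℝ) + J - j))
    have h2 : (j : ℝ) ≤ J := by exact_mod_cast hjJ
    unfold KK
    linarith
  have hK0' : 10 * (6 + 2 * (Cb + Cg) * (b + Cs)) ≤ KK M J 0 := by
    refine le_trans ?_ hK0
    have h1 : 0 ≤ Cb + Cg := by positivity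
    have h2 : 10 * (6 + 2 * (Cb + Cg) * (b + Cs)) ≤
        10 * (6 + 2 * (Cb + Cg) * (1 + Cs)) * (b + 1) := aux_K (by linarith) hCs.le h1
    have h5 : 10 * (6 + 2 * (Cb + Cg) * (1 + Cs)) * (b + 1) ≤ D * (b + 1) := by
      gcongr
      linarith
    exact h2.trans h5
  -- bad blocks
  have hbad : ∀ j, j ≤ J → 6 + Cb * Y j ≤ KK M J j / 10 := by
    intro j hjJ
    rcases Nat.eq_zero_or_pos j with rfl | hpos
    · have h1 : Cb * Y 0 ≤ Cb * (2 * (b + Cs)) := by gcongr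
      have h2 : 0 ≤ Cg * (b + Cs) := by positivity
      linarith
    · have h1 : Cb * Y j ≤ Cb * 4 := by
        have := hYj j hpos hjJ
        gcongr
      have h2 := hKge j hjJ
      linarith
  have hgood : ∀ j, j ≤ J → Real.exp (-(ll M J j : ℝ) + Cg * Y j) ≤
      Real.exp (4 * Cg) * Real.exp (-KK M J j) := by
    intro j hjJ
    rw [← Real.exp_add]
    apply Real.exp_le_exp.2
    have hKpos := Len.KK_ge_one (M := M) hjJ
    have hl : 10 * KK M J j ≤ ll M J j := Nat.le_ceil _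
    rcases Nat.eq_zero_or_pos j with rfl | hpos
    · have h1 : Cg * Y 0 ≤ Cg * (2 * (b + Cs)) := by gcongr
      have h2 : 0 ≤ Cb * (b + Cs) := by positivity
      linarith
    · have h1 : Cg * Y j ≤ Cg * 4 := by
        have := hYj j hpos hjJ
        gcongr
      linarith
  have hh : h ⊆ Finset.range (J + 1) := by
    rw [← hgh]; exact Finset.subset_union_right
  -- the exponents
  set Ex : ℕ → ℝ := fun j => ∑ p ∈ Sj T M J j,
    (‖(p : ℂ) ^ (-w₁) + ((k - 1 : ℝ) : ℂ) * ((p : ℝ) ^ (-w₂) : ℝ)‖ ^ 2 +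
        Cg * (yp w₁.re w₂ p) ^ 4) with hEx
  set F : ℕ → ℝ := fun p => k ^ 2 * (1 / p) + 18 * (1 / p * min 1 ((1 + ‖z‖) * (Real.log p / L))) +
    18 * (1 / p * min 1 ((1 + c) * (Real.log p / L))) + 18 * (c₁ / L) * (Real.log p / p) +
    4 * Cg * ((p : ℝ) ^ 2)⁻¹ with hF
  have hθ0 : ∀ p : ℕ, 0 ≤ Real.log p / L := fun p =>
    div_nonneg (Real.log_natCast_nonneg p) hL.le
  have hF0 : ∀ p, 0 ≤ F p := by
    intro p
    have h1 := hθ0 p
    have h2 := Real.log_natCast_nonneg p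
    have h3 : 0 ≤ min 1 ((1 + ‖z‖) * (Real.log p / L)) := le_min zero_le_one (by positivity)
    have h4 : 0 ≤ min 1 ((1 + c) * (Real.log p / L)) := le_min zero_le_one (by positivity)
    simp only [hF]
    positivity
  have hExF : ∀ j, j ≤ J → Ex j ≤ ∑ p ∈ Sj T M J j, F p := by
    intro j hjJ
    refine Finset.sum_le_sum fun p hp => ?_
    have hpp := prime_Sj hT1 hp
    have hp0 : (0 : ℝ) < p := by exact_mod_cast hpp.pos
    have h4 := (hyp j hjJ p hp).2.2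
    have h5 := hθ j hjJ p hp
    rw [hw₁, hw₂, norm_form hpp.pos]
    have h6 := expoR_le (z := z) (a₂ := a₂) hk0 hk1 (hθ0 p) hz ha2 ha2c hc₁.le hc (by linarith)
    have h7 : min 1 (‖z‖ * (Real.log p / L)) ≤ min 1 ((1 + ‖z‖) * (Real.log p / L)) := by
      have := hθ0 p
      gcongr
      linarith
    have h8 : min 1 (c * (Real.log p / L)) ≤ min 1 ((1 + c) * (Real.log p / L)) := by
      have := hθ0 p
      gcongr
      linarith
    have h9 : Cg * yp w₁.re w₂ p ^ 4 ≤ Cg * (4 * ((p : ℝ) ^ 2)⁻¹) := by gcongr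
    calc _ ≤ 1 / p * (k ^ 2 + 18 * min 1 ((1 + ‖z‖) * (Real.log p / L)) +
          18 * min 1 ((1 + c) * (Real.log p / L)) + 18 * (c₁ * (Real.log p / L))) +
          Cg * (4 * ((p : ℝ) ^ 2)⁻¹) := by
          gcongr
          linarith
      _ = F p := by simp only [hF]; ring
  have hsum : ∑ j ∈ Finset.range (J + 1) \ h, Ex j ≤ k ^ 2 * b + (18 * Real.log (1 + ‖z‖) +
      18 * Real.log (1 + c) + (4 * C3 + 36 * Cm + 20 + 8 * Cg)) := by
    have h1 : ∑ j ∈ Finset.range (J + 1) \ h, Ex j ≤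
        ∑ j ∈ Finset.range (J + 1) \ h, ∑ p ∈ Sj T M J j, F p := by
      refine Finset.sum_le_sum fun j hj => hExF j ?_
      have := Finset.mem_range.1 (Finset.mem_sdiff.1 hj).1
      omega
    have h2 := sum_blocks_le hT1 M J (Finset.sdiff_subset (s := Finset.range (J + 1)) (t := h))
      F hF0
    refine h1.trans (h2.trans ?_)
    have hyy : Real.log (yy T M J (J + 1)) = Real.exp (-(M : ℝ)) * L := by
      rw [log_yy (le_refl J), hbJ]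
    have hyy1 : 1 ≤ yy T M J (J + 1) := by
      rw [Len.yy_succ (le_refl J)]
      exact Real.one_le_exp (mul_nonneg (bet_pos _ _ _).le hL.le)
    have hyyT : yy T M J (J + 1) ≤ T := yy_le hT1 M J (by omega)
    have hsub : PS 0 (yy T M J (J + 1)) ⊆ PS 0 T := PS_mono (by linarith) hyyT
    have s1 : ∑ p ∈ PS 0 (yy T M J (J + 1)), (1 : ℝ) / p ≤ b + C3 := by
      have h3 := (abs_le.1 (hinv T (by linarith))).2
      have h4 := Finset.sum_le_sum_of_subset_of_nonneg hsub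
        (f := fun p : ℕ => (1 : ℝ) / p) (fun _ _ _ => by positivity)
      linarith
    have s2 : ∀ Λ : ℝ, 1 ≤ Λ → ∑ p ∈ PS 0 (yy T M J (J + 1)),
        1 / (p : ℝ) * min 1 (Λ * (Real.log p / L)) ≤ Real.log Λ + Cm := by
      intro Λ hΛ
      refine le_trans ?_ (hmin T hT3 Λ hΛ)
      apply Finset.sum_le_sum_of_subset_of_nonneg hsub
      intro p _ _
      have h5 := hθ0 p
      have h3 : 0 ≤ min 1 (Λ * (Real.log p / L)) := le_min zero_le_one (by positivity)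
      positivity
    have s3 : ∑ p ∈ PS 0 (yy T M J (J + 1)), Real.log p / (p : ℝ) ≤
        Real.exp (-(M : ℝ)) * L + C1 := by
      have := hlogdiv _ hyy1
      rwa [hyy] at this
    have s4 : ∑ p ∈ PS 0 (yy T M J (J + 1)), ((p : ℝ) ^ 2)⁻¹ ≤ 2 :=
      sum_inv_sq fun p hp => prime_PS hp
    have t2 := s2 (1 + ‖z‖) (by linarith [norm_nonneg z])
    have t3 := s2 (1 + c) (by linarith)
    have e : ∑ p ∈ PS 0 (yy T M J (J + 1)), F p =
        k ^ 2 * ∑ p ∈ PS 0 (yy T M J (J + 1)), (1 : ℝ) / p +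
        18 * ∑ p ∈ PS 0 (yy T M J (J + 1)), 1 / (p : ℝ) * min 1 ((1 + ‖z‖) * (Real.log p / L)) +
        18 * ∑ p ∈ PS 0 (yy T M J (J + 1)), 1 / (p : ℝ) * min 1 ((1 + c) * (Real.log p / L)) +
        18 * (c₁ / L) * ∑ p ∈ PS 0 (yy T M J (J + 1)), Real.log p / (p : ℝ) +
        4 * Cg * ∑ p ∈ PS 0 (yy T M J (J + 1)), ((p : ℝ) ^ 2)⁻¹ := by
      simp only [hF, Finset.sum_add_distrib, ← Finset.mul_sum]
    rw [e]
    have hk2 : k ^ 2 ≤ 2 ^ 2 := pow_le_pow_left₀ hk0 hk1 2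
    have u1 : k ^ 2 * ∑ p ∈ PS 0 (yy T M J (J + 1)), (1 : ℝ) / p ≤ k ^ 2 * b + 4 * C3 := by
      calc _ ≤ k ^ 2 * (b + C3) := by gcongr
        _ ≤ k ^ 2 * b + 2 ^ 2 * C3 := by
            rw [mul_add]; gcongr
        _ = _ := by ring
    have u4 : 18 * (c₁ / L) * ∑ p ∈ PS 0 (yy T M J (J + 1)), Real.log p / (p : ℝ) ≤ 20 := by
      calc _ ≤ 18 * (c₁ / L) * (Real.exp (-(M : ℝ)) * L + C1) := by gcongr
        _ = 18 * (c₁ * Real.exp (-(M : ℝ))) + 18 * ((c₁ * C1) / L) := by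
            field_simp
        _ ≤ 18 * (1 / 40) + 18 * 1 := by
            gcongr
            rw [div_le_one hL]
            exact hLc
        _ ≤ 20 := by norm_num
    have u5 : 4 * Cg * ∑ p ∈ PS 0 (yy T M J (J + 1)), ((p : ℝ) ^ 2)⁻¹ ≤ 8 * Cg := by
      calc _ ≤ 4 * Cg * 2 := by gcongr
        _ = _ := by ring
    linarith
  -- assembling
  rw [ER_factor hT1]
  set P := ∏ j ∈ h, ss M J j with hP
  have hP0 : 0 ≤ P := Finset.prod_nonneg fun j _ => (Real.exp_pos _).le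
  have hprod : ∏ j ∈ Finset.range (J + 1), ES (Sj T M J j) (fun f => ‖ZZ (Sj T M J j) (tw w₁ f)‖ ^ 2 *
      ‖Fc T M J (k - 1) g h j (tw (w₂ : ℂ) f)‖ ^ 2) ≤ P * Real.exp (∑ j ∈ Finset.range (J + 1) \ h,
        (Ex j + 33 * (Real.exp (4 * Cg) * Real.exp (-KK M J j)))) := by
    rw [← Finset.prod_sdiff hh, mul_comm P, Real.exp_sum]
    have hnn : ∀ j, 0 ≤ ES (Sj T M J j) (fun f => ‖ZZ (Sj T M J j) (tw w₁ f)‖ ^ 2 *
      ‖Fc T M J (k - 1) g h j (tw (w₂ : ℂ) f)‖ ^ 2) :=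
      fun j => integral_nonneg fun ω => by positivity
    refine mul_le_mul ?_ ?_ (Finset.prod_nonneg fun j _ => hnn j)
      (Finset.prod_nonneg fun j _ => (Real.exp_pos _).le)
    · refine Finset.prod_le_prod (fun j _ => hnn j) fun j hj => ?_
      obtain ⟨hj1, hj2⟩ := Finset.mem_sdiff.1 hj
      have hjJ : j ≤ J := by
        have := Finset.mem_range.1 hj1
        omega
      have hjg : j ∈ g := by
        rw [← hgh, Finset.mem_union] at hj1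
        tauto
      have h1 := good M (ll M J j) (Sj T M J j) w₁ w₂ k hM1 (by linarith) hk0 hk1
        (fun p hp => prime_Sj hT1 hp) (fun p hp => (hyp j hjJ p hp).1)
      have e1 : (fun f : ℕ → ℂ => ‖ZZ (Sj T M J j) (tw w₁ f)‖ ^ 2 *
          ‖Fc T M J (k - 1) g h j (tw (w₂ : ℂ) f)‖ ^ 2) = fun f : ℕ → ℂ =>
          ‖ZZ (Sj T M J j) (tw w₁ f)‖ ^ 2 *
          ‖Ntr (ll M J j) (k - 1) (Pj M (Sj T M J j) (tw (w₂ : ℂ) f))‖ ^ 2 := by
        funext f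
        rw [Fc_good hjg hj2]
      rw [e1]
      refine h1.trans ?_
      rw [← Real.exp_add]
      apply Real.exp_le_exp.2
      have h2 := hgood j hjJ
      simp only [hEx]
      gcongr
    · refine Finset.prod_le_prod (fun j _ => hnn j) fun j hj => ?_
      have hjJ : j ≤ J := by
        have := Finset.mem_range.1 (hh hj)
        omega
      have h1 := bad M (rr M J j) (Sj T M J j) w₁ w₂ (fun f => Fc T M J (k - 1) g h j (tw (w₂ : ℂ) f))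
        hM1 (by linarith) (fun p hp => prime_Sj hT1 hp) (fun p hp => (hyp j hjJ p hp).1)
        (fun f => Fc_bad hα hjJ hj _)
      exact h1.trans (bad_num (hbad j hjJ))
  have htop' := (top (Sj T M J (J + 1)) w₁ hw₁re (fun p hp => prime_Sj hT1 hp)).trans
    (Real.exp_le_exp.2 (mul_le_mul_of_nonneg_left htop hCt))
  have hsumK : ∑ j ∈ Finset.range (J + 1) \ h, Real.exp (-KK M J j) ≤ 5 :=
    (Finset.sum_le_sum_of_subset_of_nonneg Finset.sdiff_subset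
      (fun _ _ _ => (Real.exp_pos _).le)).trans (XB.sum_exp_KK M J)
  have hexp : ∑ j ∈ Finset.range (J + 1) \ h,
        (Ex j + 33 * (Real.exp (4 * Cg) * Real.exp (-KK M J j))) ≤
      k ^ 2 * b + (18 * Real.log (1 + ‖z‖) + 18 * Real.log (1 + c) +
        (4 * C3 + 36 * Cm + 20 + 8 * Cg)) + 165 * Real.exp (4 * Cg) := by
    rw [Finset.sum_add_distrib]
    have h1 : ∑ j ∈ Finset.range (J + 1) \ h, 33 * (Real.exp (4 * Cg) * Real.exp (-KK M J j)) ≤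
        165 * Real.exp (4 * Cg) := by
      rw [← Finset.mul_sum, ← Finset.mul_sum]
      calc 33 * (Real.exp (4 * Cg) * ∑ j ∈ Finset.range (J + 1) \ h, Real.exp (-KK M J j))
          ≤ 33 * (Real.exp (4 * Cg) * 5) := by gcongr
        _ = _ := by ring
    linarith
  have hA := hprod.trans (mul_le_mul_of_nonneg_left (Real.exp_le_exp.2 (hexp.trans
    (show k ^ 2 * b + (18 * Real.log (1 + ‖z‖) + 18 * Real.log (1 + c) +
        (4 * C3 + 36 * Cm + 20 + 8 * Cg)) + 165 * Real.exp (4 * Cg) ≤ k ^ 2 * b +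
        (((18 : ℕ) : ℝ) * Real.log (1 + ‖z‖) + ((18 : ℕ) : ℝ) * Real.log (1 + c) +
        (4 * C3 + 36 * Cm + 20 + 8 * Cg + 165 * Real.exp (4 * Cg))) by push_cast; linarith))) hP0)
  exact fin_exp 18 hP0 hL hb (norm_nonneg z) hc hM1' hCt (by positivity) hA htop'
    (integral_nonneg fun ω => by positivity)

end CrudeR

open CrudeR in
/-- Random second moment with the smoothed sum of zeta. -/
theorem xboundR : ∃ C₀ : ℝ, 0 < C₀ ∧ ∀ c₁ : ℝ, 0 < c₁ → ∃ M₀ : ℕ, ∀ M : ℕ, M₀ ≤ M → ∀ c : ℝ, 0 ≤ c →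
    ∃ T₀ : ℝ, 3 ≤ T₀ ∧ ∀ T, T₀ ≤ T → ∀ k : ℝ, 0 ≤ k → k ≤ 2 → ∀ g h : Finset ℕ,
    g ∪ h = Finset.range (JJ T + 1) → ∀ a₁ a₂ : ℝ, 0 ≤ a₁ → a₁ ≤ c → -c₁ ≤ a₂ → a₂ ≤ c →
    ER (SB T M (JJ T)) (fun f => ‖SS T (tw ((1 / 2 + a₁ / Real.log T : ℝ) : ℂ) f)‖ ^ 2 *
        ‖AA T M (JJ T) (k - 1) g h (tw ((1 / 2 + a₂ / Real.log T : ℝ) : ℂ) f)‖ ^ 2) ≤
      Real.exp (C₀ * M) * (1 + c) ^ C₀ * (Real.log T) ^ (k ^ 2) * ∏ j ∈ h, ss M (JJ T) j := by
  obtain ⟨C, hC, core⟩ := coreR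
  obtain ⟨q, hq0, hqint, hfb⟩ := fourier_bound
  set I₀ := ∫ ξ : ℝ, q ξ * (1 + |ξ|) ^ 18 with hI₀
  have hI₀0 : 0 ≤ I₀ := integral_nonneg fun ξ => mul_nonneg (hq0 ξ) (by positivity)
  refine ⟨C + 36 + I₀, by positivity, fun c₁ hc₁ => ?_⟩
  obtain ⟨M₀, hM₀1, core⟩ := core c₁ hc₁
  refine ⟨M₀, fun M hM c hc => ?_⟩
  obtain ⟨T₀, hT₀3, core⟩ := core M hM
  obtain ⟨T₁, hT₁3, hev⟩ := XB.eventually_T M (2 * c₁) 0 0
  refine ⟨max T₀ T₁, hT₀3.trans (le_max_left _ _), ?_⟩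
  intro T hT k hk0 hk1 g h hgh a₁ a₂ ha1 ha1c ha2 ha2c
  have hTT₀ : T₀ ≤ T := (le_max_left _ _).trans hT
  obtain ⟨_, _, _, _, hLc⟩ := hev T ((le_max_right _ _).trans hT)
  have hT1 : 1 < T := by linarith
  have hL : 0 < Real.log T := Real.log_pos hT1
  have hM1 : 1 ≤ M := hM₀1.trans hM
  have hM1' : (1 : ℝ) ≤ M := by exact_mod_cast hM1
  have hα : |k - 1| ≤ 1 := by rw [abs_le]; constructor <;> linarith
  have core := core T hTT₀ k hk0 hk1 g h hgh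
  set L := Real.log T with hLdef
  set J := JJ T with hJ
  have hw₂ : 0 ≤ 1 / 2 + a₂ / L := by
    have : -(1 / 2) ≤ a₂ / L := by
      rw [le_div_iff₀ hL]; linarith
    linarith
  have hw : 0 < 1 / 2 + a₁ / L := by
    have : 0 ≤ a₁ / L := by positivity
    linarith
  set B : (ℕ → ℂ) → ℂ := fun f => AA T M J (k - 1) g h (tw ((1 / 2 + a₂ / L : ℝ) : ℂ) f) with hB
  have hBC : BC (SB T M J) B := by
    have h1 := dp_prod (Finset.range (J + 1)) (fun j hj => Len.dp_Fc (M := M) (J := J) hT1 hM1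
      (show j ≤ J by rw [Finset.mem_range] at hj; omega) hα g h)
    have h2 := h1.twist (w := ((1 / 2 + a₂ / L : ℝ) : ℂ)) (by rw [ofReal_re]; exact hw₂)
    exact h2.eval_XX
  obtain ⟨hf1, hf2⟩ := hfb (J + 2) (SB T M J) (blk_SB hT1 M J) T hT1
    (fun n h1 h2 => mem_factored hT1 M J h1 h2) (1 / 2 + a₁ / L) hw B hBC
  set P := ∏ j ∈ h, ss M J j with hP
  have hP0 : 0 ≤ P := Finset.prod_nonneg fun j _ => (Real.exp_pos _).le
  have hLk : 0 ≤ L ^ (k ^ 2) := Real.rpow_nonneg hL.le _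
  set R := Real.exp (C * M) * 7 ^ 18 * (1 + c) ^ 36 * L ^ (k ^ 2) * P with hR
  have hpt : ∀ ξ : ℝ, q ξ * ER (SB T M J) (fun f =>
        ‖ZZ (UU (SB T M J)) (tw (((1 / 2 + a₁ / L : ℝ) : ℂ) + (1 - 2 * Real.pi * ξ * I) / L) f)‖ ^ 2 *
          ‖B f‖ ^ 2) ≤ q ξ * (1 + |ξ|) ^ 18 * R := by
    intro ξ
    rw [mul_assoc (q ξ) ((1 + |ξ|) ^ 18) R]
    apply mul_le_mul_of_nonneg_left _ (hq0 ξ)
    set z : ℂ := ((a₁ : ℝ) : ℂ) + (1 - 2 * Real.pi * ξ * I) with hz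
    have hzre : z.re = a₁ + 1 := by
      rw [hz]; simp
    have e1 : (((1 / 2 + a₁ / L : ℝ) : ℂ) + (1 - 2 * Real.pi * ξ * I) / L) =
        (1 / 2 : ℂ) + z / (L : ℂ) := by
      rw [hz]; push_cast; ring
    have hzn : 1 + ‖z‖ ≤ 7 * ((1 + c) * (1 + |ξ|)) := by
      have h1 : ‖z‖ ≤ a₁ + (1 + 2 * Real.pi * |ξ|) := by
        rw [hz]
        refine (norm_add_le _ _).trans ?_
        rw [norm_real, Real.norm_eq_abs, abs_of_nonneg ha1]
        gcongr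
        refine (norm_sub_le _ _).trans ?_
        rw [norm_one, norm_mul, norm_I, mul_one, norm_mul, norm_real, norm_mul, norm_real]
        simp [abs_of_pos Real.pi_pos]
      have h2 := Real.pi_lt_d2
      have h3 : 0 ≤ |ξ| := abs_nonneg ξ
      have h4 : 2 * Real.pi * |ξ| ≤ 6.3 * |ξ| := by
        gcongr; linarith
      nlinarith [mul_nonneg hc h3]
    have h5 := core z a₂ c hc (by rw [hzre]; linarith) ha2 ha2c
    rw [e1]
    refine h5.trans ?_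
    have h6 : (1 + ‖z‖) ^ 18 ≤ 7 ^ 18 * (1 + c) ^ 18 * (1 + |ξ|) ^ 18 := by
      calc (1 + ‖z‖) ^ 18 ≤ (7 * ((1 + c) * (1 + |ξ|))) ^ 18 :=
            pow_le_pow_left₀ (by positivity) hzn 18
        _ = _ := by rw [mul_pow, mul_pow, mul_assoc]
    calc Real.exp (C * M) * (1 + ‖z‖) ^ 18 * (1 + c) ^ 18 * L ^ (k ^ 2) * P
        ≤ Real.exp (C * M) * (7 ^ 18 * (1 + c) ^ 18 * (1 + |ξ|) ^ 18) * (1 + c) ^ 18 *
          L ^ (k ^ 2) * P := by gcongr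
      _ = _ := by rw [hR]; ring
  refine hf1.trans ?_
  have h7 : ∫ ξ : ℝ, q ξ * ER (SB T M J) (fun f =>
        ‖ZZ (UU (SB T M J)) (tw (((1 / 2 + a₁ / L : ℝ) : ℂ) + (1 - 2 * Real.pi * ξ * I) / L) f)‖ ^ 2 *
          ‖B f‖ ^ 2) ≤ ∫ ξ : ℝ, q ξ * (1 + |ξ|) ^ 18 * R :=
    integral_mono hf2 ((hqint 18).mul_const R) hpt
  refine h7.trans ?_
  rw [integral_mul_const, ← hI₀, hR]
  have h8 : I₀ * (7 : ℝ) ^ 18 ≤ Real.exp ((36 + I₀) * M) := by
    have h9 : (7 : ℝ) ≤ Real.exp 2 := by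
      have := Real.exp_one_gt_d9
      have e2 : Real.exp 2 = Real.exp 1 * Real.exp 1 := by rw [← Real.exp_add]; norm_num
      rw [e2]; nlinarith
    have h10 : (7 : ℝ) ^ 18 ≤ Real.exp 36 := by
      calc (7 : ℝ) ^ 18 ≤ Real.exp 2 ^ 18 := pow_le_pow_left₀ (by norm_num) h9 18
        _ = Real.exp 36 := by rw [← Real.exp_nat_mul]; norm_num
    have h11 : I₀ ≤ Real.exp I₀ := by linarith [Real.add_one_le_exp I₀]
    calc I₀ * (7 : ℝ) ^ 18 ≤ Real.exp I₀ * Real.exp 36 := by gcongr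
      _ = Real.exp (36 + I₀) := by rw [← Real.exp_add, add_comm]
      _ ≤ _ := by
          apply Real.exp_le_exp.2
          exact le_mul_of_one_le_right (by positivity) hM1'
  have h12 : (1 + c) ^ 36 ≤ (1 + c) ^ (C + 36 + I₀) := by
    rw [← Real.rpow_natCast]
    apply Real.rpow_le_rpow_of_exponent_le (by linarith)
    push_cast
    linarith
  calc I₀ * (Real.exp (C * M) * 7 ^ 18 * (1 + c) ^ 36 * L ^ (k ^ 2) * P)
      = Real.exp (C * M) * (I₀ * 7 ^ 18) * (1 + c) ^ 36 * L ^ (k ^ 2) * P := by ring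
    _ ≤ Real.exp (C * M) * Real.exp ((36 + I₀) * M) * (1 + c) ^ (C + 36 + I₀) * L ^ (k ^ 2) * P := by
        gcongr
    _ = _ := by
        rw [← Real.exp_add]
        congr 4
        ring

open CrudeR Crude IngM in
/-- The crude bound for all `0 ≤ k ≤ 2`. -/
theorem crude2 : ∃ C κ : ℝ, 0 < C ∧ 0 < κ ∧ ∃ M₀ : ℕ, ∀ M : ℕ, M₀ ≤ M → ∃ T₀ : ℝ, 3 ≤ T₀ ∧
    ∀ T, T₀ ≤ T → ∀ τ : ℝ, |τ| ≤ 2 * T → ∀ k : ℝ, 0 ≤ k → k ≤ 2 → ∀ g h : Finset ℕ,
    g ∪ h = Finset.range (JJ T + 1) →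
    EG T τ (fun t => ‖riemannZeta (1 / 2 + t * I)‖ ^ 2 *
      ‖AA T M (JJ T) (k - 1) g h (fs (1 / 2 + t * I))‖ ^ 2) ≤
      Real.exp (C * M) * (Real.log T) ^ (k ^ 2) * ∏ j ∈ h, ss M (JJ T) j + T ^ (-κ) := by
  obtain ⟨C₀, hC₀, hX⟩ := xboundR
  obtain ⟨c₁, Ct, κt, hc₁, hCt, hκt, htsm⟩ := tsm
  obtain ⟨M₁, hM₁⟩ := hX c₁ hc₁
  obtain ⟨M₂, hM₂⟩ := dp_AA
  set κ : ℝ := min κt 1 / 2 with hκ
  have hκ0 : 0 < κ := by have := lt_min hκt one_pos; positivity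
  have hκ1 : 2 * κ ≤ κt := by have := min_le_left κt 1; linarith
  have hκ2 : 2 * κ ≤ 1 := by have := min_le_right κt 1; linarith
  set K1 : ℝ := (2 + 98 * Ct) * (1 + c₁) ^ C₀ with hK1
  have hK10 : 0 < K1 := by positivity
  obtain ⟨T₅, hT₅3, hT₅⟩ := htsm 0 le_rfl
  obtain ⟨T₆, hT₆⟩ := eventually_atTop.mp (small_T (Ct := Ct) (κt := κt) (ε := 1) (κ := κ)
    (c := 0) (c₁ := c₁) hCt hκt one_pos hκ0 hκ1 hκ2)
  refine ⟨C₀ + K1, κ, by positivity, hκ0, max (max M₁ M₂) 1, fun M hM => ?_⟩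
  have hMM₁ : M₁ ≤ M := (le_max_left _ _).trans ((le_max_left _ _).trans hM)
  have hMM₂ : M₂ ≤ M := (le_max_right _ _).trans ((le_max_left _ _).trans hM)
  have hM1 : (1 : ℝ) ≤ M := by exact_mod_cast (le_max_right _ _).trans hM
  obtain ⟨T₁, hT₁3, hT₁⟩ := hM₁ M hMM₁ c₁ hc₁.le
  obtain ⟨T₂, hT₂⟩ := hM₂ M hMM₂
  refine ⟨max (max T₁ T₂) (max T₅ T₆), hT₁3.trans ((le_max_left _ _).trans
    (le_max_left _ _)), fun T hT τ hτ k hk0 hk1 g h hgh => ?_⟩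
  have hTT₁ : T₁ ≤ T := (le_max_left _ _).trans ((le_max_left _ _).trans hT)
  have hTT₂ : T₂ ≤ T := (le_max_right _ _).trans ((le_max_left _ _).trans hT)
  have hTT₅ : T₅ ≤ T := (le_max_left _ _).trans ((le_max_right _ _).trans hT)
  have hTT₆ : T₆ ≤ T := (le_max_right _ _).trans ((le_max_right _ _).trans hT)
  obtain ⟨hT3, _, hLc₁, herr, _, _, hTκ⟩ := hT₆ T hTT₆
  have hT1 : 1 < T := by linarith
  have hT0 : 0 < T := by linarith
  have hL : 0 < Real.log T := Real.log_pos hT1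
  set J := JJ T with hJ
  have hAA : ∀ g h : Finset ℕ, DP (T ^ (1 / 25 : ℝ)) (T ^ (1 / 20 : ℝ)) (AA T M J (k - 1) g h) :=
    hT₂ T hTT₂ (k - 1) (by rw [abs_le]; constructor <;> linarith)
  have hN25 : 1 ≤ T ^ (1 / 25 : ℝ) := Real.one_le_rpow hT1.le (by norm_num)
  have hN85 : 1 ≤ T ^ (85 / 100 : ℝ) := Real.one_le_rpow hT1.le (by norm_num)
  have hP0 : 0 ≤ ∏ j ∈ h, ss M J j := Finset.prod_nonneg fun j _ => (Real.exp_pos _).le
  have hLk : 0 ≤ Real.log T ^ (k ^ 2) := Real.rpow_nonneg hL.le _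
  have hhalf : ((1 / 2 : ℝ) : ℂ) = 1 / 2 := by push_cast; ring
  set W := Real.exp (C₀ * M) * (1 + c₁) ^ C₀ * Real.log T ^ (k ^ 2) * ∏ j ∈ h, ss M J j with hW
  have hW0 : 0 ≤ W := by positivity
  have pgζ : PG (fun t => riemannZeta (((1 / 2 : ℝ) : ℂ) + t * I)) :=
    pg_zeta le_rfl (by norm_num)
  have pgS : PG (fun t => SS T (fs (((1 / 2 : ℝ) : ℂ) + t * I))) :=
    DP.pg (dp_SS hT1) hN85 (by norm_num)
  have pgA : PG (fun t => AA T M J (k - 1) g h (fs (((1 / 2 : ℝ) : ℂ) + t * I))) :=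
    DP.pg (hAA g h) hN25 (by norm_num)
  have pgzt : PG (fun t => zt (((1 / 2 : ℝ) : ℂ) + t * I) - kp (((1 / 2 : ℝ) : ℂ) + t * I) *
      SS T (fs (((1 / 2 : ℝ) : ℂ) + t * I))) :=
    (pg_of_nice TSM.nice_zt (σ := 1 / 2) (by norm_num) (by norm_num)).sub
      ((pg_of_nice TSM.nice_kp (σ := 1 / 2) (by norm_num) (by norm_num)).mul pgS)
  have isq : ∀ {F G : ℝ → ℂ}, PG F → PG G →
      Integrable (fun t => ‖F t‖ ^ 2 * ‖G t‖ ^ 2) (gaussianReal τ (VV T)) := by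
    intro F G hF hG
    have := (hF.mul hG).integrable_sq τ (VV T)
    simpa only [norm_mul, mul_pow] using this
  have hXs : ∀ w₁ w₂ : ℝ, 1 / 2 ≤ w₁ → w₁ ≤ 1 / 2 + c₁ / Real.log T →
      |w₂ - 1 / 2| ≤ c₁ / Real.log T →
      EG T τ (fun t => ‖SS T (fs (w₁ + t * I))‖ ^ 2 *
        ‖AA T M J (k - 1) g h (fs (w₂ + t * I))‖ ^ 2) ≤ W + 1 / T := by
    intro w₁ w₂ hw1 hw2 hw3
    rw [abs_le] at hw3
    have e1 : w₁ = 1 / 2 + (w₁ - 1 / 2) * Real.log T / Real.log T := by field_simp; ring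
    have e2 : w₂ = 1 / 2 + (w₂ - 1 / 2) * Real.log T / Real.log T := by field_simp; ring
    have hδ : c₁ / Real.log T ≤ 1 / 4 := by rw [div_le_iff₀ hL]; linarith
    have h3 := tr_SA hT1 herr M J τ (hAA g h) (w₁ := w₁) (w₂ := w₂) (by linarith) (by linarith)
    refine h3.trans ?_
    gcongr
    have h4 := hT₁ T hTT₁ k hk0 hk1 g h hgh ((w₁ - 1 / 2) * Real.log T)
      ((w₂ - 1 / 2) * Real.log T) (mul_nonneg (by linarith) hL.le) ?_ ?_ ?_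
    · rw [← e1, ← e2] at h4
      exact h4
    · have : w₁ - 1 / 2 ≤ c₁ / Real.log T := by linarith
      calc (w₁ - 1 / 2) * Real.log T ≤ c₁ / Real.log T * Real.log T := by gcongr
        _ = c₁ := by field_simp
    · have : -(c₁ / Real.log T) ≤ w₂ - 1 / 2 := by linarith
      calc -c₁ = -(c₁ / Real.log T) * Real.log T := by field_simp
        _ ≤ _ := by gcongr
    · have : w₂ - 1 / 2 ≤ c₁ / Real.log T := by linarith
      calc (w₂ - 1 / 2) * Real.log T ≤ c₁ / Real.log T * Real.log T := by gcongr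
        _ = c₁ := by field_simp
  have h0 : (1 / 2 + 0 / Real.log T : ℝ) = 1 / 2 := by simp
  have hK := hT₅ T hTT₅ τ hτ (AA T M J (k - 1) g h) (hAA g h) (W + 1 / T) hXs
  rw [h0, mul_zero, neg_zero, Real.exp_zero, mul_one] at hK
  have hS := hXs (1 / 2) (1 / 2) le_rfl (by
    have : 0 ≤ c₁ / Real.log T := by positivity
    linarith) (by rw [sub_self, abs_zero]; positivity)
  have hmain : EG T τ (fun t => ‖riemannZeta (((1 / 2 : ℝ) : ℂ) + t * I)‖ ^ 2 *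
      ‖AA T M J (k - 1) g h (fs (((1 / 2 : ℝ) : ℂ) + t * I))‖ ^ 2) ≤
      2 * EG T τ (fun t => ‖SS T (fs (((1 / 2 : ℝ) : ℂ) + t * I))‖ ^ 2 *
        ‖AA T M J (k - 1) g h (fs (((1 / 2 : ℝ) : ℂ) + t * I))‖ ^ 2) +
      98 * EG T τ (fun t => ‖zt (((1 / 2 : ℝ) : ℂ) + t * I) - kp (((1 / 2 : ℝ) : ℂ) + t * I) *
        SS T (fs (((1 / 2 : ℝ) : ℂ) + t * I))‖ ^ 2 *
        ‖AA T M J (k - 1) g h (fs (((1 / 2 : ℝ) : ℂ) + t * I))‖ ^ 2) := by
    unfold EG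
    rw [← integral_const_mul, ← integral_const_mul,
      ← integral_add ((isq pgS pgA).const_mul 2) ((isq pgzt pgA).const_mul 98)]
    refine integral_mono (isq pgζ pgA)
      (((isq pgS pgA).const_mul 2).add ((isq pgzt pgA).const_mul 98)) fun t => ?_
    simp only
    have h2 := pt_zeta_SS (s := (((1 / 2 : ℝ) : ℂ) + t * I)) (by rw [TSM.line_re])
      (by rw [TSM.line_re]; norm_num) (SS T (fs (((1 / 2 : ℝ) : ℂ) + t * I)))
    have h3 := pt_split (riemannZeta (((1 / 2 : ℝ) : ℂ) + t * I))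
      (SS T (fs (((1 / 2 : ℝ) : ℂ) + t * I)))
      (AA T M J (k - 1) g h (fs (((1 / 2 : ℝ) : ℂ) + t * I))) one_pos
    have h4 := mul_le_mul_of_nonneg_right h2
      (sq_nonneg ‖AA T M J (k - 1) g h (fs (((1 / 2 : ℝ) : ℂ) + t * I))‖)
    linarith
  rw [hhalf] at hmain hK
  have hS' : EG T τ (fun t => ‖SS T (fs ((1 / 2 : ℂ) + t * I))‖ ^ 2 *
        ‖AA T M J (k - 1) g h (fs ((1 / 2 : ℂ) + t * I))‖ ^ 2) ≤ W + 1 / T := by
    rw [hhalf] at hS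
    exact hS
  refine hmain.trans ?_
  have hfin : 2 * (W + 1 / T) + 98 * (Ct * (W + 1 / T + T ^ (-κt))) ≤
      Real.exp ((C₀ + K1) * M) * Real.log T ^ (k ^ 2) * ∏ j ∈ h, ss M J j + T ^ (-κ) := by
    have h1 : 2 * (W + 1 / T) + 98 * (Ct * (W + 1 / T + T ^ (-κt))) =
        (2 + 98 * Ct) * W + (2 / T + 98 * Ct * (1 / T + T ^ (-κt))) := by ring
    rw [h1]
    refine add_le_add ?_ hTκ
    have h2 : K1 * Real.exp (C₀ * M) ≤ Real.exp ((C₀ + K1) * M) := by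
      have h3 : K1 ≤ Real.exp (K1 * M) := by
        have h5 := Real.add_one_le_exp (K1 * M)
        nlinarith
      calc K1 * Real.exp (C₀ * M) ≤ Real.exp (K1 * M) * Real.exp (C₀ * M) := by gcongr
        _ = Real.exp ((K1 + C₀) * M) := by rw [← Real.exp_add]; congr 1; ring
        _ ≤ _ := by
            apply Real.exp_le_exp.2
            linarith
    calc (2 + 98 * Ct) * W = (K1 * Real.exp (C₀ * M)) * Real.log T ^ (k ^ 2) *
          ∏ j ∈ h, ss M J j := by rw [hW, hK1]; ring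
      _ ≤ _ := by gcongr
  refine le_trans ?_ hfin
  gcongr

theorem stCrudeR : StCrudeR := by
  obtain ⟨C, κ, hC, hκ, M₀, h⟩ := crude2
  refine ⟨C, κ, hC, hκ, M₀, fun M hM => ?_⟩
  obtain ⟨T₀, hT₀, h⟩ := h M hM
  exact ⟨T₀, hT₀, fun T hT τ hτ k hk0 hk1 => h T hT τ hτ k (by linarith) (by linarith)⟩

end K1R
end Pool.Agent.Lib.MP_973905_nt
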