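import Pool.Agent.Lib.MP_973905_nt.K1R.Stmts
import Pool.Agent.Lib.MP_973905_nt.K1.LF

/-! Module (10R): the local factor with shifts, exponent `u` in `[-1/10, 0]`. -/

namespace Pool.Agent.Lib.MP_973905_nt
namespace K1R

open MeasureTheory ProbabilityTheory Complex Filter Topology K1

namespace LFR

open DDaux LFaux

/-- bound for the coefficients -/
lemma cf_pos_succ {u : ℝ} (hu0 : u ≤ 0) (hu1 : -(1 / 10) ≤ u) (a : ℕ) :
    |cf (-u) (a + 1)| ≤ |u| := by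
  induction a with
  | zero =>
    rw [zero_add, cf_one, abs_neg]
  | succ a ih =>
    rw [cf_succ, abs_mul]
    have h2 : |(-u + ((a + 1 : ℕ) : ℝ)) / (((a + 1 : ℕ) : ℝ) + 1)| ≤ 1 := by
      have h3 : (0 : ℝ) ≤ (a : ℝ) := Nat.cast_nonneg a
      rw [abs_div, abs_of_nonneg (by push_cast; linarith : (0 : ℝ) ≤ -u + ((a + 1 : ℕ) : ℝ)),
        abs_of_pos (by positivity : (0 : ℝ) < ((a + 1 : ℕ) : ℝ) + 1), div_le_one (by positivity)]
      linarith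
    calc |cf (-u) (a + 1)| * |(-u + ((a + 1 : ℕ) : ℝ)) / (((a + 1 : ℕ) : ℝ) + 1)|
        ≤ |cf (-u) (a + 1)| * 1 := mul_le_mul_of_nonneg_left h2 (abs_nonneg _)
      _ ≤ |u| := by rw [mul_one]; exact ih

lemma abs_le_one {u : ℝ} (hu0 : u ≤ 0) (hu1 : -(1 / 10) ≤ u) : |u| ≤ 1 := by
  rw [abs_of_nonpos hu0]; linarith

lemma cf_pos_le_one {u : ℝ} (hu0 : u ≤ 0) (hu1 : -(1 / 10) ≤ u) (a : ℕ) : |cf (-u) a| ≤ 1 := by
  cases a with
  | zero => rw [cf_zero, abs_one]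
  | succ a => exact (cf_pos_succ hu0 hu1 a).trans (abs_le_one hu0 hu1)

/-- the double series of the local factor -/
lemma LF_hasSumR {u x : ℝ} {x₁ x₂ : ℂ} (hu0 : u ≤ 0) (hu1 : -(1 / 10) ≤ u) (hx0 : 0 ≤ x)
    (hx1 : x < 1) (h₁ : ‖x₁‖ ≤ 3 / 4) (h₂ : ‖x₂‖ ≤ 3 / 4) :
    HasSum (tt u x x₁ x₂) ((1 - x₁ * x₂) * LF u x x₁ x₂) := by
  have h₁' : ‖x₁‖ < 1 := by linarith
  have h₂' : ‖x₂‖ < 1 := by linarith
  have hnorm : ∀ θ : ℝ, ‖circleMap 0 1 θ‖ = 1 := fun θ => by simp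
  have hne : 1 - x₁ * x₂ ≠ 0 := one_sub_mul_ne h₁' h₂'.le
  set G : ℕ × ℕ → ℝ → ℂ := fun q θ => Kr x₁ x₂ (circleMap 0 1 θ) *
    (((cf (-u) q.1 * cf (-u) q.2 * x ^ (q.1 + q.2) : ℝ) : ℂ) *
      ((circleMap 0 1 θ) ^ q.1 * ((starRingEnd ℂ) (circleMap 0 1 θ)) ^ q.2)) with hG
  have hint : HasSum (fun q => ∫ θ in (0:ℝ)..(2 * Real.pi), G q θ)
      (∫ θ in (0:ℝ)..(2 * Real.pi), Kr x₁ x₂ (circleMap 0 1 θ) *
        ((‖1 - x * circleMap 0 1 θ‖ ^ (2 * u) : ℝ) : ℂ)) := by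
    apply intervalIntegral.hasSum_integral_of_dominated_convergence
      (bound := fun q _ => 16 * x ^ (q.1 + q.2))
    · intro q
      apply Continuous.aestronglyMeasurable
      simp only [hG]
      apply (continuous_Kr h₁' h₂').mul
      unfold circleMap
      fun_prop
    · intro q
      refine Filter.Eventually.of_forall fun θ _ => ?_
      simp only [hG]
      rw [norm_mul, norm_mul, norm_mul, norm_pow, norm_pow, RCLike.norm_conj, hnorm, one_pow,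
        one_pow, mul_one, mul_one, norm_real, Real.norm_eq_abs, abs_mul, abs_mul,
        abs_of_nonneg (pow_nonneg hx0 _)]
      apply mul_le_mul (norm_Kr_le h₁ h₂ (hnorm θ)) _ (by positivity) (by norm_num)
      have b1 := cf_pos_le_one hu0 hu1 q.1
      have b2 := cf_pos_le_one hu0 hu1 q.2
      calc |cf (-u) q.1| * |cf (-u) q.2| * x ^ (q.1 + q.2) ≤ 1 * 1 * x ^ (q.1 + q.2) := by
            apply mul_le_mul_of_nonneg_right _ (pow_nonneg hx0 _)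
            exact mul_le_mul b1 b2 (abs_nonneg _) (by norm_num)
        _ = x ^ (q.1 + q.2) := by ring
    · exact Filter.Eventually.of_forall fun θ _ => (summable_pow_add hx0 hx1).mul_left 16
    · simp
    · refine Filter.Eventually.of_forall fun θ _ => ?_
      exact (cpow_norm_sq hx0 hx1 (hnorm θ)).mul_left _
  have hval : ∀ q : ℕ × ℕ, (2 * Real.pi)⁻¹ • ∫ θ in (0:ℝ)..(2 * Real.pi), G q θ =
      tt u x x₁ x₂ q / (1 - x₁ * x₂) := by
    intro q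
    have h1 : ∀ θ, G q θ = ((cf (-u) q.1 * cf (-u) q.2 * x ^ (q.1 + q.2) : ℝ) : ℂ) *
        (Kr x₁ x₂ (circleMap 0 1 θ) * ((circleMap 0 1 θ) ^ q.1 *
        ((starRingEnd ℂ) (circleMap 0 1 θ)) ^ q.2)) := by
      intro θ
      simp only [hG]
      ring
    have h2 := avg_pair h₁' h₂' q.1 q.2
    rw [Real.circleAverage] at h2
    simp_rw [h1]
    rw [intervalIntegral.integral_const_mul, ← mul_smul_comm, h2, tt]
    ring
  have h3 := hint.const_smul ((2 * Real.pi)⁻¹ : ℝ)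
  have h4 := h3.mul_left (1 - x₁ * x₂)
  have e1 : (fun q => (1 - x₁ * x₂) * (((2 * Real.pi)⁻¹ : ℝ) • ∫ θ in (0:ℝ)..(2 * Real.pi), G q θ)) =
      tt u x x₁ x₂ := by
    funext q
    rw [hval q, mul_div_cancel₀ _ hne]
  rw [e1] at h4
  exact h4

/-- termwise bound outside the four first terms -/
lemma norm_tt_leR {u x : ℝ} {x₁ x₂ : ℂ} (hu0 : u ≤ 0) (hu1 : -(1 / 10) ≤ u) (hx0 : 0 ≤ x)
    (hx1 : x ≤ 3 / 4) (h₁ : ‖x₁‖ ≤ 3 / 4) (h₂ : ‖x₂‖ ≤ 3 / 4) (h₁' : ‖x₁‖ ≤ 2 * x)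
    (h₂' : ‖x₂‖ ≤ 2 * x) (q : ℕ × ℕ) (hq : 2 ≤ q.1 ∨ 2 ≤ q.2) :
    ‖tt u x x₁ x₂ q‖ ≤ |u| * x ^ 4 * 13 * (3 / 4) ^ (q.1 + q.2) := by
  obtain ⟨a, b⟩ := q
  simp only at hq ⊢
  have hcf : |cf (-u) a| * |cf (-u) b| ≤ |u| := by
    rcases hq with h | h
    · obtain ⟨c, rfl⟩ : ∃ c, a = c + 1 := ⟨a - 1, by omega⟩
      calc |cf (-u) (c + 1)| * |cf (-u) b| ≤ |u| * 1 :=
            mul_le_mul (cf_pos_succ hu0 hu1 c) (cf_pos_le_one hu0 hu1 b) (abs_nonneg _) (abs_nonneg _)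
        _ = |u| := mul_one |u|
    · obtain ⟨c, rfl⟩ : ∃ c, b = c + 1 := ⟨b - 1, by omega⟩
      calc |cf (-u) a| * |cf (-u) (c + 1)| ≤ 1 * |u| :=
            mul_le_mul (cf_pos_le_one hu0 hu1 a) (cf_pos_succ hu0 hu1 c) (abs_nonneg _) zero_le_one
        _ = |u| := one_mul |u|
  have hpow : x ^ (a + b) * (‖x₂‖ ^ (a - b) * ‖x₁‖ ^ (b - a)) ≤
      x ^ 4 * (13 * (3 / 4) ^ (a + b)) := by
    rcases le_total b a with h | h
    · obtain ⟨m, rfl⟩ := Nat.exists_eq_add_of_le h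
      have := pow_key hx0 hx1 (norm_nonneg x₂) h₂ h₂' b m (by omega)
      rw [Nat.add_sub_cancel_left, Nat.sub_eq_zero_of_le h, pow_zero, mul_one]
      have e : b + m + b = 2 * b + m := by ring
      rw [e]
      exact this
    · obtain ⟨m, rfl⟩ := Nat.exists_eq_add_of_le h
      have := pow_key hx0 hx1 (norm_nonneg x₁) h₁ h₁' a m (by omega)
      rw [Nat.add_sub_cancel_left, Nat.sub_eq_zero_of_le h, pow_zero, one_mul]
      have e : a + (a + m) = 2 * a + m := by ring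
      rw [e]
      exact this
  have e1 : ‖tt u x x₁ x₂ (a, b)‖ = (|cf (-u) a| * |cf (-u) b|) *
      (x ^ (a + b) * (‖x₂‖ ^ (a - b) * ‖x₁‖ ^ (b - a))) := by
    unfold tt
    rw [norm_mul, norm_mul, norm_pow, norm_pow, norm_real, Real.norm_eq_abs, abs_mul, abs_mul,
      abs_of_nonneg (pow_nonneg hx0 _)]
    ring
  rw [e1]
  calc (|cf (-u) a| * |cf (-u) b|) * (x ^ (a + b) * (‖x₂‖ ^ (a - b) * ‖x₁‖ ^ (b - a)))
      ≤ |u| * (x ^ 4 * (13 * (3 / 4) ^ (a + b))) := by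
        apply mul_le_mul hcf hpow _ (abs_nonneg _)
        positivity
    _ = _ := by ring

end LFR

open LFaux DDaux LFR in
theorem stLFR : StLFR := by
  refine ⟨208, by norm_num, ?_⟩
  intro u x x₁ x₂ hu1 hu0 hx0 hx1 h₁ h₂ h₁' h₂'
  have hx : x < 1 := by linarith
  have hS := LF_hasSumR hu0 hu1 hx0 hx h₁ h₂
  set S : Finset (ℕ × ℕ) := Finset.range 2 ×ˢ Finset.range 2 with hSdef
  have hfin : HasSum (fun q : ℕ × ℕ => if q ∈ S then tt u x x₁ x₂ q else 0)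
      (∑ q ∈ S, tt u x x₁ x₂ q) := by
    have h : HasSum (fun q : ℕ × ℕ => if q ∈ S then tt u x x₁ x₂ q else 0)
        (∑ q ∈ S, (if q ∈ S then tt u x x₁ x₂ q else 0)) :=
      hasSum_sum_of_ne_finset_zero (fun q hq => if_neg hq)
    have e : ∑ q ∈ S, (if q ∈ S then tt u x x₁ x₂ q else 0) = ∑ q ∈ S, tt u x x₁ x₂ q :=
      Finset.sum_congr rfl fun q hq => if_pos hq
    rwa [e] at h
  have hdiff := hS.sub hfin
  have hgeo : HasSum (fun q : ℕ × ℕ => (3 / 4 : ℝ) ^ (q.1 + q.2)) 16 := by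
    have hg : HasSum (fun n : ℕ => (3 / 4 : ℝ) ^ n) 4 := by
      have := hasSum_geometric_of_lt_one (r := (3 / 4 : ℝ)) (by norm_num) (by norm_num)
      norm_num at this
      exact this
    have h := hg.mul hg (hg.summable.mul_of_nonneg hg.summable (fun n => by positivity)
      (fun n => by positivity))
    have e : (fun q : ℕ × ℕ => (3 / 4 : ℝ) ^ (q.1 + q.2)) =
        fun q : ℕ × ℕ => (3 / 4 : ℝ) ^ q.1 * (3 / 4 : ℝ) ^ q.2 := by
      funext q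
      rw [pow_add]
    rw [e]
    norm_num at h ⊢
    exact h
  have hbd := hgeo.mul_left (|u| * x ^ 4 * 13)
  have hnorm : ‖(1 - x₁ * x₂) * LF u x x₁ x₂ - ∑ q ∈ S, tt u x x₁ x₂ q‖ ≤
      |u| * x ^ 4 * 13 * 16 := by
    rw [← hdiff.tsum_eq]
    apply tsum_of_norm_bounded hbd
    intro q
    by_cases hq : q ∈ S
    · rw [if_pos hq, sub_self, norm_zero]
      positivity
    · rw [if_neg hq, sub_zero]
      apply norm_tt_leR hu0 hu1 hx0 hx1 h₁ h₂ h₁' h₂'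
      by_contra hcon
      push Not at hcon
      apply hq
      rw [hSdef, Finset.mem_product, Finset.mem_range, Finset.mem_range]
      exact hcon
  have hsum : ∑ q ∈ S, tt u x x₁ x₂ q = ((1 + (u ^ 2 - 2 * u) * x ^ 2 : ℝ) : ℂ) -
      ((u * x : ℝ) : ℂ) * ((x₁ - x) + (x₂ - x)) := by
    rw [hSdef, Finset.sum_product, Finset.sum_range_succ, Finset.sum_range_one,
      Finset.sum_range_succ, Finset.sum_range_one, Finset.sum_range_succ, Finset.sum_range_one]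
    simp only [tt, cf_zero, cf_one]
    push_cast
    simp
    ring
  have e2 : (1 - x₁ * x₂) * LF u x x₁ x₂ - ((1 + (u ^ 2 - 2 * u) * x ^ 2 : ℝ) : ℂ) =
      ((1 - x₁ * x₂) * LF u x x₁ x₂ - ∑ q ∈ S, tt u x x₁ x₂ q) -
      ((u * x : ℝ) : ℂ) * ((x₁ - x) + (x₂ - x)) := by
    rw [hsum]
    ring
  rw [e2]
  have hux : 0 ≤ |u| * x := mul_nonneg (abs_nonneg _) hx0
  calc ‖((1 - x₁ * x₂) * LF u x x₁ x₂ - ∑ q ∈ S, tt u x x₁ x₂ q) -
      ((u * x : ℝ) : ℂ) * ((x₁ - x) + (x₂ - x))‖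
      ≤ ‖(1 - x₁ * x₂) * LF u x x₁ x₂ - ∑ q ∈ S, tt u x x₁ x₂ q‖ +
        ‖((u * x : ℝ) : ℂ) * ((x₁ - x) + (x₂ - x))‖ := norm_sub_le _ _
    _ ≤ |u| * x ^ 4 * 13 * 16 + (|u| * x) * (‖x₁ - x‖ + ‖x₂ - x‖) := by
        apply add_le_add hnorm
        rw [norm_mul, norm_real, Real.norm_eq_abs, abs_mul, abs_of_nonneg hx0]
        exact mul_le_mul_of_nonneg_left (norm_add_le _ _) hux
    _ ≤ 208 * |u| * x * (‖x₁ - x‖ + ‖x₂ - x‖ + x ^ 3) := by
        have h3 : 0 ≤ |u| * x * (‖x₁ - x‖ + ‖x₂ - x‖) := by positivity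
        nlinarith [h3]

end K1R
end Pool.Agent.Lib.MP_973905_nt
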