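import Pool.Agent.Lib.MP_973905_nt.K1R.Stmts
import Pool.Agent.Lib.MP_973905_nt.K1.Lower

/-! Module (22R): the lower bound of the moment on `[0, T]`, `k → 1+`. -/

namespace Pool.Agent.Lib.MP_973905_nt
namespace K1R

open MeasureTheory ProbabilityTheory Complex Filter Topology K1

namespace LowerR

open K1.Lower

/-- the ratio bound on the good set -/
lemma ratio1 (l : ℕ) {k K : ℝ} (hk0 : 1 ≤ k) (hk1 : k ≤ 11 / 10) (hK : 1 ≤ K) (hl : 10 * K ≤ l)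
    {z : ℂ} (hz : ‖z‖ ≤ K) :
    ‖Ntr l (k - 1) z‖ ≤ (1 + 4 * Real.exp (-K)) * ‖Ntr l 1 z‖ ^ (k - 1) := by
  have ha : |k - 1| ≤ 1 := by rw [abs_le]; constructor <;> linarith
  have hb : |(1 : ℝ)| ≤ 1 := by norm_num
  obtain ⟨a1, a2⟩ := Ntr_ratio l ha hK hl hz
  obtain ⟨b1, b2⟩ := Ntr_ratio l hb hK hl hz
  set x := Real.exp (-K) with hx
  have hx0 : 0 < x := Real.exp_pos _
  have hx1 : x ≤ 1 / 2 := by
    have h1 : x ≤ Real.exp (-1) := Real.exp_le_exp.mpr (by linarith)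
    have h2 : Real.exp (-1) ≤ 1 / 2 := by
      rw [Real.exp_neg]
      have := Real.add_one_le_exp (1 : ℝ)
      rw [inv_le_comm₀ (Real.exp_pos _) (by norm_num)]
      linarith
    linarith
  have hE : 0 < Real.exp ((k - 1) * z.re) := Real.exp_pos _
  have h1 : (1 - x) * Real.exp ((k - 1) * z.re) ≤ ‖Ntr l 1 z‖ ^ (k - 1) := by
    have h2 : (1 - x) ≤ (1 - x) ^ (k - 1) := by
      have := Real.rpow_le_rpow_of_exponent_ge (x := 1 - x) (by linarith) (by linarith)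
        (show k - 1 ≤ 1 by linarith)
      rwa [Real.rpow_one] at this
    calc (1 - x) * Real.exp ((k - 1) * z.re) ≤ (1 - x) ^ (k - 1) * Real.exp ((k - 1) * z.re) := by
          gcongr
      _ = ((1 - x) * Real.exp (1 * z.re)) ^ (k - 1) := by
          rw [Real.mul_rpow (by linarith) (Real.exp_pos _).le, ← Real.exp_mul]
          congr 2; ring
      _ ≤ _ := by
          apply Real.rpow_le_rpow _ b1 (by linarith)
          exact mul_nonneg (by linarith) (Real.exp_pos _).le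
  have h3 : (1 + x) ≤ (1 + 4 * x) * (1 - x) := by nlinarith
  calc ‖Ntr l (k - 1) z‖ ≤ (1 + x) * Real.exp ((k - 1) * z.re) := a2
    _ ≤ ((1 + 4 * x) * (1 - x)) * Real.exp ((k - 1) * z.re) := by gcongr
    _ = (1 + 4 * x) * ((1 - x) * Real.exp ((k - 1) * z.re)) := by ring
    _ ≤ _ := by gcongr

/-- the pointwise inequality on the good set -/
lemma good_pt {z n m k e : ℝ} (hz : 0 ≤ z) (hn : 0 ≤ n) (hm : 0 ≤ m)
    (hk : 1 ≤ k) (he : 0 ≤ e) (h : n ≤ (1 + e) * m ^ (k - 1)) :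
    z ^ 2 * n ^ 2 ≤ (1 + e) ^ 2 * ((z ^ (2 * k)) ^ (1 / k) * (n ^ 2 * m ^ 2) ^ (1 - 1 / k)) := by
  have hk0 : 0 < k := by linarith
  have hik : 1 / k ≤ 1 := by rw [div_le_one hk0]; exact hk
  have hik0 : 0 < 1 / k := by positivity
  have e1 : (z ^ (2 * k)) ^ (1 / k) = z ^ 2 := by
    rw [← Real.rpow_mul hz, show 2 * k * (1 / k) = ((2 : ℕ) : ℝ) by push_cast; field_simp,
      Real.rpow_natCast]
  have e3 : (n ^ 2 * m ^ 2) ^ (1 - 1 / k) = n ^ (2 * (1 - 1 / k)) * m ^ (2 * (1 - 1 / k)) := by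
    rw [Real.mul_rpow (by positivity) (by positivity), ← Real.rpow_natCast n,
      ← Real.rpow_natCast m, ← Real.rpow_mul hn, ← Real.rpow_mul hm]
    push_cast
    rfl
  have e6 : n ^ 2 = n ^ (2 * (1 - 1 / k)) * n ^ (2 / k) := by
    rw [← Real.rpow_add_of_nonneg hn (by nlinarith) (by positivity),
      show 2 * (1 - 1 / k) + 2 / k = ((2 : ℕ) : ℝ) by push_cast; field_simp; ring,
      Real.rpow_natCast]
  have hkk : (k - 1) * (2 / k) = 2 * (1 - 1 / k) := by field_simp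
  have h1 : n ^ (2 / k) ≤ (1 + e) ^ 2 * m ^ (2 * (1 - 1 / k)) := by
    calc n ^ (2 / k) ≤ ((1 + e) * m ^ (k - 1)) ^ (2 / k) :=
          Real.rpow_le_rpow hn h (by positivity)
      _ = (1 + e) ^ (2 / k) * m ^ (2 * (1 - 1 / k)) := by
          rw [Real.mul_rpow (by linarith) (Real.rpow_nonneg hm _), ← Real.rpow_mul hm, hkk]
      _ ≤ (1 + e) ^ (2 : ℝ) * m ^ (2 * (1 - 1 / k)) := by
          gcongr
          · linarith
          · rw [div_le_iff₀ hk0]; linarith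
      _ = _ := by rw [Real.rpow_two]
  rw [e1, e3]
  have h2 : 0 ≤ n ^ (2 * (1 - 1 / k)) := Real.rpow_nonneg hn _
  calc z ^ 2 * n ^ 2 = z ^ 2 * (n ^ (2 * (1 - 1 / k)) * n ^ (2 / k)) := by rw [e6]
    _ ≤ z ^ 2 * (n ^ (2 * (1 - 1 / k)) * ((1 + e) ^ 2 * m ^ (2 * (1 - 1 / k)))) := by gcongr
    _ = _ := by ring

/-- the abstract lower bound -/
theorem core {T : ℝ} (hT : 0 < T) {z N N1 : ℝ → ℂ} {Q : ℕ → ℝ → ℝ} {R : Finset ℕ} {q : ℕ → ℝ}
    (cz : Continuous z) (cN : Continuous N)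
    (cN1 : Continuous N1) (cQ : ∀ v, Continuous (Q v)) (hQ0 : ∀ v t, 0 ≤ Q v t)
    {k η e C₅ Λ : ℝ} (hk : 1 ≤ k) (hk1 : k ≤ 2) (hη0 : 0 < η) (hη : η ≤ 1 / 200) (he : 0 ≤ e)
    (hee : (1 + e) ^ 2 ≤ 1 + η) (hΛ : 0 < Λ) (hC : 0 < C₅) (hC5 : C₅ ^ (1 - 1 / k) ≤ 1 + η)
    (hgood : ∀ t, ‖N t‖ ≤ (1 + e) * ‖N1 t‖ ^ (k - 1) ∨ ∃ v ∈ R, 1 ≤ Q v t)
    (H1 : (1 - η) * Λ ≤ ∫ t, ‖z t‖ ^ 2 * ‖N t‖ ^ 2 ∂(AV T))
    (H4 : ∫ t, ‖N t‖ ^ 2 * ‖N1 t‖ ^ 2 ∂(AV T) ≤ C₅ * Λ)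
    (H5 : ∀ v ∈ R, ∫ t, ‖z t‖ ^ 2 * (‖N t‖ * Q v t) ^ 2 ∂(AV T) ≤ q v * Λ)
    (hqs : ∑ v ∈ R, q v ≤ η) :
    (1 - 100 * η) * Λ ≤ ∫ t, ‖z t‖ ^ (2 * k) ∂(AV T) := by
  by_contra hcon
  push Not at hcon
  have hk0 : 0 < k := by linarith
  have hik : 1 / k ≤ 1 := by rw [div_le_one hk0]; exact hk
  have hik0 : 0 < 1 / k := by positivity
  set X : ℝ → ℝ := fun t => ‖z t‖ ^ (2 * k) with hX
  set U : ℝ → ℝ := fun t => ‖N t‖ ^ 2 * ‖N1 t‖ ^ 2 with hU
  have cX : Continuous X := cz.norm.rpow_const fun _ => Or.inr (by linarith)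
  have cU : Continuous U := (cN.norm.pow 2).mul (cN1.norm.pow 2)
  have hX0 : ∀ t, 0 ≤ X t := fun t => Real.rpow_nonneg (norm_nonneg _) _
  have hU0 : ∀ t, 0 ≤ U t := fun t => by simp only [hU]; positivity
  set av : ℕ → ℝ → ℝ := fun v t => ‖z t‖ ^ 2 * (‖N t‖ * Q v t) ^ 2 with hav
  have cav : ∀ v, Continuous (av v) := fun v => (cz.norm.pow 2).mul ((cN.norm.mul (cQ v)).pow 2)
  have hav0 : ∀ v t, 0 ≤ av v t := fun v t => by simp only [hav]; positivity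
  set f1 : ℝ → ℝ := fun t => X t ^ (1 / k) * U t ^ (1 - 1 / k) with hf1
  have iX := integrable_AV hT cX
  have iU := integrable_AV hT cU
  have iav : ∀ v, Integrable (av v) (AV T) := fun v => integrable_AV hT (cav v)
  have hf1i : Integrable f1 (AV T) := holder2_integrable iX iU hX0 hU0 hik0.le hik
  have hpt : ∀ t, ‖z t‖ ^ 2 * ‖N t‖ ^ 2 ≤ (1 + η) * f1 t + ∑ v ∈ R, av v t := by
    intro t
    have hf10 : 0 ≤ f1 t :=
      mul_nonneg (Real.rpow_nonneg (hX0 t) _) (Real.rpow_nonneg (hU0 t) _)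
    rcases hgood t with h | ⟨v, hv, h1⟩
    · have h2 := good_pt (norm_nonneg (z t)) (norm_nonneg (N t))
        (norm_nonneg (N1 t)) hk he h
      have h3 : 0 ≤ ∑ v ∈ R, av v t := Finset.sum_nonneg fun v _ => hav0 v t
      have h4 : (1 + e) ^ 2 * f1 t ≤ (1 + η) * f1 t := by gcongr
      have h5 : ‖z t‖ ^ 2 * ‖N t‖ ^ 2 ≤ (1 + e) ^ 2 * f1 t := h2
      linarith
    · have h2 : ‖z t‖ ^ 2 * ‖N t‖ ^ 2 ≤ av v t := by
        simp only [hav]
        have h3 : ‖N t‖ ≤ ‖N t‖ * Q v t := le_mul_of_one_le_right (norm_nonneg _) h1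
        gcongr
      have h3 : av v t ≤ ∑ v ∈ R, av v t :=
        Finset.single_le_sum (f := fun v => av v t) (fun v _ => hav0 v t) hv
      have h4 : 0 ≤ (1 + η) * f1 t := by positivity
      linarith
  have hmain : (1 - η) * Λ ≤ (1 + η) * ∫ t, f1 t ∂(AV T) + ∑ v ∈ R, ∫ t, av v t ∂(AV T) := by
    refine H1.trans ?_
    rw [← integral_finsetSum _ fun v _ => iav v, ← integral_const_mul,
      ← integral_add (hf1i.const_mul _) (integrable_finsetSum _ fun v _ => iav v)]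
    exact integral_mono (integrable_AV hT ((cz.norm.pow 2).mul (cN.norm.pow 2)))
      ((hf1i.const_mul _).add (integrable_finsetSum _ fun v _ => iav v)) hpt
  have hA : 0 < (1 - 100 * η) * Λ := by
    rcases eq_or_lt_of_le (show 0 ≤ 1 - 100 * η by linarith) with h0 | h0
    · rw [← h0, zero_mul] at hcon
      have := integral_nonneg (μ := AV T) (f := X) fun t => hX0 t
      have hcon' : ∫ t, X t ∂(AV T) < 0 := hcon
      linarith
    · exact mul_pos h0 hΛ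
  have h0 : 0 < 1 - 100 * η := pos_of_mul_pos_left hA hΛ.le
  have hC' : 0 < C₅ * Λ := by positivity
  have hf1E : ∫ t, f1 t ∂(AV T) ≤ (1 - 50 * η) * (1 + η) * Λ := by
    refine (holder2 iX iU hX0 hU0 hik0.le hik hA hC' hcon.le H4).trans ?_
    rw [Real.mul_rpow h0.le hΛ.le, Real.mul_rpow hC.le hΛ.le]
    have eΛ : Λ ^ (1 / k) * Λ ^ (1 - 1 / k) = Λ := by
      rw [← Real.rpow_add hΛ, show 1 / k + (1 - 1 / k) = 1 by ring, Real.rpow_one]
    have h1 : (1 - 100 * η) ^ (1 / k) ≤ 1 - 50 * η := by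
      calc (1 - 100 * η) ^ (1 / k) ≤ (1 - 100 * η) ^ (1 / 2 : ℝ) := by
            apply Real.rpow_le_rpow_of_exponent_ge h0 (by linarith)
            rw [div_le_div_iff₀ (by norm_num) (by positivity)]; linarith
        _ = √(1 - 100 * η) := (Real.sqrt_eq_rpow _).symm
        _ ≤ 1 - 50 * η := by
            apply Real.sqrt_le_iff.2
            refine ⟨by linarith, ?_⟩
            nlinarith [sq_nonneg η]
    have p1 : 0 ≤ (1 - 100 * η) ^ (1 / k) := Real.rpow_nonneg (by linarith) _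
    have p3 : 0 ≤ C₅ ^ (1 - 1 / k) := Real.rpow_nonneg hC.le _
    calc (1 - 100 * η) ^ (1 / k) * Λ ^ (1 / k) * (C₅ ^ (1 - 1 / k) * Λ ^ (1 - 1 / k))
        = (1 - 100 * η) ^ (1 / k) * C₅ ^ (1 - 1 / k) * (Λ ^ (1 / k) * Λ ^ (1 - 1 / k)) := by ring
      _ = (1 - 100 * η) ^ (1 / k) * C₅ ^ (1 - 1 / k) * Λ := by rw [eΛ]
      _ ≤ (1 - 50 * η) * (1 + η) * Λ := by
          have g0 : 0 ≤ 1 - 50 * η := by linarith
          gcongr
  have hsumv : ∑ v ∈ R, ∫ t, av v t ∂(AV T) ≤ η * Λ := by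
    refine (Finset.sum_le_sum H5).trans ?_
    rw [← Finset.sum_mul]
    gcongr
  have h6 : (1 + η) * ∫ t, f1 t ∂(AV T) ≤ (1 + η) * ((1 - 50 * η) * (1 + η) * Λ) := by gcongr
  have h7 : (1 + η) * ((1 - 50 * η) * (1 + η)) ≤ 1 - 40 * η := by
    have g1 : (1 + η) * (1 + η) ≤ 1 + 3 * η := by nlinarith
    have g3 : (1 + 3 * η) * (1 - 50 * η) ≤ 1 - 40 * η := by nlinarith [sq_nonneg η]
    have g0 : 0 ≤ 1 - 50 * η := by linarith
    calc (1 + η) * ((1 - 50 * η) * (1 + η))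
        = ((1 + η) * (1 + η)) * (1 - 50 * η) := by ring
      _ ≤ (1 + 3 * η) * (1 - 50 * η) := by gcongr
      _ ≤ _ := g3
  have h8 : (1 + η) * ((1 - 50 * η) * (1 + η) * Λ) ≤ (1 - 40 * η) * Λ := by
    calc (1 + η) * ((1 - 50 * η) * (1 + η) * Λ)
        = (1 + η) * ((1 - 50 * η) * (1 + η)) * Λ := by ring
      _ ≤ _ := by gcongr
  have h9 : (1 - η) * Λ ≤ (1 - 40 * η) * Λ + η * Λ := by linarith
  have h10 : 0 < η * Λ := by positivity
  nlinarith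

lemma good_or_bad {T k e : ℝ} {M : ℕ} (hk0 : 1 ≤ k) (hk1 : k ≤ 11 / 10)
    (hs : 8 * ∑ j ∈ Finset.range (JJ T + 1), Real.exp (-KK M (JJ T) j) ≤ e) (he : e ≤ 1)
    (f : ℕ → ℂ) : ‖NN T M (k - 1) f‖ ≤ (1 + e) * ‖NN T M 1 f‖ ^ (k - 1) ∨
      ∃ v ∈ Finset.range (JJ T + 1), 1 ≤ Qb T M v f := by
  by_cases hgood : ∀ j ∈ Finset.range (JJ T + 1), ‖Pj M (Sj T M (JJ T) j) f‖ ≤ KK M (JJ T) j
  · left
    have e2 : ∀ α : ℝ, ‖NN T M α f‖ = ∏ j ∈ Finset.range (JJ T + 1),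
        ‖Ntr (ll M (JJ T) j) α (Pj M (Sj T M (JJ T) j) f)‖ := by
      intro α
      rw [NN, Asm.norm_AA T M (JJ T) α (Finset.Subset.refl _) (Finset.empty_subset _),
        Finset.prod_empty, mul_one]
    rw [e2, e2, ← Real.finsetProd_rpow _ _ (fun j _ => norm_nonneg _)]
    have h0 : ∀ j, 0 ≤ 4 * Real.exp (-KK M (JJ T) j) := fun j => by positivity
    have h1 : ∏ j ∈ Finset.range (JJ T + 1), (1 + 4 * Real.exp (-KK M (JJ T) j)) ≤ 1 + e := by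
      refine (Asm.prod_one_add_le h0 ?_).trans ?_
      · rw [← Finset.mul_sum]; linarith
      · rw [← Finset.mul_sum]; linarith
    calc ∏ j ∈ Finset.range (JJ T + 1), ‖Ntr (ll M (JJ T) j) (k - 1) (Pj M (Sj T M (JJ T) j) f)‖
        ≤ ∏ j ∈ Finset.range (JJ T + 1), ((1 + 4 * Real.exp (-KK M (JJ T) j)) *
          ‖Ntr (ll M (JJ T) j) 1 (Pj M (Sj T M (JJ T) j) f)‖ ^ (k - 1)) := by
          refine Finset.prod_le_prod (fun j _ => norm_nonneg _) fun j hj => ?_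
          have hjJ : j ≤ JJ T := by
            have := Finset.mem_range.1 hj
            omega
          exact ratio1 (ll M (JJ T) j) hk0 hk1 (Len.KK_ge_one hjJ) (Nat.le_ceil _) (hgood j hj)
      _ = (∏ j ∈ Finset.range (JJ T + 1), (1 + 4 * Real.exp (-KK M (JJ T) j))) *
          ∏ j ∈ Finset.range (JJ T + 1),
            ‖Ntr (ll M (JJ T) j) 1 (Pj M (Sj T M (JJ T) j) f)‖ ^ (k - 1) :=
          Finset.prod_mul_distrib
      _ ≤ _ := by
          apply mul_le_mul_of_nonneg_right h1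
          exact Finset.prod_nonneg fun j _ => Real.rpow_nonneg (norm_nonneg _) _
  · right
    push Not at hgood
    obtain ⟨v, hv, hPv⟩ := hgood
    have hvJ : v ≤ JJ T := by
      have := Finset.mem_range.1 hv
      omega
    exact ⟨v, hv, one_le_bad (rr M (JJ T) v) (Len.KK_ge_one hvJ) hPv.le⟩

theorem fixed {η T k Cc κ C₅ Ca Cu Cz : ℝ} {M : ℕ} (hη0 : 0 < η) (hη : η ≤ 1 / 200)
    (hT3 : 3 ≤ T) (hk : 1 ≤ k) (hk1 : k ≤ 11 / 10) (hM4 : 4 ≤ M) (hCc : 0 < Cc) (hκ : 0 < κ)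
    (hCa : 0 < Ca) (hCu : 0 < Cu)
    (hN : ∀ α : ℝ, |α| ≤ 1 → ∀ g h : Finset ℕ,
      DP (T ^ (1 / 4 : ℝ)) (T ^ (1 / 4 : ℝ)) (AA T M (JJ T) α g h))
    (crude : ∀ τ : ℝ, |τ| ≤ 2 * T → ∀ g h : Finset ℕ, g ∪ h = Finset.range (JJ T + 1) →
      EG T τ (fun t => ‖riemannZeta (1 / 2 + t * I)‖ ^ 2 *
        ‖AA T M (JJ T) (k - 1) g h (fs (1 / 2 + t * I))‖ ^ 2) ≤
        Real.exp (Cc * M) * (Real.log T) ^ (k ^ 2) * ∏ j ∈ h, ss M (JJ T) j + T ^ (-κ))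
    (sec : ∀ τ : ℝ, T / Real.log T ≤ |τ| → |τ| ≤ 3 / 2 * T →
      |EG T τ (fun t => ‖riemannZeta (1 / 2 + t * I)‖ ^ 2 *
        ‖NN T M (k - 1) (fs (1 / 2 + t * I))‖ ^ 2) -
      (Real.log T) ^ (k ^ 2)| ≤ η / 2 * (Real.log T) ^ (k ^ 2))
    (hprod : T⁻¹ * ∫ t in (0 : ℝ)..T, ‖NN T M (k - 1) (fs (1 / 2 + t * I))‖ ^ 2 *
      ‖NN T M 1 (fs (1 / 2 + t * I))‖ ^ 2 ≤ C₅ * (Real.log T) ^ (k ^ 2))
    (avg : ∀ F : ℝ → ℂ, Continuous F →
      (∀ t, ‖F t‖ ≤ T ^ 4 * (1 + |t|) ^ 4) → ∀ (D : ℂ) (E B : ℝ), 0 ≤ E → 1 ≤ B →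
      (∀ τ : ℝ, T / Real.log T ≤ |τ| → |τ| ≤ 3 / 2 * T → ‖EG T τ F - D‖ ≤ E) →
      (∀ τ : ℝ, |τ| ≤ 3 / 2 * T → EG T τ (fun t => ‖F t‖) ≤ B) →
      ‖(T : ℂ)⁻¹ * (∫ t in (0 : ℝ)..T, F t) - D‖ ≤ E + Ca * (‖D‖ + B) / Real.log T)
    (avgu : ∀ F : ℝ → ℝ, Continuous F →
      (∀ t, 0 ≤ F t) → (∀ t, F t ≤ T ^ 4 * (1 + |t|) ^ 4) → ∀ D B : ℝ, 0 ≤ D → 1 ≤ B →
      (∀ τ : ℝ, T / Real.log T ≤ |τ| → |τ| ≤ 3 / 2 * T → EG T τ F ≤ D) →
      (∀ τ : ℝ, |τ| ≤ 3 / 2 * T → EG T τ F ≤ B) →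
      T⁻¹ * (∫ t in (0 : ℝ)..T, F t) ≤ D + Cu * (D + B) / Real.log T)
    (n3 : Ca * (Real.exp (Cc * M) + 4) / Real.log T ≤ η / 8)
    (n7 : ((JJ T : ℝ) + 1) ^ 2 * (T ^ (-κ) + 2 * (Cu * (Real.exp (Cc * M) + 4) / Real.log T)) ≤
      η / 2)
    (n8 : Real.exp (Cc * M - 1 / 4 * Real.exp (3 / 4 * M)) ≤ η / 64)
    (hzb : ∀ t : ℝ, ‖riemannZeta (1 / 2 + t * I)‖ ≤ Cz * (1 + |t|) ^ 2) (hCz1 : 1 ≤ Cz)
    (n9 : Cz ^ 2 ≤ T) (hC5 : 0 < C₅)
    (n10 : C₅ ^ (1 - 1 / k) ≤ 1 + η) :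
    (1 - 100 * η) * (Real.log T) ^ (k ^ 2) ≤
      T⁻¹ * ∫ t in (0 : ℝ)..T, ‖riemannZeta (1 / 2 + t * I)‖ ^ (2 * k) := by
  have hT1 : 1 < T := by linarith
  have hT0 : 0 < T := by linarith
  have hL : 0 < Real.log T := Real.log_pos hT1
  have hM4' : (4 : ℝ) ≤ M := by exact_mod_cast hM4
  set Λ := (Real.log T) ^ (k ^ 2) with hΛd
  have hΛ1 : 1 ≤ Λ := one_le_LL hT3
  have hΛ0 : 0 < Λ := by linarith
  have hα : |k - 1| ≤ 1 := by rw [abs_le]; constructor <;> linarith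
  have hα1 : |(1 : ℝ)| ≤ 1 := by norm_num
  set R := Finset.range (JJ T + 1) with hR
  have hNk : DP (T ^ (1 / 4 : ℝ)) (T ^ (1 / 4 : ℝ)) (NN T M (k - 1)) := hN (k - 1) hα _ _
  have hN1 : DP (T ^ (1 / 4 : ℝ)) (T ^ (1 / 4 : ℝ)) (NN T M 1) := hN 1 hα1 _ _
  obtain ⟨cN, bN⟩ := dp_half hNk
  obtain ⟨cN1, bN1⟩ := dp_half hN1
  have cz := continuous_zeta_half
  have hTk1 : T ^ (-κ) ≤ 1 := Real.rpow_le_one_of_one_le_of_nonpos hT1.le (by linarith)
  have hTk0 : 0 < T ^ (-κ) := Real.rpow_pos_of_pos hT0 _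
  have hT14 : (T ^ (1 / 4 : ℝ)) ^ 2 ≤ T := by
    rw [← Real.rpow_natCast, ← Real.rpow_mul hT0.le]
    calc T ^ (1 / 4 * ((2 : ℕ) : ℝ)) ≤ T ^ (1 : ℝ) :=
          Real.rpow_le_rpow_of_exponent_le hT1.le (by norm_num)
      _ = T := Real.rpow_one T
  set X := Real.exp (Cc * M) with hX
  have hX1 : 1 ≤ X := Real.one_le_exp (by positivity)
  set B := (X + 3) * Λ with hB
  have hB1 : 1 ≤ B := by
    have : 1 * 1 ≤ (X + 3) * Λ := mul_le_mul (by linarith) hΛ1 zero_le_one (by linarith)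
    linarith
  have eB : B = X * Λ + 3 * Λ := by rw [hB]; ring
  -- polynomial growth
  have pol : ∀ t : ℝ, 1 ≤ (1 + |t|) ^ 2 := fun t => one_le_pow₀ (by linarith [abs_nonneg t])
  have hCzT : Cz ≤ T := by nlinarith
  have hnN2 : ∀ t : ℝ, ‖NN T M (k - 1) (fs (1 / 2 + t * I))‖ ^ 2 ≤ T := fun t =>
    le_trans (pow_le_pow_left₀ (norm_nonneg _) (bN t) 2) hT14
  have m2 : ∀ τ : ℝ, |τ| ≤ 2 * T → EG T τ (fun t => ‖riemannZeta (1 / 2 + t * I)‖ ^ 2 *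
      ‖NN T M (k - 1) (fs (1 / 2 + t * I))‖ ^ 2) ≤ X * Λ + Λ := by
    intro τ hτ
    refine (crude τ hτ R ∅ (Finset.union_empty _)).trans ?_
    rw [Finset.prod_empty, mul_one]
    linarith
  have polz : ∀ t : ℝ, ∀ y : ℝ, 0 ≤ y → y ≤ T → ‖riemannZeta (1 / 2 + t * I)‖ ^ 2 * y ≤
      T ^ 4 * (1 + |t|) ^ 4 := by
    intro t y hy0 hy
    calc ‖riemannZeta (1 / 2 + t * I)‖ ^ 2 * y
        ≤ (Cz * (1 + |t|) ^ 2) ^ 2 * T := by
          have := hzb t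
          gcongr
      _ = Cz ^ 2 * T * (1 + |t|) ^ 4 := by ring
      _ ≤ T * T * (1 + |t|) ^ 4 := by gcongr
      _ = T ^ 2 * (1 + |t|) ^ 4 := by ring
      _ ≤ T ^ 4 * (1 + |t|) ^ 4 := by
          gcongr
          · exact hT1.le
          · norm_num
  -- H1
  have cw : Continuous (fun t : ℝ => ‖riemannZeta (1 / 2 + t * I)‖ ^ 2 *
      ‖NN T M (k - 1) (fs (1 / 2 + t * I))‖ ^ 2) := (cz.norm.pow 2).mul (cN.norm.pow 2)
  have H1 : (1 - η) * Λ ≤ ∫ t : ℝ, ‖riemannZeta (1 / 2 + t * I)‖ ^ 2 *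
      ‖NN T M (k - 1) (fs (1 / 2 + t * I))‖ ^ 2 ∂(AV T) := by
    set w : ℝ → ℝ := fun t => ‖riemannZeta (1 / 2 + t * I)‖ ^ 2 *
      ‖NN T M (k - 1) (fs (1 / 2 + t * I))‖ ^ 2 with hw
    have hw0 : ∀ t, 0 ≤ w t := fun t => by simp only [hw]; positivity
    have hwn : ∀ t, ‖((w t : ℝ) : ℂ)‖ = w t := fun t => by
      rw [norm_real, Real.norm_eq_abs, abs_of_nonneg (hw0 t)]
    have hEG : ∀ τ, EG T τ (fun t => ((w t : ℝ) : ℂ)) = ((EG T τ w : ℝ) : ℂ) := by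
      intro τ
      unfold EG
      exact integral_ofReal
    have g1 := avg (fun t => ((w t : ℝ) : ℂ)) (continuous_ofReal.comp cw) (fun t => by
      rw [hwn]
      exact polz t _ (by positivity) (hnN2 t)) ((Λ : ℝ) : ℂ) (η / 2 * Λ) B (by positivity) hB1
      (fun τ h1 h2 => by
        rw [hEG, ← ofReal_sub, norm_real, Real.norm_eq_abs]
        exact sec τ h1 h2)
      (fun τ h1 => by
        simp only [hwn]
        refine (m2 τ (by linarith)).trans ?_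
        linarith)
    have g2 : (T : ℂ)⁻¹ * (∫ t in (0 : ℝ)..T, ((w t : ℝ) : ℂ)) =
        ((∫ t : ℝ, w t ∂(AV T) : ℝ) : ℂ) := by
      rw [← convc_aux hT0]
      exact integral_ofReal
    rw [g2, ← ofReal_sub, norm_real, Real.norm_eq_abs, norm_real, Real.norm_eq_abs,
      abs_of_pos hΛ0] at g1
    have g3 := (abs_le.1 g1).1
    have g4 : Ca * (Λ + B) / Real.log T ≤ η / 8 * Λ := by
      calc Ca * (Λ + B) / Real.log T = Ca * (X + 4) / Real.log T * Λ := by rw [hB]; ring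
        _ ≤ _ := by gcongr
    have : 0 < η * Λ := by positivity
    linarith
  -- H4
  have H4 : ∫ t : ℝ, ‖NN T M (k - 1) (fs (1 / 2 + t * I))‖ ^ 2 *
      ‖NN T M 1 (fs (1 / 2 + t * I))‖ ^ 2 ∂(AV T) ≤ C₅ * Λ := by
    rw [integral_AV hT0, smul_eq_mul]
    exact hprod
  -- H5
  set W := T ^ (-κ) + 2 * (Cu * (X + 4) / Real.log T) with hW
  have hW0 : 0 < W := by positivity
  set q : ℕ → ℝ := fun v => X * ss M (JJ T) v + W with hq
  have hss0 : ∀ v, 0 < ss M (JJ T) v := fun v => Real.exp_pos _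
  have hss1 : ∀ v, ss M (JJ T) v ≤ 1 := by
    intro v
    rw [ss, Real.exp_le_one_iff]
    have : 0 < KK M (JJ T) v := Real.exp_pos _
    linarith
  have H5 : ∀ v ∈ R, ∫ t : ℝ, ‖riemannZeta (1 / 2 + t * I)‖ ^ 2 *
      (‖NN T M (k - 1) (fs (1 / 2 + t * I))‖ * Qb T M v (fs (1 / 2 + t * I))) ^ 2 ∂(AV T) ≤
      q v * Λ := by
    intro v hv
    obtain ⟨cA, bA⟩ := dp_half (hN (k - 1) hα R {v})
    have hA2 : ∀ t : ℝ, ‖AA T M (JJ T) (k - 1) R {v} (fs (1 / 2 + t * I))‖ ^ 2 ≤ T := fun t =>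
      le_trans (pow_le_pow_left₀ (norm_nonneg _) (bA t) 2) hT14
    have e5 : ∀ t : ℝ, ‖NN T M (k - 1) (fs (1 / 2 + t * I))‖ * Qb T M v (fs (1 / 2 + t * I)) =
        ‖AA T M (JJ T) (k - 1) R {v} (fs (1 / 2 + t * I))‖ := fun t => (norm_NN_bad hv _).symm
    simp only [e5]
    rw [integral_AV hT0, smul_eq_mul]
    have hc : ∀ τ : ℝ, |τ| ≤ 2 * T → EG T τ (fun t => ‖riemannZeta (1 / 2 + t * I)‖ ^ 2 *
        ‖AA T M (JJ T) (k - 1) R {v} (fs (1 / 2 + t * I))‖ ^ 2) ≤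
        X * Λ * ss M (JJ T) v + T ^ (-κ) := by
      intro τ hτ
      have := crude τ hτ R {v} (by
        rw [Finset.union_eq_left]; exact Finset.singleton_subset_iff.2 hv)
      rwa [Finset.prod_singleton] at this
    have hDv0 : 0 ≤ X * Λ * ss M (JJ T) v + T ^ (-κ) := by
      have := hss0 v
      positivity
    have hDvB : X * Λ * ss M (JJ T) v + T ^ (-κ) ≤ X * Λ + Λ := by
      have h1 : X * Λ * ss M (JJ T) v ≤ X * Λ * 1 := by
        have := hss1 v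
        gcongr
      linarith
    have g1 := avgu (fun t : ℝ => ‖riemannZeta (1 / 2 + t * I)‖ ^ 2 *
        ‖AA T M (JJ T) (k - 1) R {v} (fs (1 / 2 + t * I))‖ ^ 2)
      ((cz.norm.pow 2).mul (cA.norm.pow 2)) (fun t => by positivity)
      (fun t => polz t _ (by positivity) (hA2 t))
      (X * Λ * ss M (JJ T) v + T ^ (-κ)) B hDv0 hB1 (fun τ _ hτ => hc τ (by linarith))
      (fun τ hτ => (hc τ (by linarith)).trans (by linarith))
    refine g1.trans ?_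
    have g2 : Cu * (X * Λ * ss M (JJ T) v + T ^ (-κ) + B) / Real.log T ≤
        2 * (Cu * (X + 4) / Real.log T) * Λ := by
      calc Cu * (X * Λ * ss M (JJ T) v + T ^ (-κ) + B) / Real.log T
          ≤ Cu * (2 * ((X + 4) * Λ)) / Real.log T := by
            gcongr
            have : 0 < X * Λ := by positivity
            linarith
        _ = _ := by ring
    have g3 : T ^ (-κ) ≤ T ^ (-κ) * Λ := le_mul_of_one_le_right hTk0.le hΛ1
    calc X * Λ * ss M (JJ T) v + T ^ (-κ) +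
          Cu * (X * Λ * ss M (JJ T) v + T ^ (-κ) + B) / Real.log T
        ≤ X * Λ * ss M (JJ T) v + T ^ (-κ) * Λ + 2 * (Cu * (X + 4) / Real.log T) * Λ := by linarith
      _ = q v * Λ := by simp only [hq]; rw [hW]; ring
  -- sums over the blocks
  set E := Real.exp (3 / 4 * (M : ℝ)) with hEd
  have hE4 : 4 ≤ E := by
    have := Real.add_one_le_exp (3 / 4 * (M : ℝ))
    linarith
  have s1 : ∑ j ∈ R, Real.exp (-KK M (JJ T) j) ≤ 2 * Real.exp (-E) := by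
    have h1 := sum_exp_KK (M := M) (J := JJ T) (a := 1) (by rw [one_mul]; linarith) one_pos
    simp only [one_mul] at h1
    exact h1
  have s3 : ∑ j ∈ R, ss M (JJ T) j ≤ 2 * Real.exp (-(1 / 2 * E)) := by
    have h1 := sum_exp_KK (M := M) (J := JJ T) (a := 1 / 2) (by linarith) (by norm_num)
    refine le_trans (le_of_eq ?_) h1
    refine Finset.sum_congr rfl fun j _ => ?_
    rw [ss]
    congr 1; ring
  set w := Real.exp (Cc * M - 1 / 4 * E) with hwd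
  have hw0 : 0 < w := Real.exp_pos _
  have w1 : Real.exp (-E) ≤ w := by
    rw [hwd]; apply Real.exp_le_exp.2
    have : 0 < Cc * M := by positivity
    linarith
  have w3 : X * Real.exp (-(1 / 2 * E)) ≤ w := by
    rw [hX, ← Real.exp_add, hwd]
    apply Real.exp_le_exp.2
    linarith
  have hqs : ∑ v ∈ R, q v ≤ η := by
    simp only [hq]
    rw [Finset.sum_add_distrib, ← Finset.mul_sum, Finset.sum_const, nsmul_eq_mul, hR,
      Finset.card_range]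
    have h1 : X * ∑ j ∈ Finset.range (JJ T + 1), ss M (JJ T) j ≤ 2 * w := by
      calc X * ∑ j ∈ Finset.range (JJ T + 1), ss M (JJ T) j
          ≤ X * (2 * Real.exp (-(1 / 2 * E))) := by gcongr
        _ = 2 * (X * Real.exp (-(1 / 2 * E))) := by ring
        _ ≤ 2 * w := by gcongr
    have h2 : ((JJ T + 1 : ℕ) : ℝ) * W ≤ η / 2 := by
      refine le_trans ?_ n7
      have h3 : (1 : ℝ) ≤ (JJ T : ℝ) + 1 := by
        have : (0 : ℝ) ≤ JJ T := Nat.cast_nonneg _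
        linarith
      have h4 : ((JJ T + 1 : ℕ) : ℝ) ≤ ((JJ T : ℝ) + 1) ^ 2 := by
        push_cast
        nlinarith
      gcongr
    linarith
  have key := core (T := T) hT0 (z := fun t => riemannZeta (1 / 2 + t * I))
    (N := fun t => NN T M (k - 1) (fs (1 / 2 + t * I)))
    (N1 := fun t => NN T M 1 (fs (1 / 2 + t * I)))
    (Q := fun v t => Qb T M v (fs (1 / 2 + t * I))) (R := R) (q := q)
    cz cN cN1 (fun v => cont_Qb hT1 M v) (fun v t => norm_nonneg _)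
    (k := k) (η := η) (e := 16 * w) (C₅ := C₅) (Λ := Λ) hk (by linarith) hη0 hη (by positivity)
    (by nlinarith) hΛ0 hC5 n10
    (fun t => good_or_bad hk hk1 (by linarith) (by linarith) _)
    H1 H4 H5 hqs
  rw [integral_AV hT0, smul_eq_mul] at key
  exact key

lemma exists_kcR {C η : ℝ} (hC : 1 ≤ C) (hη : 0 < η) : ∃ kc : ℝ, 1 < kc ∧ kc ≤ 11 / 10 ∧
    ∀ k, 1 ≤ k → k ≤ kc → C ^ (1 - 1 / k) ≤ 1 + η := by
  have hlC : 0 ≤ Real.log C := Real.log_nonneg hC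
  have hlη : 0 < Real.log (1 + η) := Real.log_pos (by linarith)
  set x₀ := Real.log (1 + η) / (Real.log C + 1) with hx₀
  have hx0 : 0 < x₀ := by positivity
  refine ⟨min (11 / 10) (1 + x₀), lt_min (by norm_num) (by linarith), min_le_left _ _,
    fun k hk hk1 => ?_⟩
  have hkx : k ≤ 1 + x₀ := hk1.trans (min_le_right _ _)
  have hk0 : 0 < k := by linarith
  have h1 : 1 - 1 / k ≤ x₀ := by
    have h3 : 1 - 1 / k ≤ k - 1 := by
      have h4 : (k - 1) - (1 - 1 / k) = (k - 1) ^ 2 / k := by field_simp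
      have h5 : 0 ≤ (k - 1) ^ 2 / k := by positivity
      linarith
    linarith
  have h2 : x₀ * Real.log C ≤ Real.log (1 + η) := by
    calc x₀ * Real.log C ≤ x₀ * (Real.log C + 1) := by
          gcongr; linarith
      _ = Real.log (1 + η) := by rw [hx₀]; field_simp
  calc C ^ (1 - 1 / k) ≤ C ^ x₀ := Real.rpow_le_rpow_of_exponent_le hC h1
    _ = Real.exp (x₀ * Real.log C) := by
        rw [Real.rpow_def_of_pos (by linarith), mul_comm]
    _ ≤ Real.exp (Real.log (1 + η)) := Real.exp_le_exp.2 h2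
    _ = 1 + η := Real.exp_log (by linarith)

end LowerR

open LowerR K1.Lower in
theorem stLowerR (h13 : StShort) (h14 : StCrudeR) (h15 : StSecondR) (hP : StProdR)
    (h21 : StAvg) (h21' : StAvgUp) : StLowerR := by
  intro ε hε
  set η : ℝ := min ε (1 / 2) / 100 with hηd
  have hη0 : 0 < η := by
    have : 0 < min ε (1 / 2) := lt_min hε (by norm_num)
    positivity
  have hη1 : η ≤ 1 / 200 := by
    have := min_le_right ε (1 / 2)
    rw [hηd]; linarith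
  have hηε : 100 * η ≤ ε := by
    have := min_le_left ε (1 / 2)
    rw [hηd]; linarith
  obtain ⟨Ma, hMa⟩ := h13 (1 / 4) (by norm_num)
  obtain ⟨Cc, κ, hCc, hκ, Mb, hMb⟩ := h14
  obtain ⟨Md, hMd⟩ := h15 (η / 2) (by positivity)
  obtain ⟨Mf, hMf⟩ := hP
  obtain ⟨M, ⟨⟨⟨⟨⟨m1, m2⟩, m3⟩, m4⟩, m5⟩, m6⟩⟩ :=
    ((((((eventually_ge_atTop Ma).and (eventually_ge_atTop Mb)).and (eventually_ge_atTop Md)).and
      (eventually_ge_atTop Mf)).and (eventually_ge_atTop 4)).and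
      (ev_M Cc (η / 64) (by positivity))).exists
  obtain ⟨T1, -, short⟩ := hMa M m1
  obtain ⟨T2, -, crude⟩ := hMb M m2
  obtain ⟨ka, hka1, hka2, T3, -, sec⟩ := hMd M m3
  obtain ⟨C4, T5, hC4, -, hprod⟩ := hMf M m4
  obtain ⟨Ca, T7, hCa, -, avg⟩ := h21
  obtain ⟨Cu, T8, hCu, -, avgu⟩ := h21'
  obtain ⟨Cz, hCz, hzb⟩ := zeta_poly_half
  obtain ⟨kc, hkc, hkc1, hC5⟩ := exists_kcR (C := C4 + 1) (η := η) (by linarith) hη0
  set X := Real.exp (Cc * M) with hX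
  have hX0 : 0 < X := Real.exp_pos _
  have hev : ∀ᶠ T : ℝ in atTop, ∀ k : ℝ, 1 ≤ k → k ≤ min ka kc →
      (1 - ε) * (Real.log T) ^ (k ^ 2) ≤
        T⁻¹ * ∫ t in (0 : ℝ)..T, ‖riemannZeta (1 / 2 + t * I)‖ ^ (2 * k) := by
    filter_upwards [eventually_ge_atTop T1, eventually_ge_atTop T2, eventually_ge_atTop T3,
      eventually_ge_atTop T5, eventually_ge_atTop T7,
      eventually_ge_atTop T8, eventually_ge_atTop 3,
      eventually_ge_atTop ((max Cz 1) ^ 2),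
      ev_div_log (Ca * (X + 4)) (η / 8) (by positivity), ev_neg_pow hκ one_pos,
      ev_JJ (1 + 2 * (Cu * (X + 4))) (η / 2) (by positivity) (by positivity)]
      with T t1 t2 t3 t5 t7 t8 t33 tz9 n3 n7a n7b k hk hk1
    have hka : k ≤ ka := hk1.trans (min_le_left _ _)
    have hkc' : k ≤ kc := hk1.trans (min_le_right _ _)
    have hT1 : 1 < T := by linarith
    have hT0 : 0 < T := by linarith
    have hL : 0 < Real.log T := Real.log_pos hT1
    have hΛ0 : 0 < (Real.log T) ^ (k ^ 2) := Real.rpow_pos_of_pos hL _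
    have n7 : ((JJ T : ℝ) + 1) ^ 2 * (T ^ (-κ) + 2 * (Cu * (X + 4) / Real.log T)) ≤
        η / 2 := by
      refine le_trans ?_ n7b
      have h1 : T ^ (-κ) + 2 * (Cu * (X + 4) / Real.log T) ≤
          (1 + 2 * (Cu * (X + 4))) / Real.log T := by
        have e1 : (1 + 2 * (Cu * (X + 4))) / Real.log T =
            1 / Real.log T + 2 * (Cu * (X + 4) / Real.log T) := by ring
        rw [e1]
        linarith
      gcongr
    have key := fixed (η := η) (T := T) (k := k) (Cc := Cc) (κ := κ)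
      (C₅ := C4 + 1) (Ca := Ca) (Cu := Cu) (Cz := max Cz 1) (M := M) hη0 hη1 t33 hk
      (hka.trans hka2) m5
      hCc hκ hCa hCu (short T t1) (fun τ hτ g h hgh => crude T t2 τ hτ k hk (hka.trans hka2) g h hgh)
      (fun τ h1 h2 => sec T t3 k hk hka τ h1 h2)
      ((hprod T t5 k hk (hka.trans hka2)).trans (by nlinarith))
      (avg T t7) (avgu T t8) n3 n7 m6
      (fun t => (hzb t).trans (by
        have := le_max_left Cz 1
        gcongr)) (le_max_right _ _) tz9 (by positivity) (hC5 k hk hkc')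
    refine le_trans ?_ key
    apply mul_le_mul_of_nonneg_right _ hΛ0.le
    linarith
  obtain ⟨T0, hT0⟩ := eventually_atTop.mp hev
  exact ⟨min ka kc, lt_min hka1 hkc, (min_le_left _ _).trans hka2, max T0 3, le_max_right _ _,
    fun T hT k hk hk1 => hT0 T ((le_max_left _ _).trans hT) k hk hk1⟩

end K1R
end Pool.Agent.Lib.MP_973905_nt
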