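import Pool.Agent.Lib.MP_973905_nt.K1.Crude
import Pool.Agent.Lib.MP_973905_nt.K1.Fourth
import Pool.Agent.Lib.MP_973905_nt.K1R.Stmts

/-! Module (P): the second moment of `N(k-1) N(1)`. -/

namespace Pool.Agent.Lib.MP_973905_nt
namespace K1R

open MeasureTheory ProbabilityTheory Complex Filter Topology K1

namespace PrM

open XB K1.Crude

/-- Good blocks without zeta, two polynomials. -/
lemma good_blockP : ∃ C : ℝ, 0 ≤ C ∧ ∀ (A l : ℕ) (S : Finset ℕ) (k : ℝ), 1 ≤ A → 1 ≤ k → k ≤ 2 →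
    (∀ p ∈ S, p.Prime) →
    ES S (fun f => ‖Ntr l (k - 1) (Pj A S (tw ((1 / 2 : ℝ) : ℂ) f))‖ ^ 2 *
      ‖Ntr l 1 (Pj A S (tw ((1 / 2 : ℝ) : ℂ) f))‖ ^ 2) ≤
      Real.exp (∑ p ∈ S, (k ^ 2 * (1 / p) + C * ((p : ℝ) ^ 2)⁻¹)) *
      Real.exp (98 * Real.exp (-l + C * ∑ p ∈ S, (1 : ℝ) / p)) := by
  obtain ⟨C1, hC1, h1⟩ := ES_exp 2
  obtain ⟨C2, hC2, h2⟩ := ES_exp_norm (q := 4) (by norm_num)
  refine ⟨C1 + C2, by positivity, fun A l S k hA hk1 hk2 hS => ?_⟩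
  have hα : |k - 1| ≤ 1 := by rw [abs_le]; constructor <;> linarith
  have hα' : |(1 : ℝ)| ≤ 1 := by norm_num
  have hy : ∀ p ∈ S, yp (((1 / 2 : ℝ) : ℂ)).re (1 / 2) p ≤ 3 / 4 := by
    intro p hp
    rw [ofReal_re]
    exact (yp_half (hS p hp)).1
  set η := Real.exp (-(l : ℝ)) with hη
  have hη0 : 0 < η := Real.exp_pos _
  have hη1 : η ≤ 1 := by rw [hη, Real.exp_le_one_iff]; linarith [Nat.cast_nonneg (α := ℝ) l]
  set P : (ℕ → ℂ) → ℂ := fun f => Pj A S (tw ((1 / 2 : ℝ) : ℂ) f) with hP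
  have bP : BS S P := bs_Pj A S S _
  set F1 : (ℕ → ℂ) → ℝ := fun f => ‖(ZZ S (tw ((1 / 2 : ℝ) : ℂ) f)) ^ 0 * cexp ((k : ℂ) * P f)‖ ^ 2 with hF1
  set F2 : (ℕ → ℂ) → ℝ := fun f => ‖(ZZ S (tw ((1 / 2 : ℝ) : ℂ) f)) ^ 0‖ ^ 2 * Real.exp (4 * ‖P f‖) ^ 2 with hF2
  have bZ : BS S (fun f => ZZ S (tw ((1 / 2 : ℝ) : ℂ) f)) := bs_ZZ hS (by rw [ofReal_re]; norm_num)
  have b1 : BS S F1 := ((bZ.pow 0).mul ((bs_const S _).mul bP).cexp).norm_sq
  have b2 : BS S F2 := BS.mulR (bZ.pow 0).norm_sq (BS.expnorm bP (by norm_num))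
  have b1' : BS S (fun f => (1 + 2 * η) * F1 f) := BS.mulR (bs_const S _) b1
  have b2' : BS S (fun f => (6 * η) * F2 f) := BS.mulR (bs_const S _) b2
  have g1 := h1 A 0 S ((1 / 2 : ℝ) : ℂ) (k : ℂ) (1 / 2) hA (by norm_num)
    (by rw [norm_real, Real.norm_eq_abs, abs_le]; constructor <;> linarith) hS hy
  have g2 := h2 A 0 S ((1 / 2 : ℝ) : ℂ) (1 / 2) hA (by norm_num) (by rw [ofReal_re]; norm_num) hS hy
  have step : ES S (fun f => ‖Ntr l (k - 1) (P f)‖ ^ 2 * ‖Ntr l 1 (P f)‖ ^ 2) ≤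
      ES S (fun f => (1 + 2 * η) * F1 f + (6 * η) * F2 f) := by
    apply ES_mono
    · intro ω; positivity
    · exact (BS.add b1' b2').integrable
    · intro ω
      set f := ext S ω
      have ht := Ntr_tail l hα (P f)
      have ht' := Ntr_tail l hα' (P f)
      have hb := norm_Ntr_le l hα (P f)
      set e₁ := cexp (((1 : ℝ) : ℂ) * P f) with he₁
      set e₂ := cexp (((k - 1 : ℝ) : ℂ) * P f) with he₂
      set N₁ := Ntr l 1 (P f) with hN₁
      set N₂ := Ntr l (k - 1) (P f) with hN₂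
      set x := ‖P f‖ with hx
      have hx0 : 0 ≤ x := norm_nonneg _
      have he₁n : ‖e₁‖ ≤ Real.exp x := by
        rw [he₁, norm_exp]
        apply Real.exp_le_exp.2
        have := re_le_norm (((1 : ℝ) : ℂ) * P f)
        rw [norm_mul, norm_real] at this
        simpa using this
      have he₁₂ : e₁ * e₂ = cexp ((k : ℂ) * P f) := by
        rw [he₁, he₂, ← exp_add]
        congr 1
        push_cast; ring
      have h44 : Real.exp (4 * x) = Real.exp (3 * x) * Real.exp x := by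
        rw [← Real.exp_add]; congr 1; ring
      have hprod : ‖N₁ * N₂ - e₁ * e₂‖ ≤ 2 * (η * Real.exp (4 * x)) := by
        have e : N₁ * N₂ - e₁ * e₂ = -((e₁ - N₁) * N₂) - e₁ * (e₂ - N₂) := by ring
        rw [e]
        refine (norm_sub_le _ _).trans ?_
        rw [norm_neg, norm_mul, norm_mul]
        have q1 : ‖e₁ - N₁‖ * ‖N₂‖ ≤ (η * Real.exp (3 * x)) * Real.exp x :=
          mul_le_mul ht' hb (norm_nonneg _) (by positivity)
        have q2 : ‖e₁‖ * ‖e₂ - N₂‖ ≤ Real.exp x * (η * Real.exp (3 * x)) :=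
          mul_le_mul he₁n ht (norm_nonneg _) (by positivity)
        rw [h44]
        nlinarith
      set a := ‖cexp ((k : ℂ) * P f)‖ with ha
      set s := Real.exp (4 * x) with hs
      have hs0 : 0 < s := Real.exp_pos _
      have ha0 : 0 ≤ a := norm_nonneg _
      have hn : ‖N₁ * N₂‖ ≤ a + 2 * (η * s) := by
        have := norm_sub_norm_le (N₁ * N₂) (e₁ * e₂)
        rw [he₁₂] at this hprod
        linarith
      have h3 : ‖N₂‖ ^ 2 * ‖N₁‖ ^ 2 ≤ (1 + 2 * η) * a ^ 2 + 6 * η * s ^ 2 := by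
        rw [mul_comm (‖N₂‖ ^ 2), ← mul_pow, ← norm_mul]
        calc ‖N₁ * N₂‖ ^ 2 ≤ (a + 2 * (η * s)) ^ 2 :=
              pow_le_pow_left₀ (norm_nonneg _) hn 2
          _ ≤ _ := by
            nlinarith [sq_nonneg (a - s), mul_nonneg hη0.le (sq_nonneg (a - s)),
              mul_nonneg (mul_nonneg hη0.le (sub_nonneg.2 hη1)) (sq_nonneg s)]
      have e1 : F1 f = a ^ 2 := by
        simp only [hF1, pow_zero, one_mul, ha]
      have e2 : F2 f = s ^ 2 := by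
        simp only [hF2, pow_zero, norm_one, one_pow, one_mul, hs, hx]
      rw [e1, e2]
      exact h3
  have e3 : ES S (fun f => (1 + 2 * η) * F1 f + (6 * η) * F2 f) =
      (1 + 2 * η) * ES S F1 + (6 * η) * ES S F2 := by
    rw [XB.ES_add b1' b2', XB.ES_const_mul, XB.ES_const_mul]
  rw [e3] at step
  refine step.trans ?_
  set Y := ∑ p ∈ S, (1 : ℝ) / p with hY
  have hY0 : 0 ≤ Y := Finset.sum_nonneg fun p _ => by positivity
  set E := ∑ p ∈ S, (k ^ 2 * (1 / p) + (C1 + C2) * ((p : ℝ) ^ 2)⁻¹) with hE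
  have hE0 : 0 ≤ E := Finset.sum_nonneg fun p _ => by positivity
  have g1' : ES S F1 ≤ Real.exp E := by
    refine g1.trans (Real.exp_le_exp.2 ?_)
    rw [hE]
    refine Finset.sum_le_sum fun p hp => ?_
    obtain ⟨y1, y2, y4⟩ := yp_half (hS p hp)
    have hp0 : (0 : ℝ) < p := by exact_mod_cast (hS p hp).pos
    rw [ofReal_re, y4]
    have e : ‖((0 : ℕ) : ℂ) * (p : ℂ) ^ (-(((1 / 2 : ℝ) : ℂ))) + (k : ℂ) *
        (((p : ℝ) ^ (-(1 / 2 : ℝ)) : ℝ) : ℂ)‖ ^ 2 = k ^ 2 * (1 / p) := by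
      rw [Nat.cast_zero, zero_mul, zero_add, norm_mul, mul_pow, norm_real, norm_real,
        Real.norm_eq_abs, Real.norm_eq_abs, sq_abs, sq_abs, ← y2, yp, max_self]
    rw [e]
    gcongr
    linarith
  have g2' : ES S F2 ≤ 16 * Real.exp ((C1 + C2) * Y) := by
    refine g2.trans ?_
    have e : ∑ p ∈ S, yp (((1 / 2 : ℝ) : ℂ)).re (1 / 2) p ^ 2 = Y := by
      rw [hY]
      refine Finset.sum_congr rfl fun p hp => ?_
      rw [ofReal_re]
      exact (yp_half (hS p hp)).2.1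
    rw [e]
    gcongr
    linarith
  have hexpE : 1 ≤ Real.exp E := Real.one_le_exp hE0
  have hexpY : 1 ≤ Real.exp ((C1 + C2) * Y) := Real.one_le_exp (by positivity)
  rw [Real.exp_add, ← hη]
  calc (1 + 2 * η) * ES S F1 + 6 * η * ES S F2
      ≤ (1 + 2 * η) * Real.exp E + 6 * η * (16 * Real.exp ((C1 + C2) * Y)) := by gcongr
    _ ≤ Real.exp E * (98 * (η * Real.exp ((C1 + C2) * Y)) + 1) := by
        have h5 : η * 1 ≤ η * Real.exp ((C1 + C2) * Y) := by gcongr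
        have h6 : η * Real.exp ((C1 + C2) * Y) * 1 ≤ η * Real.exp ((C1 + C2) * Y) * Real.exp E := by
          gcongr
        nlinarith
    _ ≤ _ := by
        gcongr
        exact Real.add_one_le_exp _

/-- The second moment of a product factorises. -/
lemma ER_factorP {T : ℝ} (hT : 1 < T) (M J : ℕ) (α α' : ℝ) (g h g' h' : Finset ℕ) (w₂ : ℂ) :
    ER (SB T M J) (fun f => ‖AA T M J α g h (tw w₂ f)‖ ^ 2 * ‖AA T M J α' g' h' (tw w₂ f)‖ ^ 2) =
    ∏ j ∈ Finset.range (J + 1), ES (Sj T M J j) (fun f => ‖Fc T M J α g h j (tw w₂ f)‖ ^ 2 *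
      ‖Fc T M J α' g' h' j (tw w₂ f)‖ ^ 2) := by
  have hB := blk_SB hT M J
  set G : ℕ → (ℕ → ℂ) → ℝ := fun j f =>
    (if j < J + 1 then ‖Fc T M J α g h j (tw w₂ f)‖ ^ 2 * ‖Fc T M J α' g' h' j (tw w₂ f)‖ ^ 2
      else 1) with hG
  have h1 : ∀ f : ℕ → ℂ, ‖AA T M J α g h (tw w₂ f)‖ ^ 2 * ‖AA T M J α' g' h' (tw w₂ f)‖ ^ 2 =
      ∏ j : Fin (J + 2), G j f := by
    intro f
    have e2 : ∀ (α : ℝ) (g h : Finset ℕ), AA T M J α g h (tw w₂ f) = ∏ j : Fin (J + 2),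
        (if (j : ℕ) < J + 1 then Fc T M J α g h j (tw w₂ f) else 1) := by
      intro α g h
      rw [← Finset.prod_range (fun j => if j < J + 1 then Fc T M J α g h j (tw w₂ f) else 1),
        Finset.prod_range_succ, if_neg (lt_irrefl _), mul_one, AA]
      refine Finset.prod_congr rfl fun j hj => ?_
      rw [if_pos (Finset.mem_range.1 hj)]
    rw [e2, e2, norm_prod, norm_prod, ← Finset.prod_pow, ← Finset.prod_pow,
      ← Finset.prod_mul_distrib]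
    refine Finset.prod_congr rfl fun j _ => ?_
    simp only [hG]
    split_ifs <;> simp
  have h2 : ER (SB T M J) (fun f => ‖AA T M J α g h (tw w₂ f)‖ ^ 2 *
        ‖AA T M J α' g' h' (tw w₂ f)‖ ^ 2) =
      ER (SB T M J) (fun f => ∏ j : Fin (J + 2), G j f) := by
    congr 1
    funext f
    exact h1 f
  rw [h2, ER_prod hB (fun j : Fin (J + 2) => G j)]
  · rw [show (∏ j : Fin (J + 2), ES (SB T M J j) (G j)) =
      ∏ j : Fin (J + 2), ES (Sj T M J j) (G j) from rfl,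
      ← Finset.prod_range (fun j => ES (Sj T M J j) (G j)), Finset.prod_range_succ]
    have h3 : ES (Sj T M J (J + 1)) (G (J + 1)) = 1 := by
      simp only [hG, if_neg (lt_irrefl _), ES]
      simp
    rw [h3, mul_one]
    refine Finset.prod_congr rfl fun j hj => ?_
    simp only [hG, if_pos (Finset.mem_range.1 hj)]
  · intro j f f' hff
    have h3 : ∀ w, ∀ p ∈ Sj T M J j, tw w f p = tw w f' p := fun w => tw_congr w hff
    simp only [hG]
    rw [Fc_congr (α := α) (h3 w₂), Fc_congr (α := α') (h3 w₂)]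

/-- Random second moment of a product of two polynomials on the critical line. -/
lemma coreP : ∃ C : ℝ, 0 < C ∧ ∃ M₀ : ℕ, 1 ≤ M₀ ∧ ∀ M : ℕ, M₀ ≤ M →
    ∃ T₀ : ℝ, 3 ≤ T₀ ∧ ∀ T, T₀ ≤ T → ∀ k : ℝ, 1 ≤ k → k ≤ 2 →
    ER (SB T M (JJ T)) (fun f => ‖NN T M (k - 1) (tw ((1 / 2 : ℝ) : ℂ) f)‖ ^ 2 *
        ‖NN T M 1 (tw ((1 / 2 : ℝ) : ℂ) f)‖ ^ 2) ≤
      Real.exp C * (Real.log T) ^ (k ^ 2) := by
  obtain ⟨Cg, hCg, good⟩ := good_blockP
  obtain ⟨Cs, hCs, hS0⟩ := sum_inv_S0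
  obtain ⟨Cr, hCr, hrange⟩ := sum_inv_block
  obtain ⟨C3, hC3, hinv⟩ := sum_inv
  set C := 4 * C3 + 2 * Cg + 490 * Real.exp (2 * Cg) with hC
  refine ⟨C, by positivity, 1, le_rfl, fun M hM1 => ?_⟩
  have hM1' : (1 : ℝ) ≤ M := by exact_mod_cast hM1
  set D := Cr + Cg * (1 + Cs) with hD
  obtain ⟨T₀, hT₀, hev⟩ := eventually_T M 0 D 0
  refine ⟨T₀, hT₀, fun T hT k hk1 hk2 => ?_⟩
  obtain ⟨hb1, _, hbet, hK0, _⟩ := hev T hT
  have hT3 : 3 ≤ T := hT₀.trans hT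
  have hT1 : 1 < T := by linarith
  have hT0 : 0 < T := by linarith
  have hL : 0 < Real.log T := Real.log_pos hT1
  set J := JJ T with hJ
  set L := Real.log T with hLdef
  set b := Real.log L with hb
  have hDC : Cr ≤ D := by
    have : 0 ≤ Cg * (1 + Cs) := by positivity
    linarith
  obtain ⟨hj, htop⟩ := hrange T hT3 M J (hDC.trans hbet)
  set Y : ℕ → ℝ := fun j => ∑ p ∈ Sj T M J j, (1 : ℝ) / p with hY
  have hY0 : Y 0 ≤ b + Cs := hS0 T hT3 M J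
  have hYj : ∀ j, 1 ≤ j → j ≤ J → Y j ≤ 2 := fun j h1 h2 => hj j h1 h2
  have hK0' : Cg * (b + Cs) ≤ KK M J 0 := by
    refine le_trans ?_ hK0
    have h3 : b + Cs ≤ (1 + Cs) * (b + 1) := by nlinarith
    have h4 : Cg * (b + Cs) ≤ Cg * ((1 + Cs) * (b + 1)) := by gcongr
    have h5 : Cg * (1 + Cs) * (b + 1) ≤ D * (b + 1) := by
      gcongr
      linarith
    calc _ ≤ Cg * ((1 + Cs) * (b + 1)) := h4
      _ = Cg * (1 + Cs) * (b + 1) := by ring
      _ ≤ _ := h5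
  have hgood : ∀ j, j ≤ J → Real.exp (-(ll M J j : ℝ) + Cg * Y j) ≤
      Real.exp (2 * Cg) * Real.exp (-KK M J j) := by
    intro j hjJ
    rw [← Real.exp_add]
    apply Real.exp_le_exp.2
    have hKpos := Len.KK_ge_one (M := M) hjJ
    have hl : 10 * KK M J j ≤ ll M J j := Nat.le_ceil _
    rcases Nat.eq_zero_or_pos j with rfl | hpos
    · have h1 : Cg * Y 0 ≤ Cg * (b + Cs) := by gcongr
      linarith
    · have h1 : Cg * Y j ≤ Cg * 2 := by
        have := hYj j hpos hjJ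
        gcongr
      linarith
  -- the exponents
  set F : ℕ → ℝ := fun p => k ^ 2 * (1 / p) + Cg * ((p : ℝ) ^ 2)⁻¹ with hF
  have hF0 : ∀ p, 0 ≤ F p := by
    intro p
    simp only [hF]
    positivity
  have hsum : ∑ j ∈ Finset.range (J + 1), ∑ p ∈ Sj T M J j, F p ≤
      k ^ 2 * b + (4 * C3 + 2 * Cg) := by
    have h2 := sum_blocks_le hT1 M J (subset_refl (Finset.range (J + 1))) F hF0
    refine h2.trans ?_
    have hyy1 : 1 ≤ yy T M J (J + 1) := by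
      rw [Len.yy_succ (le_refl J)]
      exact Real.one_le_exp (mul_nonneg (bet_pos _ _ _).le hL.le)
    have hyyT : yy T M J (J + 1) ≤ T := yy_le hT1 M J (by omega)
    have hsub : PS 0 (yy T M J (J + 1)) ⊆ PS 0 T := PS_mono (by linarith) hyyT
    have s1 : ∑ p ∈ PS 0 (yy T M J (J + 1)), (1 : ℝ) / p ≤ b + C3 := by
      have h3 := (abs_le.1 (hinv T (by linarith))).2
      have h4 := Finset.sum_le_sum_of_subset_of_nonneg hsub
        (f := fun p : ℕ => (1 : ℝ) / p) (fun _ _ _ => by positivity)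
      linarith
    have s4 : ∑ p ∈ PS 0 (yy T M J (J + 1)), ((p : ℝ) ^ 2)⁻¹ ≤ 2 :=
      sum_inv_sq fun p hp => prime_PS hp
    have e : ∑ p ∈ PS 0 (yy T M J (J + 1)), F p =
        k ^ 2 * ∑ p ∈ PS 0 (yy T M J (J + 1)), (1 : ℝ) / p +
        Cg * ∑ p ∈ PS 0 (yy T M J (J + 1)), ((p : ℝ) ^ 2)⁻¹ := by
      simp only [hF, Finset.sum_add_distrib, ← Finset.mul_sum]
    rw [e]
    have hk4 : k ^ 2 ≤ 4 := by nlinarith
    have u1 : k ^ 2 * ∑ p ∈ PS 0 (yy T M J (J + 1)), (1 : ℝ) / p ≤ k ^ 2 * b + 4 * C3 := by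
      calc _ ≤ k ^ 2 * (b + C3) := by gcongr
        _ ≤ k ^ 2 * b + 4 * C3 := by
            rw [mul_add]; gcongr
    have u5 : Cg * ∑ p ∈ PS 0 (yy T M J (J + 1)), ((p : ℝ) ^ 2)⁻¹ ≤ 2 * Cg := by
      calc _ ≤ Cg * 2 := by gcongr
        _ = _ := by ring
    linarith
  -- assembling
  unfold NN
  rw [← hJ, ER_factorP hT1]
  have hnn : ∀ j, 0 ≤ ES (Sj T M J j) (fun f =>
      ‖Fc T M J (k - 1) (Finset.range (J + 1)) ∅ j (tw ((1 / 2 : ℝ) : ℂ) f)‖ ^ 2 *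
      ‖Fc T M J 1 (Finset.range (J + 1)) ∅ j (tw ((1 / 2 : ℝ) : ℂ) f)‖ ^ 2) :=
    fun j => integral_nonneg fun ω => by positivity
  have hprod : ∏ j ∈ Finset.range (J + 1), ES (Sj T M J j) (fun f =>
      ‖Fc T M J (k - 1) (Finset.range (J + 1)) ∅ j (tw ((1 / 2 : ℝ) : ℂ) f)‖ ^ 2 *
      ‖Fc T M J 1 (Finset.range (J + 1)) ∅ j (tw ((1 / 2 : ℝ) : ℂ) f)‖ ^ 2) ≤
      Real.exp (∑ j ∈ Finset.range (J + 1),
        (∑ p ∈ Sj T M J j, F p + 98 * (Real.exp (2 * Cg) * Real.exp (-KK M J j)))) := by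
    rw [Real.exp_sum]
    refine Finset.prod_le_prod (fun j _ => hnn j) fun j hj => ?_
    have hjJ : j ≤ J := by
      have := Finset.mem_range.1 hj
      omega
    have h1 := good M (ll M J j) (Sj T M J j) k hM1 hk1 hk2 (fun p hp => prime_Sj hT1 hp)
    have e1 : (fun f : ℕ → ℂ =>
        ‖Fc T M J (k - 1) (Finset.range (J + 1)) ∅ j (tw ((1 / 2 : ℝ) : ℂ) f)‖ ^ 2 *
        ‖Fc T M J 1 (Finset.range (J + 1)) ∅ j (tw ((1 / 2 : ℝ) : ℂ) f)‖ ^ 2) =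
        fun f : ℕ → ℂ => ‖Ntr (ll M J j) (k - 1) (Pj M (Sj T M J j) (tw ((1 / 2 : ℝ) : ℂ) f))‖ ^ 2 *
          ‖Ntr (ll M J j) 1 (Pj M (Sj T M J j) (tw ((1 / 2 : ℝ) : ℂ) f))‖ ^ 2 := by
      funext f
      rw [Fc_good hj (Finset.notMem_empty j), Fc_good hj (Finset.notMem_empty j)]
    rw [e1]
    refine h1.trans ?_
    rw [← Real.exp_add]
    apply Real.exp_le_exp.2
    have h2 := hgood j hjJ
    simp only [hF]
    gcongr
  have hsumK : ∑ j ∈ Finset.range (J + 1), Real.exp (-KK M J j) ≤ 5 := XB.sum_exp_KK M J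
  have hexp : ∑ j ∈ Finset.range (J + 1),
        (∑ p ∈ Sj T M J j, F p + 98 * (Real.exp (2 * Cg) * Real.exp (-KK M J j))) ≤
      k ^ 2 * b + (4 * C3 + 2 * Cg) + 490 * Real.exp (2 * Cg) := by
    rw [Finset.sum_add_distrib]
    have h1 : ∑ j ∈ Finset.range (J + 1), 98 * (Real.exp (2 * Cg) * Real.exp (-KK M J j)) ≤
        490 * Real.exp (2 * Cg) := by
      rw [← Finset.mul_sum, ← Finset.mul_sum]
      calc 98 * (Real.exp (2 * Cg) * ∑ j ∈ Finset.range (J + 1), Real.exp (-KK M J j))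
          ≤ 98 * (Real.exp (2 * Cg) * 5) := by gcongr
        _ = _ := by ring
    linarith
  calc _ ≤ Real.exp (k ^ 2 * b + (4 * C3 + 2 * Cg) + 490 * Real.exp (2 * Cg)) := by
        refine hprod.trans ?_
        gcongr
    _ = Real.exp C * L ^ (k ^ 2) := by
        rw [Real.rpow_def_of_pos hL, ← Real.exp_add]
        congr 1
        rw [← hb, hC]
        ring

end PrM

open PrM in
/-- (P) the random second moment of `N(k-1) N(1)` -/
theorem stProdRM : StProdRM := by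
  obtain ⟨C, hC, M₀, hM₀1, hcore⟩ := coreP
  refine ⟨M₀, fun M hM => ?_⟩
  obtain ⟨T₀, hT₀, h⟩ := hcore M hM
  refine ⟨Real.exp C, T₀, Real.exp_pos _, hT₀, fun T hT k hk1 hk2 => ?_⟩
  have h1 := h T hT k hk1 (by linarith)
  have hhalf : ((1 / 2 : ℝ) : ℂ) = 1 / 2 := by push_cast; ring
  rw [hhalf] at h1
  exact h1

open K1.Fourth in
/-- (P) the mean square of `N(k-1) N(1)` on `[0, T]` -/
theorem stProdR (h19 : StProdRM) (h13 : K1.StShort) : StProdR := by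
  obtain ⟨M₁, hM₁⟩ := h19
  obtain ⟨M₂, hM₂⟩ := h13 (1 / 4) (by norm_num)
  refine ⟨max M₁ M₂, fun M hM => ?_⟩
  obtain ⟨C, T₁, hC, hT₁, h1⟩ := hM₁ M ((le_max_left _ _).trans hM)
  obtain ⟨T₂, hT₂, h2⟩ := hM₂ M ((le_max_right _ _).trans hM)
  obtain ⟨T₃, h3⟩ := eventually_atTop.mp (ev_small (δ := 1 / 2) (by norm_num))
  refine ⟨5 * (C + 1), max (max T₁ T₂) T₃, by positivity, hT₁.trans ((le_max_left _ _).trans (le_max_left _ _)),
    fun T hT k hk1 hk2 => ?_⟩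
  have hTT1 : T₁ ≤ T := (le_max_left _ _).trans ((le_max_left _ _).trans hT)
  have hTT2 : T₂ ≤ T := (le_max_right _ _).trans ((le_max_left _ _).trans hT)
  have hTT3 : T₃ ≤ T := (le_max_right _ _).trans hT
  have hT3 : 3 ≤ T := hT₁.trans hTT1
  have hT0 : 0 < T := by linarith
  have hT1 : 1 < T := by linarith
  have hA := h2 T hTT2 (k - 1) (by rw [abs_le]; constructor <;> linarith)
    (Finset.range (JJ T + 1)) ∅
  have hB := h2 T hTT2 1 (by norm_num) (Finset.range (JJ T + 1)) ∅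
  set G : (ℕ → ℂ) → ℂ := fun f => NN T M (k - 1) f * NN T M 1 f with hG
  have hGdp : DP (T ^ (1 - 1 / 2 : ℝ)) (T ^ 3) G := by
    have g1 := hA.mul hB
    have e0 : T ^ (1 / 4 : ℝ) * T ^ (1 / 4 : ℝ) = T ^ (1 - 1 / 2 : ℝ) := by
      rw [← Real.rpow_add hT0]
      congr 1
      norm_num
    refine g1.mono (le_of_eq e0) ?_
    rw [e0, ← Real.rpow_natCast T 3]
    exact Real.rpow_le_rpow_of_exponent_le hT1.le (by norm_num)
  have hw : (0 : ℝ) ≤ (1 / 2 : ℂ).re := by norm_num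
  have hG' := hGdp.twist hw
  have hT'0 : (0 : ℝ) ≤ T ^ (20 / 19 : ℝ) := Real.rpow_nonneg hT0.le _
  have hV : ((VV (T ^ (20 / 19 : ℝ)) : NNReal) : ℝ) = T ^ 2 := by
    rw [VV_coe hT'0, ← Real.rpow_mul hT0.le, ← Real.rpow_natCast T 2]
    norm_num
  obtain ⟨hcont, hbd⟩ := eval_fs hG'
  have hmean := mean_le (T' := T ^ (20 / 19 : ℝ)) hT0 hV (F := fun t => ‖G (tw (1 / 2) (fs (t * I)))‖ ^ 2)
    (hcont.norm.pow 2) (fun t => by positivity) (B := (T ^ 3) ^ 2)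
    (fun t => pow_le_pow_left₀ (norm_nonneg _) (hbd t) 2)
  have htr := transfer_sq (Sb := SB T M (JJ T)) (N0 := T ^ (1 - 1 / 2 : ℝ))
    (fun n hn1 hn2 => mem_factored hT1 M (JJ T) hn1 (hn2.trans (by
      calc T ^ (1 - 1 / 2 : ℝ) ≤ T ^ (1 : ℝ) :=
            Real.rpow_le_rpow_of_exponent_le hT1.le (by norm_num)
        _ = T := Real.rpow_one T))) hG' le_rfl (T ^ (20 / 19 : ℝ)) 0
  rw [hV] at htr
  have hsm := h3 T hTT3
  have hsm' : (T ^ 3) ^ 2 * Real.exp (-(T ^ 2 / (2 * (T ^ (1 - 1 / 2 : ℝ)) ^ 2))) ≤ 1 := by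
    calc _ = T ^ 6 * Real.exp (-(T ^ 2 / (2 * (T ^ (1 - 1 / 2 : ℝ)) ^ 2))) := by ring
      _ ≤ 1 := hsm
  have hER : ER (SB T M (JJ T)) (fun f => ‖G (tw (1 / 2) f)‖ ^ 2) ≤ C * (Real.log T) ^ (k ^ 2) := by
    refine le_trans (le_of_eq ?_) (h1 T hTT1 k hk1 hk2)
    congr 1
    funext f
    rw [hG]
    simp only [norm_mul]
    ring
  have hL1 : 1 ≤ Real.log T := by
    rw [← Real.log_exp 1]
    apply Real.log_le_log (Real.exp_pos _)
    have := Real.exp_one_lt_d9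
    linarith
  have hLk : 1 ≤ (Real.log T) ^ (k ^ 2) := Real.one_le_rpow hL1 (sq_nonneg k)
  have e1 : ∀ t : ℝ, ‖NN T M (k - 1) (fs (1 / 2 + t * I))‖ ^ 2 *
      ‖NN T M 1 (fs (1 / 2 + t * I))‖ ^ 2 = ‖G (tw (1 / 2) (fs (t * I)))‖ ^ 2 := by
    intro t
    rw [← hGdp.fs_add (1 / 2) (t * I), hG]
    simp only [norm_mul]
    ring
  simp only [e1]
  refine hmean.trans ?_
  have h9 := (abs_le.mp htr).2
  calc 5 * EG (T ^ (20 / 19 : ℝ)) 0 (fun t => ‖G (tw (1 / 2) (fs (t * I)))‖ ^ 2)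
      ≤ 5 * (C * (Real.log T) ^ (k ^ 2) + 1) := by
        gcongr
        linarith
    _ ≤ 5 * (C * (Real.log T) ^ (k ^ 2) + (Real.log T) ^ (k ^ 2)) := by gcongr
    _ = _ := by ring

end K1R
end Pool.Agent.Lib.MP_973905_nt
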