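import Pool.Agent.Lib.MP_973905_nt.K1R.Stmts
import Pool.Agent.Lib.MP_973905_nt.K1.RAapprox

/-! Module (12R): the arithmetic factor of our polynomials, `k ≥ 1`. -/

namespace Pool.Agent.Lib.MP_973905_nt
namespace K1R

open MeasureTheory ProbabilityTheory Complex Filter Topology K1

namespace RAR

open K1.RAx hiding local_p prodB

lemma local_p {C : ℝ} (hC : 0 < C) (h : ∀ (u x : ℝ) (x₁ x₂ : ℂ), -(1 / 10) ≤ u → u ≤ 0 → 0 ≤ x → x ≤ 3 / 4 →
    ‖x₁‖ ≤ 3 / 4 → ‖x₂‖ ≤ 3 / 4 → ‖x₁‖ ≤ 2 * x → ‖x₂‖ ≤ 2 * x →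
    ‖(1 - x₁ * x₂) * LF u x x₁ x₂ - ((1 + (u ^ 2 - 2 * u) * x ^ 2 : ℝ) : ℂ)‖ ≤
      C * |u| * x * (‖x₁ - x‖ + ‖x₂ - x‖ + x ^ 3)) {p : ℕ} (hp : p.Prime) {u : ℝ}
    (hu0 : -(1 / 10) ≤ u) (hu1 : u ≤ 0) {a₁ a₂ : ℂ} (h1 : ‖a₁‖ * Real.log p ≤ 1 / 20) (h2 : ‖a₂‖ * Real.log p ≤ 1 / 20) :
    ‖(1 - (p : ℂ) ^ (-(1 + a₁ + a₂))) * LF u ((p : ℝ) ^ (-(1 / 2) : ℝ)) ((p : ℂ) ^ (-(1 / 2 + a₁)))
      ((p : ℂ) ^ (-(1 / 2 + a₂))) - ((1 + (u ^ 2 - 2 * u) * (p : ℝ)⁻¹ : ℝ) : ℂ)‖ ≤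
      C * |u| * (2 * (‖a₁‖ + ‖a₂‖) * (Real.log p / p) + ((p : ℝ) ^ 2)⁻¹) := by
  have hp0 : (0 : ℝ) < p := by exact_mod_cast hp.pos
  set x := (p : ℝ) ^ (-(1 / 2) : ℝ) with hx
  have hx0 : 0 ≤ x := by positivity
  have hx1 : x ≤ 71 / 100 := x_le hp
  have hx2 : x ^ 2 = (p : ℝ)⁻¹ := x_sq
  have hex : Real.exp (1 / 20) ≤ 20 / 19 := by
    have h3 := Real.one_sub_le_exp_neg (1 / 20)
    rw [Real.exp_neg] at h3
    have h4 := Real.exp_pos (1 / 20)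
    have h5 : (1 - 1 / 20) * Real.exp (1 / 20) ≤ 1 := by
      calc (1 - 1 / 20) * Real.exp (1 / 20) ≤ (Real.exp (1 / 20))⁻¹ * Real.exp (1 / 20) := by gcongr
        _ = 1 := inv_mul_cancel₀ h4.ne'
    linarith
  have hnx : ∀ a : ℂ, ‖a‖ * Real.log p ≤ 1 / 20 → ‖(p : ℂ) ^ (-(1 / 2 + a))‖ ≤ x * (20 / 19) := by
    intro a ha
    refine (norm_x hp a).trans ?_
    gcongr
    exact (Real.exp_le_exp.mpr ha).trans hex
  have n1 := hnx a₁ h1
  have n2 := hnx a₂ h2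
  have s1 := shift_le hp h1
  have s2 := shift_le hp h2
  have h3 := h u x _ _ hu0 hu1 hx0 (by linarith) (n1.trans (by linarith)) (n2.trans (by linarith))
    (n1.trans (by linarith)) (n2.trans (by linarith))
  rw [cpow_mul_eq hp.ne_zero, hx2] at h3
  refine h3.trans ?_
  rw [← hx] at s1 s2
  have e1 : C * |u| * (2 * (‖a₁‖ + ‖a₂‖) * (Real.log p / p) + ((p : ℝ) ^ 2)⁻¹) =
      C * |u| * x * (x * (2 * (‖a₁‖ * Real.log p)) + x * (2 * (‖a₂‖ * Real.log p)) + x ^ 3) := by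
    have e2 : ((p : ℝ) ^ 2)⁻¹ = x ^ 4 := by
      rw [show x ^ 4 = (x ^ 2) ^ 2 by ring, hx2, inv_pow]
    rw [e2, div_eq_mul_inv, ← hx2]
    ring
  rw [e1]
  gcongr

lemma prodB {C : ℝ} (hC : 0 < C) (h : ∀ (u x : ℝ) (x₁ x₂ : ℂ), -(1 / 10) ≤ u → u ≤ 0 → 0 ≤ x → x ≤ 3 / 4 →
    ‖x₁‖ ≤ 3 / 4 → ‖x₂‖ ≤ 3 / 4 → ‖x₁‖ ≤ 2 * x → ‖x₂‖ ≤ 2 * x →
    ‖(1 - x₁ * x₂) * LF u x x₁ x₂ - ((1 + (u ^ 2 - 2 * u) * x ^ 2 : ℝ) : ℂ)‖ ≤
      C * |u| * x * (‖x₁ - x‖ + ‖x₂ - x‖ + x ^ 3)) {U : Finset ℕ} (hU : ∀ p ∈ U, p.Prime) {u : ℝ}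
    (hu0 : -(1 / 10) ≤ u) (hu1 : u ≤ 0) {a₁ a₂ : ℂ}
    (ha : ∀ p ∈ U, ‖a₁‖ * Real.log p ≤ 1 / 20 ∧ ‖a₂‖ * Real.log p ≤ 1 / 20)
    (hsum : (‖a₁‖ + ‖a₂‖) * ∑ p ∈ U, Real.log p / p ≤ 1) :
    ‖∏ p ∈ U, ((1 - (p : ℂ) ^ (-(1 + a₁ + a₂))) * LF u ((p : ℝ) ^ (-(1 / 2) : ℝ))
      ((p : ℂ) ^ (-(1 / 2 + a₁))) ((p : ℂ) ^ (-(1 / 2 + a₂)))) -
      ((Real.exp ((u ^ 2 - 2 * u) * ∑ p ∈ U, (1 : ℝ) / p) : ℝ) : ℂ)‖ ≤
      (Real.exp ((6 * C + 8) * |u|) - 1) * Real.exp ((u ^ 2 - 2 * u) * ∑ p ∈ U, (1 : ℝ) / p) := by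
  set w : ℕ → ℝ := fun p => (u ^ 2 - 2 * u) * (p : ℝ)⁻¹ with hw
  have hau : |u| = -u := abs_of_nonpos hu1
  have hau0 : 0 ≤ |u| := abs_nonneg u
  have hau1 : |u| ≤ 1 / 10 := by linarith
  set e : ℕ → ℝ := fun p => 2 * (C * |u| * (2 * (‖a₁‖ + ‖a₂‖) * (Real.log p / p) + ((p : ℝ) ^ 2)⁻¹) +
    9 * |u| ^ 2 * ((p : ℝ) ^ 2)⁻¹) with he
  have hE : ((Real.exp ((u ^ 2 - 2 * u) * ∑ p ∈ U, (1 : ℝ) / p) : ℝ) : ℂ) =
      ∏ p ∈ U, ((Real.exp (w p) : ℝ) : ℂ) := by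
    rw [← ofReal_prod, ← Real.exp_sum, Finset.mul_sum]
    congr 3
    ext p
    simp only [hw, one_div]
  have hE' : ‖∏ p ∈ U, ((Real.exp (w p) : ℝ) : ℂ)‖ =
      Real.exp ((u ^ 2 - 2 * u) * ∑ p ∈ U, (1 : ℝ) / p) := by
    rw [← hE, norm_real, Real.norm_eq_abs, abs_of_pos (Real.exp_pos _)]
  rw [hE, ← hE']
  have hlog : ∀ p ∈ U, 0 ≤ Real.log p / (p : ℝ) := fun p hp =>
    div_nonneg (Real.log_nonneg (by exact_mod_cast (hU p hp).one_lt.le)) (by positivity)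
  refine (prod_sub_le' U _ _ e (fun p hp => ?_) (fun p hp => ?_)).trans ?_
  · have := hlog p hp
    simp only [he]
    positivity
  · have hp2 : (2 : ℝ) ≤ p := by exact_mod_cast (hU p hp).two_le
    have hpi : (p : ℝ)⁻¹ ≤ 1 / 2 := by
      rw [inv_le_comm₀ (by linarith) (by norm_num)]; linarith
    have hpi0 : 0 ≤ (p : ℝ)⁻¹ := by positivity
    have h1 := local_p hC h (hU p hp) hu0 hu1 (ha p hp).1 (ha p hp).2
    have hu2 : 0 ≤ u ^ 2 - 2 * u := by nlinarith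
    have hw1 : |w p| ≤ 3 * |u| * (p : ℝ)⁻¹ := by
      simp only [hw]
      rw [abs_mul, abs_of_nonneg hpi0, abs_of_nonneg hu2]
      apply mul_le_mul_of_nonneg_right _ hpi0
      rw [hau]
      nlinarith
    have hw2 : |w p| ≤ 1 / 2 := by
      refine hw1.trans ?_
      nlinarith
    have h2 : |Real.exp (w p) - 1 - w p| ≤ (w p) ^ 2 :=
      Real.abs_exp_sub_one_sub_id_le (by linarith)
    have h3 : (1 : ℝ) / 2 ≤ Real.exp (w p) := by
      have := Real.add_one_le_exp (w p)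
      have := neg_abs_le (w p)
      linarith
    have h4 : (w p) ^ 2 ≤ 9 * |u| ^ 2 * ((p : ℝ) ^ 2)⁻¹ := by
      rw [← sq_abs]
      calc |w p| ^ 2 ≤ (3 * |u| * (p : ℝ)⁻¹) ^ 2 := by gcongr
        _ = _ := by rw [mul_pow, inv_pow]; ring
    rw [norm_real, Real.norm_eq_abs, abs_of_pos (Real.exp_pos _)]
    have h5 : ‖((1 + w p : ℝ) : ℂ) - ((Real.exp (w p) : ℝ) : ℂ)‖ ≤ (w p) ^ 2 := by
      rw [← ofReal_sub, norm_real, Real.norm_eq_abs, abs_sub_comm]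
      refine le_trans (le_of_eq ?_) h2
      congr 1; ring
    have h6 := norm_sub_le_norm_sub_add_norm_sub ((1 - (p : ℂ) ^ (-(1 + a₁ + a₂))) * LF u
      ((p : ℝ) ^ (-(1 / 2) : ℝ)) ((p : ℂ) ^ (-(1 / 2 + a₁))) ((p : ℂ) ^ (-(1 / 2 + a₂))))
      ((1 + w p : ℝ) : ℂ) ((Real.exp (w p) : ℝ) : ℂ)
    refine h6.trans ?_
    have h7 : C * |u| * (2 * (‖a₁‖ + ‖a₂‖) * (Real.log p / p) + ((p : ℝ) ^ 2)⁻¹) + (w p) ^ 2 ≤
        e p * (1 / 2) := by
      simp only [he]; linarith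
    have h8 : 0 ≤ e p := by
      have := hlog p hp
      simp only [he]
      positivity
    have h9 : e p * (1 / 2) ≤ e p * Real.exp (w p) := by gcongr
    linarith
  · gcongr
    simp only [he]
    rw [← Finset.mul_sum, Finset.sum_add_distrib, ← Finset.mul_sum, Finset.sum_add_distrib,
      ← Finset.mul_sum, ← Finset.mul_sum]
    have h1 := sum_inv_sq_le hU
    have h2 : 2 * (‖a₁‖ + ‖a₂‖) * ∑ p ∈ U, Real.log p / p ≤ 2 := by linarith
    have h3 : C * |u| * (2 * (‖a₁‖ + ‖a₂‖) * ∑ p ∈ U, Real.log p / p + ∑ p ∈ U, ((p : ℝ) ^ 2)⁻¹) ≤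
        C * |u| * 3 := by
      gcongr; linarith
    have h4 : 9 * |u| ^ 2 * ∑ p ∈ U, ((p : ℝ) ^ 2)⁻¹ ≤ 9 * |u| ^ 2 * 1 := by gcongr
    nlinarith

end RAR

open K1.RAx hiding local_p prodB in
open RAR in
theorem stRAR (h10 : K1.StLF) (h10r : StLFR) (h11 : StBlockShiftR) : StRAR := by
  obtain ⟨C, hC, hLF⟩ := h10r
  obtain ⟨C₁, hC₁, hB⟩ := h11
  obtain ⟨M₁, hM₁⟩ := block_cond C₁ hC₁
  obtain ⟨C₃, hC₃, hsi⟩ := sum_inv
  obtain ⟨C₄, hC₄, hsl⟩ := sum_log_div_le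
  intro η hη
  have hlam : 0 < Real.log (1 + η) / 2 := by
    have := Real.log_pos (show 1 < 1 + η by linarith)
    linarith
  set lam := Real.log (1 + η) / 2 with hlamdef
  have t1 : Tendsto (fun M : ℕ => (2 : ℝ) ^ (-(((M : ℝ) - 3) / 2))) atTop (𝓝 0) := by
    have h1 : Tendsto (fun M : ℕ => (((M : ℝ) - 3) / 2)) atTop atTop :=
      (tendsto_atTop_add_const_right _ (-3) tendsto_natCast_atTop_atTop).atTop_div_const (by norm_num)
    have h2 : Tendsto (fun x : ℝ => (2 : ℝ) ^ (-x)) atTop (𝓝 0) := by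
      have : (fun x : ℝ => (2 : ℝ) ^ (-x)) = fun x : ℝ => Real.exp (-(Real.log 2 * x)) := by
        ext x; rw [Real.rpow_def_of_pos (by norm_num)]; congr 1; ring
      rw [this]
      exact Real.tendsto_exp_neg_atTop_nhds_zero.comp
        (tendsto_id.const_mul_atTop (Real.log_pos (by norm_num)))
    exact h2.comp h1
  have hsmall : ∀ᶠ M : ℕ in atTop, C₁ * (6 * (4 * (2 : ℝ) ^ (-(((M : ℝ) - 3) / 2))) +
      2 * Real.exp (-(5 * Real.exp (3 / 4 * (M : ℝ))))) ≤ lam := by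
    have t3 : Tendsto (fun M : ℕ => Real.exp (-(5 * Real.exp (3 / 4 * (M : ℝ))))) atTop (𝓝 0) := by
      refine Real.tendsto_exp_neg_atTop_nhds_zero.comp ?_
      refine Tendsto.const_mul_atTop (by norm_num) (Real.tendsto_exp_atTop.comp ?_)
      exact Tendsto.const_mul_atTop (by norm_num) tendsto_natCast_atTop_atTop
    have t4 := (((t1.const_mul 4).const_mul 6).add (t3.const_mul 2)).const_mul C₁
    simp only [mul_zero, add_zero] at t4
    exact t4.eventually (eventually_le_nhds hlam)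
  have hsmall2 : ∀ᶠ M : ℕ in atTop, 3 * (4 * (2 : ℝ) ^ (-(((M : ℝ) - 3) / 2))) ≤ 1 := by
    have t4 := (t1.const_mul 4).const_mul 3
    simp only [mul_zero] at t4
    exact t4.eventually (eventually_le_nhds zero_lt_one)
  obtain ⟨M₂, hM₂⟩ := eventually_atTop.mp (hsmall.and hsmall2)
  refine ⟨max (max M₁ M₂) 6, fun M hM => ?_⟩
  have hMM₁ : M₁ ≤ M := (le_max_left _ _).trans ((le_max_left _ _).trans hM)
  have hMM₂ : M₂ ≤ M := (le_max_right _ _).trans ((le_max_left _ _).trans hM)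
  have hM6 : 6 ≤ M := (le_max_right _ _).trans hM
  have hM6' : (6 : ℝ) ≤ M := by exact_mod_cast hM6
  obtain ⟨hs1, hs2⟩ := hM₂ M hMM₂
  obtain ⟨T₁, hT₁3, hT₁⟩ := hM₁ M hMM₁
  set K : ℝ := 6 * C + 8 + 3 * (C₃ + M) with hK
  have hK0 : 0 < K := by positivity
  set u₁ : ℝ := min (1 / 10) (lam / K) with hu₁
  have hu₁0 : 0 < u₁ := lt_min (by norm_num) (by positivity)
  have hu₁1 : u₁ ≤ 1 / 10 := min_le_left _ _
  have hu₁2 : u₁ ≤ lam / K := min_le_right _ _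
  refine ⟨1 + u₁, by linarith, by linarith, ?_⟩
  set L₀ : ℝ := Real.exp M + 4 * C₄ * Real.exp (M / 2) + 2 * Real.exp M * (Real.exp (M / 2) + 1) with hL₀
  refine ⟨max T₁ (Real.exp L₀), hT₁3.trans (le_max_left _ _), fun T hT k hk0 hk1 a₁ a₂ ha₁ ha₂ => ?_⟩
  have hT3 : 3 ≤ T := hT₁3.trans ((le_max_left _ _).trans hT)
  have hT1 : 1 < T := by linarith
  have hT0 : 0 < T := by linarith
  have hL : 0 < Real.log T := Real.log_pos hT1
  have hLL : L₀ ≤ Real.log T := by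
    rw [Real.le_log_iff_exp_le hT0]; exact (le_max_right _ _).trans hT
  have eM : 0 < Real.exp (M : ℝ) := Real.exp_pos _
  have eM2 : 0 < Real.exp ((M : ℝ) / 2) := Real.exp_pos _
  have hLa : Real.exp M ≤ Real.log T := by
    have : 0 ≤ 4 * C₄ * Real.exp ((M : ℝ) / 2) + 2 * Real.exp M * (Real.exp (M / 2) + 1) := by positivity
    linarith
  have hLb : 4 * C₄ * Real.exp ((M : ℝ) / 2) ≤ Real.log T := by
    have : 0 ≤ Real.exp M + 2 * Real.exp M * (Real.exp (M / 2) + 1) := by positivity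
    linarith
  have hLc : 2 * Real.exp M * (Real.exp ((M : ℝ) / 2) + 1) ≤ Real.log T := by
    have : 0 ≤ Real.exp M + 4 * C₄ * Real.exp ((M : ℝ) / 2) := by positivity
    linarith
  set L := Real.log T with hLdef
  set u : ℝ := 1 - k with hu
  have hu0 : u ≤ 0 := by linarith
  have hau : |u| = -u := abs_of_nonpos hu0
  have hau0 : 0 ≤ |u| := abs_nonneg u
  have huu : |u| ≤ u₁ := by linarith
  have hu1 : -(1 / 10) ≤ u := by linarith
  have huK : K * |u| ≤ lam := by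
    have : |u| ≤ lam / K := huu.trans hu₁2
    rwa [le_div_iff₀ hK0, mul_comm] at this
  -- the shifts
  have he3 : Real.exp (-((M : ℝ) / 2)) ≤ 1 / 20 := by
    have h1 : (20 : ℝ) ≤ Real.exp 3 := by
      have h2 : Real.exp 3 = Real.exp 1 ^ 3 := by rw [← Real.exp_nat_mul]; norm_num
      have h3 : (2.7182818283 : ℝ) < Real.exp 1 := Real.exp_one_gt_d9
      rw [h2]
      calc (20 : ℝ) ≤ (2.7182818283 : ℝ) ^ 3 := by norm_num
        _ ≤ _ := by gcongr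
    calc Real.exp (-((M : ℝ) / 2)) ≤ Real.exp (-3) := Real.exp_le_exp.mpr (by linarith)
      _ = (Real.exp 3)⁻¹ := Real.exp_neg 3
      _ ≤ (20 : ℝ)⁻¹ := by gcongr
      _ = 1 / 20 := by norm_num
  have heprod : Real.exp ((M : ℝ) / 2) * Real.exp (-(M : ℝ)) = Real.exp (-((M : ℝ) / 2)) := by
    rw [← Real.exp_add]; congr 1; ring
  have hshift : ∀ j, j ≤ JJ T → ∀ p ∈ Sj T M (JJ T) j,
      ‖a₁‖ * Real.log p ≤ 1 / 20 ∧ ‖a₂‖ * Real.log p ≤ 1 / 20 := by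
    intro j hj p hp
    have h1 := log_le_of_mem hT1 hj hp
    have h2 : 0 ≤ Real.log p := Real.log_nonneg (by exact_mod_cast (prime_Sj hT1 hp).one_lt.le)
    have h3 : ∀ a : ℂ, ‖a‖ ≤ Real.exp (M / 2) / L → ‖a‖ * Real.log p ≤ 1 / 20 := by
      intro a ha
      calc ‖a‖ * Real.log p ≤ (Real.exp (M / 2) / L) * (Real.exp (-(M : ℝ)) * L) := by gcongr
        _ = Real.exp ((M : ℝ) / 2) * Real.exp (-(M : ℝ)) := by field_simp
        _ ≤ 1 / 20 := by rw [heprod]; exact he3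
    exact ⟨h3 a₁ ha₁, h3 a₂ ha₂⟩
  set y : ℝ := Real.exp (Real.exp (-(M : ℝ)) * L) with hy
  have hey : 1 ≤ Real.exp (-(M : ℝ)) * L := by
    rw [Real.exp_neg, inv_mul_eq_div, le_div_iff₀ eM, one_mul]; exact hLa
  have hy2 : 2 ≤ y := by
    have := Real.add_one_le_exp (Real.exp (-(M : ℝ)) * L)
    linarith
  have hUp : ∀ p ∈ PS 0 y, p.Prime := fun p hp => ((mem_PS le_rfl (by linarith)).mp hp).1
  have hUmem : ∀ p ∈ PS 0 y, ∃ j, j ≤ JJ T ∧ p ∈ Sj T M (JJ T) j := by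
    intro p hp
    rw [hy, hLdef, ← biUnion_eq hT1, Finset.mem_biUnion] at hp
    obtain ⟨j, hj, hp⟩ := hp
    exact ⟨j, by have := Finset.mem_range.mp hj; omega, hp⟩
  have hUsub : ∀ j, j ≤ JJ T → Sj T M (JJ T) j ⊆ PS 0 y := by
    intro j hj
    rw [hy, hLdef, ← biUnion_eq hT1]
    exact Finset.subset_biUnion_of_mem (fun j => Sj T M (JJ T) j) (Finset.mem_range.mpr (by omega))
  have hlogU : ∀ p ∈ PS 0 y, 0 ≤ Real.log p / (p : ℝ) := fun p hp =>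
    div_nonneg (Real.log_nonneg (by exact_mod_cast (hUp p hp).one_lt.le)) (by positivity)
  have hsumU : (‖a₁‖ + ‖a₂‖) * ∑ p ∈ PS 0 y, Real.log p / p ≤ 1 := by
    have h1 := hsl y (by linarith)
    have h2 : Real.log y = Real.exp (-(M : ℝ)) * L := by rw [hy, Real.log_exp]
    rw [h2] at h1
    have h3 : 0 ≤ ∑ p ∈ PS 0 y, Real.log p / (p : ℝ) := Finset.sum_nonneg hlogU
    calc (‖a₁‖ + ‖a₂‖) * ∑ p ∈ PS 0 y, Real.log p / p
        ≤ (Real.exp (M / 2) / L + Real.exp (M / 2) / L) * (Real.exp (-(M : ℝ)) * L + C₄) := by gcongr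
      _ = 2 * (Real.exp ((M : ℝ) / 2) * Real.exp (-(M : ℝ))) + 2 * C₄ * Real.exp (M / 2) / L := by
          field_simp
          ring
      _ ≤ 2 * (1 / 20) + 1 / 2 := by
          rw [heprod]
          have h4 : 2 * C₄ * Real.exp (M / 2) / L ≤ 1 / 2 := by
            rw [div_le_iff₀ hL]; linarith
          linarith
      _ ≤ 1 := by norm_num
  have hsumj : ∀ j, j ≤ JJ T → (‖a₁‖ + ‖a₂‖) * ∑ p ∈ Sj T M (JJ T) j, Real.log p / p ≤ 1 := by
    intro j hj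
    refine le_trans ?_ hsumU
    exact mul_le_mul_of_nonneg_left
      (Finset.sum_le_sum_of_subset_of_nonneg (hUsub j hj) fun p hp _ => hlogU p hp) (by positivity)
  -- the blocks
  set ε : ℕ → ℝ := fun j => C₁ * (Real.exp (3 * rho M (Sj T M (JJ T) j)) - 1 +
    Real.exp (-((ll M (JJ T) j : ℝ) / 2))) with hε
  have hε0 : ∀ j, 0 ≤ ε j := fun j => by
    have h1 : 1 ≤ Real.exp (3 * rho M (Sj T M (JJ T) j)) :=
      Real.one_le_exp (by have := rho_nonneg M (Sj T M (JJ T) j); positivity)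
    have h2 := Real.exp_pos (-((ll M (JJ T) j : ℝ) / 2))
    simp only [hε]
    apply mul_nonneg hC₁.le
    linarith
  have hrho := sum_rho hT1 (M := M) (J := JJ T) (by omega)
  have hεsum : ∑ j ∈ Finset.range (JJ T + 1), ε j ≤ lam := by
    refine le_trans ?_ hs1
    simp only [hε]
    rw [← Finset.mul_sum, Finset.sum_add_distrib]
    have h2 : ∑ j ∈ Finset.range (JJ T + 1), Real.exp (-((ll M (JJ T) j : ℝ) / 2)) ≤
        2 * Real.exp (-(5 * Real.exp (3 / 4 * (M : ℝ)))) := by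
      refine le_trans (Finset.sum_le_sum fun j _ => ?_) (sum_exp_KK (J := JJ T) ?_ (by norm_num))
      · apply Real.exp_le_exp.mpr
        have : 10 * KK M (JJ T) j ≤ (ll M (JJ T) j : ℝ) := Nat.le_ceil _
        linarith
      · have := Real.one_le_exp (show 0 ≤ 3 / 4 * (M : ℝ) by positivity)
        linarith
    have h3 : ∑ j ∈ Finset.range (JJ T + 1), (Real.exp (3 * rho M (Sj T M (JJ T) j)) - 1) ≤
        6 * (4 * (2 : ℝ) ^ (-(((M : ℝ) - 3) / 2))) := by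
      refine le_trans (Finset.sum_le_sum (g := fun j => 6 * rho M (Sj T M (JJ T) j)) fun j hj => ?_) ?_
      · have h4 := rho_nonneg M (Sj T M (JJ T) j)
        have h5 : rho M (Sj T M (JJ T) j) ≤ 4 * (2 : ℝ) ^ (-(((M : ℝ) - 3) / 2)) :=
          (Finset.single_le_sum (f := fun j => rho M (Sj T M (JJ T) j))
            (fun i _ => rho_nonneg M _) hj).trans hrho
        have h6 : |3 * rho M (Sj T M (JJ T) j)| ≤ 1 := by
          rw [abs_of_nonneg (by positivity)]; linarith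
        have h7 := Real.abs_exp_sub_one_le h6
        rw [abs_of_nonneg (by positivity : 0 ≤ 3 * rho M (Sj T M (JJ T) j))] at h7
        have h8 := le_abs_self (Real.exp (3 * rho M (Sj T M (JJ T) j)) - 1)
        linarith
      · rw [← Finset.mul_sum]
        gcongr
    gcongr
  set z : ℕ → ℂ := fun j => EB T M k a₁ a₂ j * WB T M a₁ a₂ j with hz
  set w : ℕ → ℂ := fun j => LP u a₁ a₂ (Sj T M (JJ T) j) * WB T M a₁ a₂ j with hw
  have hzw : ∀ j ∈ Finset.range (JJ T + 1), ‖z j - w j‖ ≤ ε j * ‖w j‖ := by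
    intro j hj
    have hj' : j ≤ JJ T := by have := Finset.mem_range.mp hj; omega
    have hcond := (hT₁ T ((le_max_left _ _).trans hT) j hj' (1 / 2) le_rfl).1
    have hcond' : 16 * Real.exp (C₁ * ∑ p ∈ Sj T M (JJ T) j, 1 / (p : ℝ)) ≤
        Real.exp ((ll M (JJ T) j : ℝ) / 2) := by
      refine le_trans (le_of_eq ?_) hcond
      congr 3
      refine Finset.sum_congr rfl fun p _ => ?_
      rw [one_div, ← Real.rpow_neg_one]
      norm_num
    have h1 := hB M (ll M (JJ T) j) (Sj T M (JJ T) j) k a₁ a₂ (by omega)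
      (fun p hp => prime_Sj hT1 hp) hk0 (by linarith) (hshift j hj') (hsumj j hj') hcond'
    simp only [hz, hw]
    rw [← sub_mul, norm_mul, norm_mul, ← mul_assoc]
    exact mul_le_mul_of_nonneg_right h1 (norm_nonneg _)
  have hQ := prod_sub_le' (Finset.range (JJ T + 1)) z w ε (fun j _ => hε0 j) hzw
  -- the product of the local factors
  have hQeq : ∏ j ∈ Finset.range (JJ T + 1), w j =
      ∏ p ∈ PS 0 y, ((1 - (p : ℂ) ^ (-(1 + a₁ + a₂))) * LF u ((p : ℝ) ^ (-(1 / 2) : ℝ))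
      ((p : ℂ) ^ (-(1 / 2 + a₁))) ((p : ℂ) ^ (-(1 / 2 + a₂)))) := by
    rw [hy, hLdef, ← prod_biUnion_Sj hT1]
    refine Finset.prod_congr rfl fun j _ => ?_
    simp only [hw]
    rw [LP, WB, ← Finset.prod_mul_distrib]
    exact Finset.prod_congr rfl fun p _ => mul_comm _ _
  have hpB := prodB hC hLF hUp hu1 hu0 (fun p hp => by
    obtain ⟨j, hj, hpj⟩ := hUmem p hp
    exact hshift j hj p hpj) hsumU
  rw [← hQeq] at hpB
  have hku : u ^ 2 - 2 * u = k ^ 2 - 1 := by rw [hu]; ring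
  rw [hku] at hpB
  set Q := ∏ j ∈ Finset.range (JJ T + 1), w j with hQdef
  set sp := ∑ p ∈ PS 0 y, (1 : ℝ) / p with hsp
  set E := Real.exp ((k ^ 2 - 1) * sp) with hEdef
  set X := L ^ (k ^ 2 - 1) with hX
  have hXe : X = Real.exp ((k ^ 2 - 1) * Real.log L) := by
    rw [hX, Real.rpow_def_of_pos hL]; congr 1; ring
  have hX0 : 0 < X := by rw [hXe]; exact Real.exp_pos _
  have hsi' := hsi y hy2
  have hlogy : Real.log (Real.log y) = -(M : ℝ) + Real.log L := by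
    rw [hy, Real.log_exp, Real.log_mul (Real.exp_pos _).ne' hL.ne', Real.log_exp]
  rw [hlogy] at hsi'
  set δ : ℝ := 3 * (C₃ + M) * |u| with hδ
  have hδ1 : |(k ^ 2 - 1) * (sp - Real.log L)| ≤ δ := by
    rw [abs_mul]
    have h1 : |k ^ 2 - 1| ≤ 3 * |u| := by
      rw [← hku, hau, abs_le]
      constructor <;> nlinarith
    have h2 : |sp - Real.log L| ≤ C₃ + M := by
      have h3 := abs_le.mp hsi'
      rw [abs_le]
      constructor <;> linarith [h3.1, h3.2]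
    calc |k ^ 2 - 1| * |sp - Real.log L| ≤ (3 * |u|) * (C₃ + M) := by gcongr
      _ = δ := by rw [hδ]; ring
  have hEX : E = X * Real.exp ((k ^ 2 - 1) * (sp - Real.log L)) := by
    rw [hEdef, hXe, ← Real.exp_add]; congr 1; ring
  set A := Real.exp (∑ j ∈ Finset.range (JJ T + 1), ε j) with hA
  set B := Real.exp ((6 * C + 8) * |u|) with hBB
  set D := Real.exp δ with hD
  have hA1 : 1 ≤ A := Real.one_le_exp (Finset.sum_nonneg fun j _ => hε0 j)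
  have hB1 : 1 ≤ B := Real.one_le_exp (by positivity)
  have hD1 : 1 ≤ D := Real.one_le_exp (by positivity)
  have hE1 : E ≤ D * X := by
    rw [hEX, mul_comm]
    gcongr
    exact Real.exp_le_exp.mpr ((le_abs_self _).trans hδ1)
  have hE2 : |E - X| ≤ (D - 1) * X := by
    have h1 : ∀ t : ℝ, |t| ≤ δ → |Real.exp t - 1| ≤ D - 1 := by
      intro t ht
      have h2 := abs_le.mp ht
      rw [abs_le]
      constructor
      · have h3 : Real.exp (-δ) ≤ Real.exp t := Real.exp_le_exp.mpr h2.1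
        have h4 : 1 - δ ≤ Real.exp (-δ) := by have := Real.add_one_le_exp (-δ); linarith
        have h5 := Real.add_one_le_exp δ
        linarith
      · have h3 : Real.exp t ≤ D := Real.exp_le_exp.mpr h2.2
        linarith
    have h2 := h1 _ hδ1
    have h3 : E - X = (Real.exp ((k ^ 2 - 1) * (sp - Real.log L)) - 1) * X := by rw [hEX]; ring
    rw [h3, abs_mul, abs_of_pos hX0]
    gcongr
  have hQ1 : ‖Q‖ ≤ B * E := by
    have h1 : ‖Q‖ ≤ ‖Q - (E : ℂ)‖ + ‖(E : ℂ)‖ := by simpa using norm_add_le (Q - (E : ℂ)) (E : ℂ)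
    have h2 : ‖(E : ℂ)‖ = E := by rw [norm_real, Real.norm_eq_abs, abs_of_pos (Real.exp_pos _)]
    rw [h2] at h1
    linarith
  -- the top block
  have htop : ES (Sj T M (JJ T) (JJ T + 1)) (fun f => ZZ (Sj T M (JJ T) (JJ T + 1))
        (tw (1 / 2 + a₁) f) * (starRingEnd ℂ) (ZZ (Sj T M (JJ T) (JJ T + 1))
        (tw (1 / 2 + (starRingEnd ℂ) a₂) f))) * WB T M a₁ a₂ (JJ T + 1) = 1 := by
    have hbd : ∀ a : ℂ, ‖a‖ ≤ Real.exp (M / 2) / L → ∀ p ∈ Sj T M (JJ T) (JJ T + 1),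
        ‖(p : ℂ) ^ (-(1 / 2 + a))‖ ≤ 3 / 4 := by
      intro a ha p hp
      have hpp := prime_Sj hT1 hp
      have h1 := (mem_Sj hT1).mp hp
      have hp0 : (0 : ℝ) < p := by exact_mod_cast hpp.pos
      have h2 : Real.exp (-(M : ℝ)) * L ≤ Real.log p := by
        have h3 := h1.2.1
        rw [yy, if_neg (by omega), if_pos le_rfl, show JJ T + 1 - 1 = JJ T by omega, bet] at h3
        have h4 := Real.log_le_log (Real.exp_pos _) h3.le
        rw [Real.log_exp] at h4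
        refine le_trans (le_of_eq ?_) h4
        congr 2
        ring
      have h5 : Real.log p ≤ L := by
        apply Real.log_le_log hp0
        have h6 := h1.2.2
        rwa [show JJ T + 1 + 1 = JJ T + 2 by ring, yy_last] at h6
      refine (norm_x hpp a).trans ?_
      rw [Real.rpow_def_of_pos hp0, ← Real.exp_add]
      have h7 : ‖a‖ * Real.log p ≤ Real.exp (M / 2) := by
        calc ‖a‖ * Real.log p ≤ (Real.exp (M / 2) / L) * L := by
              gcongr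
          _ = _ := by field_simp
      have h8 : Real.exp ((M : ℝ) / 2) + 1 ≤ Real.exp (-(M : ℝ)) * L / 2 := by
        rw [Real.exp_neg, inv_mul_eq_div, div_div, le_div_iff₀ (by positivity)]
        linarith
      have h9 : Real.log p * (-(1 / 2)) + ‖a‖ * Real.log p ≤ -1 := by linarith
      calc Real.exp (Real.log p * (-(1 / 2)) + ‖a‖ * Real.log p) ≤ Real.exp (-1) :=
            Real.exp_le_exp.mpr h9
        _ ≤ 3 / 4 := by
            rw [Real.exp_neg]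
            have : (2 : ℝ) ≤ Real.exp 1 := by linarith [Real.exp_one_gt_d9]
            calc (Real.exp 1)⁻¹ ≤ (2 : ℝ)⁻¹ := by gcongr
              _ ≤ 3 / 4 := by norm_num
    rw [WB]
    exact top_eq h10 (fun p hp => prime_Sj hT1 hp) (hbd a₁ ha₁) (hbd a₂ ha₂)
  -- conclusion
  rw [RA_eq hT1, htop, mul_one]
  have h1 : ‖(∏ j ∈ Finset.range (JJ T + 1), z j) - (X : ℂ)‖ ≤
      ‖(∏ j ∈ Finset.range (JJ T + 1), z j) - Q‖ + (‖Q - (E : ℂ)‖ + ‖(E : ℂ) - (X : ℂ)‖) := by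
    refine (norm_sub_le_norm_sub_add_norm_sub _ Q _).trans ?_
    gcongr
    exact norm_sub_le_norm_sub_add_norm_sub _ _ _
  have h2 : ‖(E : ℂ) - (X : ℂ)‖ ≤ (D - 1) * X := by
    rw [← ofReal_sub, norm_real, Real.norm_eq_abs]; exact hE2
  refine h1.trans ?_
  have hE0 : 0 < E := Real.exp_pos _
  have h3 : (A - 1) * ‖Q‖ ≤ (A - 1) * (B * (D * X)) := by
    have : ‖Q‖ ≤ B * (D * X) := hQ1.trans (by gcongr)
    exact mul_le_mul_of_nonneg_left this (by linarith)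
  have h4 : (B - 1) * E ≤ (B - 1) * (D * X) := mul_le_mul_of_nonneg_left hE1 (by linarith)
  have h5 : A * B * D ≤ 1 + η := by
    rw [hA, hBB, hD, ← Real.exp_add, ← Real.exp_add]
    have h6 : ∑ j ∈ Finset.range (JJ T + 1), ε j + (6 * C + 8) * |u| + δ ≤ Real.log (1 + η) := by
      have h7 : (6 * C + 8) * |u| + δ = K * |u| := by rw [hδ, hK]; ring
      have h8 : Real.log (1 + η) = lam + lam := by rw [hlamdef]; ring
      linarith
    calc _ ≤ Real.exp (Real.log (1 + η)) := Real.exp_le_exp.mpr h6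
      _ = 1 + η := Real.exp_log (by linarith)
  calc ‖(∏ j ∈ Finset.range (JJ T + 1), z j) - Q‖ + (‖Q - (E : ℂ)‖ + ‖(E : ℂ) - (X : ℂ)‖)
      ≤ (A - 1) * ‖Q‖ + ((B - 1) * E + (D - 1) * X) := by gcongr
    _ ≤ (A - 1) * (B * (D * X)) + ((B - 1) * (D * X) + (D - 1) * X) := by gcongr
    _ = (A * B * D - 1) * X := by ring
    _ ≤ η * X := by gcongr; linarith

end K1R
end Pool.Agent.Lib.MP_973905_nt
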