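import Pool.Agent.Lib.MP_973905_nt.K1R.Stmts
import Pool.Agent.Lib.MP_973905_nt.K1.Second

/-! Module (15R): the sharp twisted second moment, `k → 1+`. -/

namespace Pool.Agent.Lib.MP_973905_nt
namespace K1R

open K1 K1.Second MeasureTheory ProbabilityTheory Complex Filter Topology Metric

theorem stSecondR (h5 : StFin) (h9 : StExact) (h12 : StRAR) (h13 : StShort) : StSecondR := by
  intro η hη
  obtain ⟨C, δ, hC, hδ, hpole⟩ := zeta_pole
  have hη' : 0 < min 1 (η / 30) := by positivity
  obtain ⟨M1, hM1⟩ := h12 (min 1 (η / 30)) hη'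
  obtain ⟨M2, hM2⟩ := h13 (1 / 1000) (by norm_num)
  obtain ⟨T1, hT1, h9⟩ := h9
  refine ⟨max M1 M2, fun M hM => ?_⟩
  obtain ⟨k₁, hk0, hk1, T2, hT2, hRA⟩ := hM1 M ((le_max_left _ _).trans hM)
  obtain ⟨T3, hT3, hDP⟩ := hM2 M ((le_max_right _ _).trans hM)
  have hlog := Real.tendsto_log_atTop
  have hll : Tendsto (fun T : ℝ => Real.log (Real.log T) / Real.log T) atTop (𝓝 0) := by
    have h1 := (Real.isLittleO_log_id_atTop.tendsto_div_nhds_zero).comp hlog
    exact h1
  have hinv : Tendsto (fun T : ℝ => (Real.log T)⁻¹) atTop (𝓝 0) := tendsto_inv_atTop_zero.comp hlog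
  have ev1 : ∀ᶠ T : ℝ in atTop, 18 * C * (Real.log T)⁻¹ < η / 6 := by
    have h1 : Tendsto (fun T : ℝ => 18 * C * (Real.log T)⁻¹) atTop (𝓝 0) := by
      simpa using hinv.const_mul (18 * C)
    exact h1.eventually_lt_const (by positivity)
  have ev2 : ∀ᶠ T : ℝ in atTop,
      32 * (Real.log (Real.log T) / Real.log T + 2 * (Real.log T)⁻¹) < min 1 (η / 6) := by
    have h1 : Tendsto (fun T : ℝ => 32 * (Real.log (Real.log T) / Real.log T +
        2 * (Real.log T)⁻¹)) atTop (𝓝 0) := by
      simpa using (hll.add (hinv.const_mul 2)).const_mul 32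
    exact h1.eventually_lt_const (by positivity)
  have ev3 : ∀ᶠ T : ℝ in atTop, T ^ (-(1 / 1000) : ℝ) < η / 6 :=
    (tendsto_rpow_neg_atTop (by norm_num : (0 : ℝ) < 1 / 1000)).eventually_lt_const (by positivity)
  have ev4 : ∀ᶠ T : ℝ in atTop, 2 * (Real.log T)⁻¹ < min δ (1 / 2) := by
    have h1 : Tendsto (fun T : ℝ => 2 * (Real.log T)⁻¹) atTop (𝓝 0) := by
      simpa using hinv.const_mul 2
    exact h1.eventually_lt_const (by positivity)
  obtain ⟨T4, hT4⟩ := eventually_atTop.1 (ev1.and (ev2.and (ev3.and ev4)))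
  refine ⟨k₁, hk0, hk1, max (max T1 T2) (max T3 T4), ?_, ?_⟩
  · exact hT1.trans ((le_max_left _ _).trans (le_max_left _ _))
  intro T hT k hkk hk τ hτ1 hτ2
  have hTT1 : T1 ≤ T := ((le_max_left _ _).trans (le_max_left _ _)).trans hT
  have hTT2 : T2 ≤ T := ((le_max_right _ _).trans (le_max_left _ _)).trans hT
  have hTT3 : T3 ≤ T := ((le_max_left _ _).trans (le_max_right _ _)).trans hT
  have hTT4 : T4 ≤ T := ((le_max_right _ _).trans (le_max_right _ _)).trans hT
  obtain ⟨e1, e2, e3, e4⟩ := hT4 T hTT4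
  have hT3 : (3 : ℝ) ≤ T := hT1.trans hTT1
  have hT0 : (0 : ℝ) < T := by linarith
  set L := Real.log T with hLdef
  have hL1 : 1 ≤ L := by
    rw [hLdef, Real.le_log_iff_exp_le hT0]
    exact (Real.exp_one_lt_d9.le.trans (by norm_num)).trans hT3
  have hL0 : 0 < L := by linarith
  set R0 := L ^ (k ^ 2 - 1) with hR0
  have hR0p : 0 < R0 := Real.rpow_pos_of_pos hL0 _
  have hR0L : R0 * L = L ^ (k ^ 2) := by
    rw [hR0, ← Real.rpow_add_one hL0.ne']
    congr 1; ring
  have hLk : 1 ≤ L ^ (k ^ 2) := Real.one_le_rpow hL1 (by positivity)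
  have hk0' : 0 < k := by linarith
  have hG : DP (T ^ (1 / 1000 : ℝ)) (T ^ (1 / 1000 : ℝ)) (NN T M (k - 1)) :=
    hDP T hTT3 (k - 1) (by rw [abs_le]; constructor <;> linarith) _ _
  have hNT : T ^ (1 / 1000 : ℝ) ≤ T := by
    calc T ^ (1 / 1000 : ℝ) ≤ T ^ (1 : ℝ) :=
        Real.rpow_le_rpow_of_exponent_le (by linarith) (by norm_num)
      _ = T := Real.rpow_one T
  have hτpos : 0 < |τ| := lt_of_lt_of_le (by positivity) hτ1
  have hτ0 : τ ≠ 0 := abs_pos.1 hτpos
  have hex := h9 T hTT1 M τ hτ1 hτ2 (NN T M (k - 1)) hG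
  rw [FG_zero] at hex
  -- the quantity `ℓ = log (|τ| / 2π)`
  have hpi3 := Real.pi_gt_three
  have hpi4 : Real.pi < 3.15 := Real.pi_lt_d2
  set ℓ := Real.log (|τ| / (2 * Real.pi)) with hℓ
  have hb0 : 0 < |τ| / (2 * Real.pi) := by positivity
  have hℓ1 : ℓ ≤ L := by
    rw [hℓ, hLdef]
    apply Real.log_le_log hb0
    rw [div_le_iff₀ (by positivity)]
    nlinarith
  have hℓ2 : L - (Real.log L + 2) ≤ ℓ := by
    have h1 : T / L / (2 * Real.pi) ≤ |τ| / (2 * Real.pi) := by gcongr
    have h2 := Real.log_le_log (by positivity) h1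
    rw [Real.log_div (by positivity) (by positivity), Real.log_div (by positivity) (by positivity)] at h2
    have h3 : Real.log (2 * Real.pi) ≤ 2 := by
      rw [Real.log_le_iff_le_exp (by positivity)]
      have h4 : (2.7182818283 : ℝ) < Real.exp 1 := Real.exp_one_gt_d9
      have h5 : Real.exp 2 = Real.exp 1 * Real.exp 1 := by rw [← Real.exp_add]; norm_num
      rw [h5]
      nlinarith
    linarith
  have hlogL : 0 ≤ Real.log L := Real.log_nonneg hL1
  have hlogL2 : Real.log L ≤ L - 1 := Real.log_le_sub_one_of_pos hL0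
  have hDabs : |ℓ - L| ≤ Real.log L + 2 := by
    rw [abs_le]; constructor <;> linarith
  have e2' : 32 * ((Real.log L + 2) / L) < min 1 (η / 6) := by
    have : (Real.log L + 2) / L = Real.log L / L + 2 * L⁻¹ := by field_simp
    rw [this]; exact e2
  have hmain : ‖Real.circleAverage (Mn T τ M (NN T M (k - 1))) 0 (1 / L) - R0 * L‖ ≤
      R0 * L * (18 * C / L + 9 / 2 * min 1 (η / 30) + 32 * ((Real.log L + 2) / L) / 2) := by
    apply mean_core hL0
    · apply Mn_cont h5 (by linarith) hNT hG M hτ0 (by positivity)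
      have := e4.trans_le (min_le_right _ _)
      rw [one_div]
      linarith [inv_pos.2 hL0]
    · intro a ha
      have ha0 : a ≠ 0 := by
        intro h; rw [h, norm_zero] at ha
        have : 0 < 1 / L := by positivity
        linarith
      have ha2 : ‖2 * a‖ < δ := by
        rw [norm_mul, ha]
        have := e4.trans_le (min_le_left _ _)
        simpa using this
      have har : ‖a‖ ≤ Real.exp (M / 2) / L := by
        rw [ha]
        gcongr
        exact Real.one_le_exp (by positivity)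
      have hz1 := hpole (2 * a) (by simpa using ha0) ha2
      have hz2 := hpole (-(2 * a)) (by simpa using ha0) (by rwa [norm_neg])
      rw [← sub_eq_add_neg] at hz2
      have hr1 := hRA T hTT2 k hkk hk a a har har
      have hr2 := hRA T hTT2 k hkk hk (-a) (-a) (by rwa [norm_neg]) (by rwa [norm_neg])
      have hX : ((|τ| / (2 * Real.pi) : ℝ) : ℂ) ^ (-(2 * a)) = cexp (-(2 * a * ℓ)) := by
        rw [cpow_def_of_ne_zero (by exact_mod_cast hb0.ne'), ← Complex.ofReal_log hb0.le, ← hℓ]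
        congr 1; ring
      have hXn : ‖cexp (-(2 * a * ℓ))‖ ≤ 8 := by
        refine (Complex.norm_exp_le_exp_norm _).trans ?_
        have h1 : ‖-(2 * a * (ℓ : ℂ))‖ ≤ 2 := by
          rw [norm_neg, norm_mul, norm_mul, ha, Complex.norm_real, Real.norm_eq_abs]
          have h2 : |ℓ| ≤ L := by rw [abs_le]; constructor <;> linarith
          have h3 : ‖(2 : ℂ)‖ = 2 := by simp
          rw [h3]
          calc 2 * (1 / L) * |ℓ| ≤ 2 * (1 / L) * L := by gcongr
            _ = 2 := by field_simp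
        refine (Real.exp_le_exp.2 h1).trans ?_
        have h4 : Real.exp 1 < 2.7182818286 := Real.exp_one_lt_d9
        have h5 : Real.exp 2 = Real.exp 1 * Real.exp 1 := by rw [← Real.exp_add]; norm_num
        rw [h5]
        have := Real.exp_pos 1
        nlinarith
      have hX0n : ‖cexp (-(2 * a * L))‖ ≤ 8 := by
        refine (Complex.norm_exp_le_exp_norm _).trans ?_
        have h1 : ‖-(2 * a * (L : ℂ))‖ ≤ 2 := by
          rw [norm_neg, norm_mul, norm_mul, ha, Complex.norm_real, Real.norm_of_nonneg hL0.le]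
          have h3 : ‖(2 : ℂ)‖ = 2 := by simp
          rw [h3]
          apply le_of_eq; field_simp
        refine (Real.exp_le_exp.2 h1).trans ?_
        have h4 : Real.exp 1 < 2.7182818286 := Real.exp_one_lt_d9
        have h5 : Real.exp 2 = Real.exp 1 * Real.exp 1 := by rw [← Real.exp_add]; norm_num
        rw [h5]
        have := Real.exp_pos 1
        nlinarith
      have hXX : ‖cexp (-(2 * a * L)) - cexp (-(2 * a * ℓ))‖ ≤ 32 * ((Real.log L + 2) / L) := by
        have h1 : cexp (-(2 * a * L)) - cexp (-(2 * a * ℓ)) =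
            -(cexp (-(2 * a * L)) * (cexp (-(2 * a * ((ℓ - L : ℝ) : ℂ))) - 1)) := by
          rw [mul_sub, ← Complex.exp_add, mul_one, neg_sub]
          congr 2
          push_cast; ring
        have h2 : ‖-(2 * a * ((ℓ - L : ℝ) : ℂ))‖ ≤ 2 * ((Real.log L + 2) / L) := by
          rw [norm_neg, norm_mul, norm_mul, ha, Complex.norm_real, Real.norm_eq_abs]
          have h3 : ‖(2 : ℂ)‖ = 2 := by simp
          rw [h3]
          calc 2 * (1 / L) * |ℓ - L| ≤ 2 * (1 / L) * (Real.log L + 2) := by gcongr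
            _ = 2 * ((Real.log L + 2) / L) := by ring
        have h4 : 2 * ((Real.log L + 2) / L) ≤ 1 := by
          have := e2'.trans_le (min_le_left _ _)
          linarith [show 0 ≤ (Real.log L + 2) / L by positivity]
        have h5 := Complex.norm_exp_sub_one_le (h2.trans h4)
        rw [h1, norm_neg, norm_mul]
        calc _ ≤ 8 * (2 * (2 * ((Real.log L + 2) / L))) := by
              gcongr
              exact h5.trans (by gcongr)
          _ = _ := by ring
      unfold Mn
      rw [hX]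
      exact point_core hL0 ha hR0p.le (min_le_left _ _) hC.le hz1 hz2 hr1 hr2 hXn hXX
  set E := EG T τ (fun t => ‖riemannZeta (1 / 2 + t * I)‖ ^ 2 *
    ‖NN T M (k - 1) (fs (1 / 2 + t * I))‖ ^ 2) with hE
  have hfin : ‖((E - R0 * L : ℝ) : ℂ)‖ ≤ T ^ (-(1 / 1000) : ℝ) +
      R0 * L * (18 * C / L + 9 / 2 * min 1 (η / 30) + 32 * ((Real.log L + 2) / L) / 2) := by
    calc ‖((E - R0 * L : ℝ) : ℂ)‖ = ‖((E : ℂ) - Real.circleAverage (Mn T τ M (NN T M (k - 1))) 0 (1 / L)) +
          (Real.circleAverage (Mn T τ M (NN T M (k - 1))) 0 (1 / L) - R0 * L)‖ := by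
          push_cast; ring_nf
      _ ≤ _ := (norm_add_le _ _).trans (add_le_add hex hmain)
  rw [Complex.norm_real, Real.norm_eq_abs, hR0L] at hfin
  refine hfin.trans ?_
  have f1 : T ^ (-(1 / 1000) : ℝ) ≤ η / 6 * L ^ (k ^ 2) := by
    nlinarith
  have f2 : 18 * C / L + 9 / 2 * min 1 (η / 30) + 32 * ((Real.log L + 2) / L) / 2 ≤
      η / 6 + 9 / 2 * (η / 30) + η / 12 := by
    have g1 : 18 * C / L ≤ η / 6 := by rw [div_eq_mul_inv]; exact e1.le
    have g2 : min 1 (η / 30) ≤ η / 30 := min_le_right _ _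
    have g3 := (e2'.trans_le (min_le_right _ _)).le
    linarith
  have f3 : L ^ (k ^ 2) * (18 * C / L + 9 / 2 * min 1 (η / 30) + 32 * ((Real.log L + 2) / L) / 2) ≤
      L ^ (k ^ 2) * (η / 6 + 9 / 2 * (η / 30) + η / 12) := by
    gcongr
  nlinarith

end K1R
end Pool.Agent.Lib.MP_973905_nt
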