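import Pool.Agent.Lib.MP_973905_nt.K1.AllK1
import Pool.Agent.Lib.MP_973905_nt.K1R.LF
import Pool.Agent.Lib.MP_973905_nt.K1R.BlockShift
import Pool.Agent.Lib.MP_973905_nt.K1R.RA
import Pool.Agent.Lib.MP_973905_nt.K1R.Crude
import Pool.Agent.Lib.MP_973905_nt.K1R.Prod
import Pool.Agent.Lib.MP_973905_nt.K1R.CKR
import Pool.Agent.Lib.MP_973905_nt.K1R.Second
import Pool.Agent.Lib.MP_973905_nt.K1R.Lower
import Pool.Agent.Lib.MP_973905_nt.K1R.Final

/-! Assembly of the lower bound in the joint limit `T → ∞`, `k → 1+`. -/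

namespace Pool.Agent.Lib.MP_973905_nt.K1R

open Pool.Agent.Lib.MP_973905_nt.K1

theorem final : StFinalR := by
  have h3 := stZetaPair stShift
  have h6 := stRight h3 stRBound stFin
  have h7 := stLeft stFFpair stRBound
  have h9 := stExact stFin h6 h7 stStrip
  have h12 := stRAR stLF stLFR (stBlockShiftR stLFR)
  have h15 := stSecondR stFin h9 h12 stShort
  have h22 := stLowerR stShort stCrudeR h15 (stProdR stProdRM stShort) stAvg stAvgUp
  exact stFinalR h22 stCKR

end Pool.Agent.Lib.MP_973905_nt.K1R
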